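import Pool.Agent.L5helper95.BA.K3
import Pool.Agent.R227.IT8

/-!
# Numerical bounds for the total variations
-/

set_option autoImplicit false

namespace Pool.Agent.L5helper95.BA

open MeasureTheory Set

lemma two_pi_le : 2 * Real.pi ≤ 6.283186 := by
  have := Real.pi_lt_d6
  linarith

lemma sqrt_two_pi : Real.sqrt (2 * Real.pi) ≤ 2.5067 := by
  rw [Real.sqrt_le_iff]
  constructor
  · norm_num
  · have := two_pi_le
    norm_num at this ⊢
    linarith

lemma sqrt_two_pi_pos : 0 ≤ Real.sqrt (2 * Real.pi) := Real.sqrt_nonneg _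

lemma pow34 (m : ℕ) : ((m : ℝ) ^ (3 / 4 : ℝ)) ^ 4 = (m : ℝ) ^ 3 := by
  rw [← Real.rpow_natCast, ← Real.rpow_natCast, ← Real.rpow_mul (by positivity)]
  norm_num

lemma pow34_le (m : ℕ) : (m : ℝ) ^ (3 / 4 : ℝ) ≤ (3 * m + 1) / 4 := by
  have hm : (0 : ℝ) ≤ m := Nat.cast_nonneg m
  rw [← pow_le_pow_iff_left₀ (by positivity) (by positivity) (four_ne_zero), pow34]
  have : 0 ≤ ((m : ℝ) - 1) ^ 2 * (81 * (m : ℝ) ^ 2 + 14 * m + 1) := by positivity
  nlinarith

lemma pow34_le3 {m : ℕ} (hm : 3 ≤ m) : (m : ℝ) ^ (3 / 4 : ℝ) ≤ 0.7599 * m := by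
  have hm' : (3 : ℝ) ≤ m := by exact_mod_cast hm
  rw [← pow_le_pow_iff_left₀ (by positivity) (by positivity) (four_ne_zero), pow34]
  have h1 : (0 : ℝ) ≤ (m : ℝ) ^ 3 := by positivity
  have e : (0.7599 * (m : ℝ)) ^ 4 = 0.7599 ^ 4 * m * (m : ℝ) ^ 3 := by ring
  rw [e]
  have h2 : (1 : ℝ) ≤ 0.7599 ^ 4 * m := by
    norm_num
    linarith
  nlinarith

lemma pow34_two : ((2 : ℕ) : ℝ) ^ (3 / 4 : ℝ) ≤ 1.6818 := by
  rw [← pow_le_pow_iff_left₀ (by positivity) (by norm_num) (four_ne_zero), pow34]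
  norm_num

lemma B_first {a : ℝ} (ha : 1 / 2 ≤ a) : 1 / (2 * a * Real.sqrt a) ≤ 1.41423 := by
  have h1 : 0.7071 ≤ Real.sqrt a := by
    apply Real.le_sqrt_of_sq_le
    norm_num at ha ⊢
    linarith
  have h2 : 0.7071 ≤ 2 * a * Real.sqrt a := by nlinarith
  have h3 : 0 < 2 * a * Real.sqrt a := by linarith
  rw [div_le_iff₀ h3]
  nlinarith

lemma B_second {a : ℝ} (ha : 1 / 2 ≤ a) (n : ℕ) :
    1 / Real.sqrt (a + 1 / 2) - 1 / Real.sqrt (a + 1 / 2 + n) ≤ 1 := by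
  have h1 : 1 ≤ Real.sqrt (a + 1 / 2) := Real.one_le_sqrt.2 (by linarith)
  have h2 : 1 / Real.sqrt (a + 1 / 2) ≤ 1 := by
    rw [div_le_one (by linarith)]; exact h1
  have h3 : 0 ≤ 1 / Real.sqrt (a + 1 / 2 + n) := by positivity
  linarith

lemma B_second2 {a : ℝ} (ha : 1 / 2 ≤ a) :
    1 / Real.sqrt (a + 1 / 2) - 1 / Real.sqrt (a + 1 / 2 + ((2 : ℕ) : ℝ)) ≤ 0.4227 := by
  set X := Real.sqrt (a + 1 / 2) with hX
  set Y := Real.sqrt (a + 1 / 2 + ((2 : ℕ) : ℝ)) with hY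
  have h1 : 1 ≤ X := Real.one_le_sqrt.2 (by linarith)
  have h2 : 1.732 ≤ Y := by
    apply Real.le_sqrt_of_sq_le
    push_cast
    norm_num at ha ⊢
    linarith
  have hX2 : X ^ 2 = a + 1 / 2 := Real.sq_sqrt (by linarith)
  have hY2 : Y ^ 2 = a + 1 / 2 + 2 := by
    have := Real.sq_sqrt (show (0:ℝ) ≤ a + 1 / 2 + ((2 : ℕ) : ℝ) by push_cast; linarith)
    rw [← hY] at this
    rw [this]; norm_num
  have e : 1 / X - 1 / Y = 2 / ((X + Y) * (X * Y)) := by
    have : (Y - X) * (X + Y) = 2 := by nlinarith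
    field_simp
    nlinarith
  rw [e, div_le_iff₀ (by positivity)]
  have h3 : 1.732 ≤ X * Y := by nlinarith
  have h4 : 2.732 ≤ X + Y := by linarith
  have h5 : 2.732 * 1.732 ≤ (X + Y) * (X * Y) := mul_le_mul h4 h3 (by norm_num) (by linarith)
  norm_num at h5 ⊢
  linarith

lemma M_gen {a : ℝ} (ha : 1 / 2 ≤ a) (m : ℕ) :
    1 + ∫ y in Ioi (0:ℝ), |ks a m y| ≤ 1 + 2.5067 * (m : ℝ) ^ (3 / 4 : ℝ) + 4.6318 * m := by
  have h1 := l1_ks a 1 3.41423 (by linarith) m (by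
    rw [div_le_iff₀ (by linarith)]; linarith) one_pos (by
    have h1 := B_first ha
    have h2 := B_second ha m
    norm_num at h1 h2 ⊢
    linarith)
  have h2 : Real.sqrt (2 * Real.pi * (1 * 3.41423)) ≤ 4.6318 := by
    rw [Real.sqrt_le_iff]
    refine ⟨by norm_num, ?_⟩
    have := two_pi_le
    norm_num at this ⊢
    linarith
  have h3 := mul_le_mul_of_nonneg_right sqrt_two_pi (show 0 ≤ (m : ℝ) ^ (3 / 4 : ℝ) by positivity)
  have h4 := mul_le_mul_of_nonneg_left h2 (Nat.cast_nonneg m : (0:ℝ) ≤ m)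
  linarith

lemma M_two {a : ℝ} (ha : 1 / 2 ≤ a) : 1 + ∫ y in Ioi (0:ℝ), |ks a 2 y| ≤ 14.1 := by
  have h1 := l1_ks a 1 2.25963 (by linarith) 2 (by
    rw [div_le_iff₀ (by linarith)]; linarith) one_pos (by
    have h1 := B_first ha
    have h2 := B_second2 ha
    norm_num at h1 h2 ⊢
    linarith)
  have h2 : Real.sqrt (2 * Real.pi * (1 * 2.25963)) ≤ 3.7682 := by
    rw [Real.sqrt_le_iff]
    refine ⟨by norm_num, ?_⟩
    have := two_pi_le
    norm_num at this ⊢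
    linarith
  have h3 := mul_le_mul sqrt_two_pi pow34_two (by positivity) (by norm_num)
  have h4 := mul_le_mul_of_nonneg_left h2 (Nat.cast_nonneg 2 : (0:ℝ) ≤ (2 : ℕ))
  push_cast at h1 h3 h4
  norm_num at h1 h3 h4 ⊢
  linarith

/-- the total variations for `k > n`, `k ≠ 2 n` -/
lemma M_outer {a : ℝ} (ha : 1 / 2 ≤ a) {m n : ℕ} (hmn : m ≤ n) (hn : 2 ≤ n) :
    1 + ∫ y in Ioi (0:ℝ), |ks a m y| ≤ 7.05 * n := by
  have hmn' : (m : ℝ) ≤ n := by exact_mod_cast hmn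
  rcases le_or_gt 3 m with h3 | h3
  · have h1 := M_gen ha m
    have h2 := pow34_le3 h3
    have h4 : (3 : ℝ) ≤ m := by exact_mod_cast h3
    norm_num at h1 h2 ⊢
    linarith
  · have h1 := M_gen ha m
    have h2 := pow34_le m
    rcases hn.eq_or_lt with h4 | h4
    · subst h4
      rcases Nat.lt_or_ge m 2 with h5 | h5
      · have h6 : (m : ℝ) ≤ 1 := by
          have : m ≤ 1 := by omega
          exact_mod_cast this
        norm_num at h1 h2 ⊢
        linarith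
      · have h6 : m = 2 := by omega
        subst h6
        refine (M_two ha).trans ?_
        norm_num
    · have h5 : (m : ℝ) ≤ 2 := by
        have : m ≤ 2 := by omega
        exact_mod_cast this
      have h6 : (3 : ℝ) ≤ n := by exact_mod_cast h4
      norm_num at h1 h2 ⊢
      linarith

/-- the total variation for the extremal class -/
lemma M_ext (m : ℕ) : 1 + ∫ y in Ioi (0:ℝ), |ks 1 m y| ≤ 5 * (m + 1) := by
  have h1 := l1_ks 1 0.7072 2.1332 one_pos m (by norm_num) (by norm_num) (by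
    have h2 : 0 ≤ 1 / Real.sqrt (1 + 1 / 2 + m) := by positivity
    have h3 : 1.2247 ≤ Real.sqrt (1 + 1 / 2) := by
      apply Real.le_sqrt_of_sq_le
      norm_num
    have h4 : 1 / Real.sqrt (1 + 1 / 2) ≤ 0.81653 := by
      rw [div_le_iff₀ (by linarith)]
      norm_num at h3 ⊢
      linarith
    have h5 : 1 / (2 * 1 * Real.sqrt 1) = 1 / 2 := by rw [Real.sqrt_one]; norm_num
    rw [h5]
    have key : ∀ Z1 Z2 : ℝ, Z1 ≤ 0.81653 → 0 ≤ Z2 → 1 / 2 + 2 * (Z1 - Z2) ≤ 2.1332 := by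
      intro Z1 Z2 hZ1 hZ2
      norm_num at hZ1 ⊢
      linarith
    exact key _ _ h4 h2)
  have h2 : Real.sqrt (2 * Real.pi * (0.7072 * 2.1332)) ≤ 3.08 := by
    rw [Real.sqrt_le_iff]
    refine ⟨by norm_num, ?_⟩
    have := two_pi_le
    norm_num at this ⊢
    linarith
  have h3 := mul_le_mul sqrt_two_pi (pow34_le m) (by positivity) (by norm_num)
  have h4 := mul_le_mul_of_nonneg_left h2 (Nat.cast_nonneg m : (0:ℝ) ≤ m)
  have h5 : (0 : ℝ) ≤ m := Nat.cast_nonneg m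
  have key : ∀ I W V x : ℝ, 0 ≤ x → I ≤ W + V → W ≤ 2.5067 * ((3 * x + 1) / 4) → V ≤ x * 3.08 →
      1 + I ≤ 5 * (x + 1) := by
    intro I W V x g0 g1 g2 g3
    norm_num at g2 g3 ⊢
    linarith
  exact key _ _ _ _ h5 h1 h3 h4

/-- the total variations for `k ≤ n` -/
lemma M_inner {m n : ℕ} (hmn : m ≤ n) (hn : 1 ≤ n) :
    1 + Real.sqrt (2 * Real.pi) * (m : ℝ) ^ (3 / 4 : ℝ) ≤ 7.05 * n := by
  have hmn' : (m : ℝ) ≤ n := by exact_mod_cast hmn
  have hn' : (1 : ℝ) ≤ n := by exact_mod_cast hn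
  have h3 := mul_le_mul sqrt_two_pi (pow34_le m) (by positivity) (by norm_num)
  have key : ∀ W x y : ℝ, x ≤ y → 1 ≤ y → W ≤ 2.5067 * ((3 * x + 1) / 4) → 1 + W ≤ 7.05 * y := by
    intro W x y g1 g2 g3
    norm_num at g3 ⊢
    linarith
  exact key _ _ _ hmn' hn' h3

lemma log705 : Real.log 7.05 ≤ 1.954676 := by
  have h1 : (7.05:ℝ) ^ 50 ≤ 2 ^ 141 := by norm_num
  have h2 := Real.log_le_log (by positivity) h1
  rw [Real.log_pow, Real.log_pow] at h2
  have h3 := Real.log_two_lt_d9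
  push_cast at h2
  norm_num at h2 h3 ⊢
  linarith

lemma log141 : Real.log 14.1 ≤ 2.6479 := by
  have h1 : (14.1:ℝ) ^ 50 ≤ 2 ^ 191 := by norm_num
  have h2 := Real.log_le_log (by positivity) h1
  rw [Real.log_pow, Real.log_pow] at h2
  have h3 := Real.log_two_lt_d9
  push_cast at h2
  norm_num at h2 h3 ⊢
  linarith

open Pool.Agent.R227.IT (log_pm logK Cn_pos)
open Pool.Agent.Y282.RB (Cn)

/-- comparison with the constant of the question -/
lemma cmp_Q1 {p : ℝ} (hp : 2 ≤ p) {n : ℕ} (hn : 1 ≤ n) :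
    (7.05 * (n : ℝ)) ^ (1 - 2 / p) ≤ (n : ℝ) ^ (1 - 2 / p) * (p - 1) := by
  have hp0 : 0 < p := by linarith
  have hx0 : 0 ≤ 1 - 2 / p := by
    rw [sub_nonneg, div_le_one hp0]; exact hp
  have hn0 : (0:ℝ) < n := by exact_mod_cast hn
  rw [Real.mul_rpow (by norm_num) hn0.le, mul_comm]
  apply mul_le_mul_of_nonneg_left _ (by positivity)
  rw [← Real.log_le_log_iff (by positivity) (by linarith), Real.log_rpow (by norm_num)]
  have h1 := log_pm hp
  have h2 := log705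
  have h3 : 0 ≤ (1 - 2 / p) ^ 3 := by positivity
  nlinarith

/-- comparison with `(1/q)_n / (1/p)_n` -/
lemma cmp_K {p : ℝ} (hp : 2 ≤ p) {n : ℕ} (hn : 2 ≤ n) :
    (7.05 * (n : ℝ)) ^ (1 - 2 / p) ≤ Cn p n := by
  have hp0 : 0 < p := by linarith
  have hx0 : 0 ≤ 1 - 2 / p := by
    rw [sub_nonneg, div_le_one hp0]; exact hp
  have hn0 : (0:ℝ) < n := by
    have : 0 < n := by omega
    exact_mod_cast this
  rw [← Real.log_le_log_iff (by positivity) (Cn_pos hp n), Real.log_rpow (by positivity)]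
  have h1 := log_pm hp
  have h3 : 0 ≤ (1 - 2 / p) ^ 3 := by positivity
  have h4 := logK hp hn
  set x := 1 - 2 / p with hx
  rcases hn.eq_or_lt with h5 | h5
  · subst h5
    have e : (7.05 * ((2 : ℕ) : ℝ)) = 14.1 := by norm_num
    rw [e]
    have h6 := log141
    push_cast at h4
    have e2 : 2 / 3 + Real.log 2 - Real.log 2 - 1 / 16 * (1 / 4 - 1 / (2:ℝ) ^ 2) = 2 / 3 := by norm_num
    rw [e2] at h4
    nlinarith
  · rw [Real.log_mul (by norm_num) hn0.ne']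
    have h6 := log705
    have h7 := Real.log_two_lt_d9
    have h8 : 0 < 1 / (n : ℝ) ^ 2 := by positivity
    have h9 : Real.log 7.05 + Real.log n ≤
        2 + (2 / 3 + Real.log n - Real.log 2 - 1 / 16 * (1 / 4 - 1 / (n : ℝ) ^ 2)) := by
      have key : ∀ A B L w : ℝ, 0 < w → A ≤ 1.954676 → L < 0.6931471808 →
          A + B ≤ 2 + (2 / 3 + B - L - 1 / 16 * (1 / 4 - w)) := by
        intro A B L w g1 g2 g3
        norm_num at g2 g3 ⊢
        linarith
      exact key _ _ _ _ h8 h6 h7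
    have h10 := mul_le_mul_of_nonneg_left h9 hx0
    nlinarith

end Pool.Agent.L5helper95.BA
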