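import Pool.Agent.L5helper95.BA.D2
import Pool.Agent.L5helper95.BA.N1

/-!
# Powers of the Beurling transform on the angular classes: assembly
-/

set_option autoImplicit false

namespace Pool.Agent.L5helper95.BA

open MeasureTheory Set Filter Topology
open scoped ENNReal SchwartzMap ContDiff
open Pool.Agent.Y282.RB (Tn Cn)

/-- the bound with constant `C` -/
def Bo (n : ℕ) (p : ℝ) (f : 𝓢(ℂ, ℂ)) (C : ℝ) : Prop :=
  eLpNorm (Tn n f) (ENNReal.ofReal p) (volume : Measure ℂ) ≤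
    ENNReal.ofReal C * eLpNorm (⇑f) (ENNReal.ofReal p) (volume : Measure ℂ)

lemma Bo.mono {n : ℕ} {p : ℝ} {f : 𝓢(ℂ, ℂ)} {C D : ℝ} (h : Bo n p f C) (hCD : C ≤ D) : Bo n p f D := by
  refine h.trans ?_
  gcongr

lemma Bo_two (n : ℕ) (f : 𝓢(ℂ, ℂ)) : Bo n 2 f 1 := by
  unfold Bo
  rw [eL two_pos, eL two_pos, ENNReal.ofReal_one, one_mul]
  have h := Pool.Agent.Y338.BP.T_two f n
  have h2 : ∫⁻ z : ℂ, ‖Tn n f z‖ₑ ^ (2:ℝ) = ∫⁻ z : ℂ, ‖f z‖ₑ ^ (2:ℝ) := by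
    simp only [ENNReal.rpow_ofNat]
    exact h
  rw [h2]

lemma Bo_two' (n : ℕ) (f : 𝓢(ℂ, ℂ)) (M : ℝ) : Bo n 2 f (M ^ (1 - 2 / (2:ℝ))) := by
  have : (1:ℝ) - 2 / 2 = 0 := by norm_num
  rw [this, Real.rpow_zero]
  exact Bo_two n f

lemma outer {κ m n : ℕ} (hn : n = m ∨ n = m + κ) (hn1 : 1 ≤ n) (hκ : 1 ≤ κ) {p : ℝ} (hp : 2 ≤ p)
    {M : ℝ} (hM : 1 + ∫ y in Ioi (0:ℝ), |ks (κ / 2) m y| ≤ M) (f : 𝓢(ℂ, ℂ))
    (hf : ∀ a z : ℂ, ‖a‖ = 1 → f (a * z) = a ^ (2 * m + κ) * f z) : Bo n p f (M ^ (1 - 2 / p)) := by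
  rcases hp.eq_or_lt with rfl | hp2
  · exact Bo_two' n f M
  have hp0 : 0 < p := by linarith
  have h0 : 0 ≤ ∫ y in Ioi (0:ℝ), |ks (κ / 2) m y| := integral_nonneg fun _ => abs_nonneg _
  have hx0 : 0 ≤ 1 - 2 / p := by
    rw [sub_nonneg, div_le_one hp0]; exact hp
  have hB := (Bd_above κ hκ m hp2).mono hp0.le (by positivity)
    (Real.rpow_le_rpow (by linarith) hM hx0)
  exact to_schwartz hn1 hp (fun φ hφ R h => plane_GC κ m n hn hp0 (Real.rpow_nonneg (by linarith) _)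
    hB hφ h) f hf

lemma inner {κ m n : ℕ} (hn : n = m ∨ n = m + κ) {k : ℤ}
    (hk : k - 2 * n = -((2 * m + κ : ℕ) : ℤ)) {p : ℝ} (hp : 2 ≤ p)
    {M : ℝ} (hM : 1 + Real.sqrt (2 * Real.pi) * (m : ℝ) ^ (3 / 4 : ℝ) ≤ M) (f : 𝓢(ℂ, ℂ))
    (hf : ∀ a z : ℂ, ‖a‖ = 1 → f (a * z) = a ^ k * f z) : Bo n p f (M ^ (1 - 2 / p)) := by
  rcases hp.eq_or_lt with rfl | hp2
  · exact Bo_two' n f M
  have hp0 : 0 < p := by linarith
  have hp1 : 0 < p - 1 := by linarith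
  have h0 : 0 ≤ Real.sqrt (2 * Real.pi) * (m : ℝ) ^ (3 / 4 : ℝ) := by positivity
  have hx0 : 0 ≤ 1 - 2 / p := by
    rw [sub_nonneg, div_le_one hp0]; exact hp
  have hq1 : 1 < p / (p - 1) := by rw [lt_div_iff₀ hp1]; linarith
  have hq2 : p / (p - 1) < 2 := by rw [div_lt_iff₀ hp1]; linarith
  have h1 := l1_ks_half (κ / 2) (by positivity) m
  have h2 : 0 ≤ ∫ y in Ioi (0:ℝ), Real.exp (-(1 / 2 * y)) * |ks (κ / 2) m y| :=
    integral_nonneg fun _ => by positivity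
  have e : 2 / (p / (p - 1)) - 1 = 1 - 2 / p := by
    field_simp
    ring
  have hB := Bd_below κ m hq1 hq2
  rw [e] at hB
  have hB2 := hB.mono (by positivity) (by positivity)
    (Real.rpow_le_rpow (by linarith) (by linarith : 1 + (∫ y in Ioi (0:ℝ),
      Real.exp (-(1 / 2 * y)) * |ks (κ / 2) m y|) ≤ M) hx0)
  exact dual hk hp2 (Real.rpow_nonneg (by linarith) _) (fun φ hφ R h => plane_GC κ m n hn
    (by positivity) (Real.rpow_nonneg (by linarith) _) hB2 hφ h) f hf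

lemma Bo_one {p : ℝ} (hp : 2 ≤ p) (f : 𝓢(ℂ, ℂ)) : Bo 1 p f (p - 1) := by
  have h := Pool.Agent.TH55.PowA.main p hp 1 le_rfl f
  rw [Pool.Agent.TH55.PowA.Cn_one, one_mul] at h
  exact h

lemma zk {K : ℕ} {k : ℤ} (hk : k = K) {f : 𝓢(ℂ, ℂ)} (hf : ∀ a z : ℂ, ‖a‖ = 1 → f (a * z) = a ^ k * f z) :
    ∀ a z : ℂ, ‖a‖ = 1 → f (a * z) = a ^ K * f z := by
  intro a z ha
  rw [hf a z ha, hk, zpow_natCast]

/-- the general principle: `M` bounds all the total variations -/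
lemma gen {n : ℕ} (hn : 1 ≤ n) {p : ℝ} (hp : 2 ≤ p) {k : ℤ} (hk : k ≠ 2 * n) {M : ℝ}
    (h1 : ∀ m κ : ℕ, m ≤ n → 1 ≤ κ → |k - 2 * n| = κ → 1 + ∫ y in Ioi (0:ℝ), |ks (κ / 2) m y| ≤ M)
    (h2 : ∀ m : ℕ, m ≤ n → 1 + Real.sqrt (2 * Real.pi) * (m : ℝ) ^ (3 / 4 : ℝ) ≤ M) (f : 𝓢(ℂ, ℂ))
    (hf : ∀ a z : ℂ, ‖a‖ = 1 → f (a * z) = a ^ k * f z) : Bo n p f (M ^ (1 - 2 / p)) := by
  rcases lt_or_ge (2 * (n : ℤ)) k with c1 | c1
  · -- `k > 2 n`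
    obtain ⟨κ, hκ⟩ : ∃ κ : ℕ, k - 2 * n = κ := ⟨(k - 2 * n).toNat, by omega⟩
    have hκ1 : 1 ≤ κ := by omega
    refine outer (κ := κ) (m := n) (Or.inl rfl) hn hκ1 hp (h1 n κ le_rfl hκ1 ?_) f
      (zk (by push_cast; omega) hf)
    rw [hκ, Nat.abs_cast]
  rcases lt_or_ge k n with c2 | c2
  · rcases lt_or_ge k 0 with c3 | c3
    · -- `k < 0`
      obtain ⟨κ, hκ⟩ : ∃ κ : ℕ, -k = κ := ⟨(-k).toNat, by omega⟩
      exact inner (κ := κ) (m := n) (Or.inl rfl) (by push_cast; omega) hp (h2 n le_rfl) f hf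
    · -- `0 ≤ k < n`
      obtain ⟨κ, hκ⟩ : ∃ κ : ℕ, k = κ := ⟨k.toNat, by omega⟩
      obtain ⟨m, hm⟩ : ∃ m : ℕ, (n : ℤ) - k = m := ⟨(n - k).toNat, by omega⟩
      exact inner (κ := κ) (m := m) (Or.inr (by omega)) (by push_cast; omega) hp
        (h2 m (by omega)) f hf
  · -- `n ≤ k < 2 n`
    obtain ⟨m, hm⟩ : ∃ m : ℕ, k - n = m := ⟨(k - n).toNat, by omega⟩
    obtain ⟨κ, hκ⟩ : ∃ κ : ℕ, 2 * n - k = κ := ⟨(2 * n - k).toNat, by omega⟩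
    have hκ1 : 1 ≤ κ := by omega
    refine outer (κ := κ) (m := m) (Or.inr (by omega)) hn hκ1 hp (h1 m κ (by omega) hκ1 ?_) f
      (zk (by push_cast; omega) hf)
    have : k - 2 * n = -(κ : ℤ) := by omega
    rw [this, abs_neg, Nat.abs_cast]

lemma Cn_one' {p : ℝ} (hp : 2 ≤ p) : Cn p 1 = p - 1 := by
  unfold Cn
  rw [Finset.prod_range_one]
  have : p ≠ 0 := by linarith
  push_cast
  field_simp
  ring

/-- the bound of the question and the stronger one -/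
theorem main1 {n : ℕ} (hn : 1 ≤ n) {p : ℝ} (hp : 2 ≤ p) {k : ℤ} (hk : k ≠ 2 * n) (f : 𝓢(ℂ, ℂ))
    (hf : ∀ a z : ℂ, ‖a‖ = 1 → f (a * z) = a ^ k * f z) :
    Bo n p f (Cn p n) ∧ Bo n p f ((n : ℝ) ^ (1 - 2 / p) * (p - 1)) := by
  rcases hn.eq_or_lt with h1 | h1
  · subst h1
    rw [Cn_one' hp, Nat.cast_one, Real.one_rpow, one_mul]
    exact ⟨Bo_one hp f, Bo_one hp f⟩
  · have h2 : 2 ≤ n := h1
    have key : Bo n p f ((7.05 * (n : ℝ)) ^ (1 - 2 / p)) := by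
      refine gen hn hp hk (fun m κ hm hκ _ => M_outer ?_ hm h2) (fun m hm => M_inner hm hn) f hf
      have : (1 : ℝ) ≤ κ := by exact_mod_cast hκ
      linarith
    exact ⟨key.mono (cmp_K hp h2), key.mono (cmp_Q1 hp hn)⟩

/-- the bound which is uniform in `p` -/
theorem main2 {n : ℕ} (hn : 1 ≤ n) {p : ℝ} (hp : 2 ≤ p) {k : ℤ} (hk : k ≠ 2 * n) (f : 𝓢(ℂ, ℂ))
    (hf : ∀ a z : ℂ, ‖a‖ = 1 → f (a * z) = a ^ k * f z) :
    Bo n p f (((1 + 2.51 * (n : ℝ) ^ (3 / 4 : ℝ)) * (1 + 2 * n / |(k : ℝ) - 2 * n|)) ^ (1 - 2 / p)) := by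
  have hs : Real.sqrt (2 * Real.pi) ≤ 2.51 := sqrt_two_pi.trans (by norm_num)
  have hmono : ∀ m : ℕ, m ≤ n → Real.sqrt (2 * Real.pi) * (m : ℝ) ^ (3 / 4 : ℝ) ≤
      2.51 * (n : ℝ) ^ (3 / 4 : ℝ) := by
    intro m hm
    have hm' : (m : ℝ) ≤ n := by exact_mod_cast hm
    exact mul_le_mul hs (Real.rpow_le_rpow (by positivity) hm' (by norm_num)) (by positivity)
      (by norm_num)
  refine gen hn hp hk (fun m κ hm hκ hκk => ?_) (fun m hm => ?_) f hf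
  · have hκ' : (1 : ℝ) ≤ κ := by exact_mod_cast hκ
    have hm' : (m : ℝ) ≤ n := by exact_mod_cast hm
    have e : |(k : ℝ) - 2 * n| = κ := by
      have : ((|k - 2 * n| : ℤ) : ℝ) = κ := by rw [hκk]; simp
      rw [← this]
      push_cast
      rfl
    rw [e]
    refine (l1_ks2 (κ / 2) (by positivity) m).trans ?_
    have e2 : (m : ℝ) / (κ / 2) = 2 * m / κ := by field_simp
    rw [e2]
    refine mul_le_mul (by linarith [hmono m hm]) ?_ (by positivity) (by positivity)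
    gcongr
  · have h3 : (0:ℝ) ≤ 2 * n / |(k : ℝ) - 2 * n| := by positivity
    have h4 : (0:ℝ) ≤ 2.51 * (n : ℝ) ^ (3 / 4 : ℝ) := by positivity
    have := hmono m hm
    nlinarith

lemma Rel.Tn_add {a b : ℕ} {f g : 𝓢(ℂ, ℂ)} (h : Rel a f g) (z : ℂ) : Tn (b + a) f z = Tn b g z := by
  unfold Tn
  refine integral_congr_ae ?_
  filter_upwards [ae_ne'] with ξ hξ
  rw [Pool.Agent.Y282.RB.A2.Ft_eq, Pool.Agent.Y282.RB.A2.Ft_eq, h ξ hξ, pow_add]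
  ring

/-- the extremal class -/
theorem main3 {n : ℕ} (hn : 1 ≤ n) {p : ℝ} (hp : 2 ≤ p) (f : 𝓢(ℂ, ℂ))
    (hf : ∀ a z : ℂ, ‖a‖ = 1 → f (a * z) = a ^ (2 * n) * f z) :
    Bo n p f ((5 * (n : ℝ)) ^ (1 - 2 / p) * (p - 1)) := by
  have hp0 : 0 < p := by linarith
  have hx0 : 0 ≤ 1 - 2 / p := by
    rw [sub_nonneg, div_le_one hp0]; exact hp
  obtain ⟨m, rfl⟩ : ∃ m, n = m + 1 := ⟨n - 1, by omega⟩
  have hM := M_ext m
  have h0 : 0 ≤ ∫ y in Ioi (0:ℝ), |ks 1 m y| := integral_nonneg fun _ => abs_nonneg _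
  have hB : Bd (ks ((2 : ℕ) / 2) m) p ((5 * ((m + 1 : ℕ) : ℝ)) ^ (1 - 2 / p)) := by
    have e : (((2 : ℕ) : ℝ) / 2) = 1 := by norm_num
    rcases hp.eq_or_lt with rfl | hp2
    · have h2 : (1:ℝ) - 2 / 2 = 0 := by norm_num
      rw [h2, Real.rpow_zero]
      exact Bd_two 2 m
    · have h3 := Bd_above 2 (by norm_num) m hp2
      refine h3.mono hp0.le (by positivity) (Real.rpow_le_rpow ?_ ?_ hx0)
      · rw [e]; linarith
      · rw [e]; push_cast; exact hM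
  refine to_schwartz hn hp (fun φ hφ R h => ?_) f hf
  have h' : Sm R φ := h
  have hrel := Rel_chain 2 m h'
  have e1 : rkS (2 * m + 2) h' = rkS (2 * (m + 1)) h := by
    ext z
    show z ^ (2 * m + 2) * φ (Complex.normSq z) = z ^ (2 * (m + 1)) * φ (Complex.normSq z)
    congr 2
  rw [e1] at hrel
  set g := rkS 2 (SS_sm 2 m h') with hg
  have e2 : Tn (m + 1) (rkS (2 * (m + 1)) h) = Tn 1 g := by
    funext z
    have h6 := hrel.Tn_add (b := 1) z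
    have h7 : 1 + m = m + 1 := add_comm 1 m
    rw [h7] at h6
    exact h6
  have e3 : (⇑g : ℂ → ℂ) = Tn m (rkS (2 * (m + 1)) h) := by
    funext z
    exact (hrel.Tn_eq z).symm
  have h4 := Bo_one hp g
  unfold Bo at h4
  have h5 := plane_GC 2 m m (Or.inl rfl) hp0 (by positivity) hB hφ h'
  rw [e1] at h5
  rw [e2]
  refine h4.trans ?_
  rw [e3]
  refine (mul_le_mul_right h5 _).trans (le_of_eq ?_)
  rw [← mul_assoc, ← ENNReal.ofReal_mul (by linarith), mul_comm (p - 1)]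

end Pool.Agent.L5helper95.BA
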