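import Mathlib
import Pool.Agent.Y338.BP.E
import Pool.Agent.Y282.RB.A2

/-!
# Powers of the Beurling transform: smoothness, rotations, symmetry
-/

set_option autoImplicit false

namespace Pool.Agent.L5helper95.BA

open MeasureTheory Set Filter Topology
open scoped ENNReal SchwartzMap ContDiff FourierTransform
open Pool.Agent.Y282.RB (Tn)
open Pool.Agent.TH55.PowA (T Ft bs sm Ft_fun Ft_int bs_meas bs_norm_le ae_ne)

/-- the integrand on the Fourier side -/
noncomputable def hh (n : ℕ) (f : 𝓢(ℂ, ℂ)) (ξ : ℂ) : ℂ := bs ξ ^ n * Ft f ξ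

lemma bs_pow_le (n : ℕ) (ξ : ℂ) : ‖bs ξ ^ n‖ ≤ 1 := by
  rw [norm_pow]; exact pow_le_one₀ (norm_nonneg _) (bs_norm_le ξ)

lemma hh_int (n : ℕ) (f : 𝓢(ℂ, ℂ)) : Integrable (hh n f) :=
  (Ft_int f).bdd_mul (bs_meas.pow_const n).aestronglyMeasurable (Eventually.of_forall (bs_pow_le n))

lemma Tn_four (n : ℕ) (f : 𝓢(ℂ, ℂ)) (z : ℂ) : Tn n f z = 𝓕 (hh n f) (-z) := by
  rw [Real.fourier_eq']
  unfold Tn
  refine integral_congr_ae (Eventually.of_forall fun ξ => ?_)
  simp only [smul_eq_mul]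
  have : (inner ℝ ξ (-z) : ℝ) = - sm z ξ := by
    rw [inner_neg_right, Complex.inner]
    simp [sm]
  rw [this]
  unfold hh bs Ft sm
  congr 2
  push_cast
  ring

lemma Tn_smooth (n : ℕ) (f : 𝓢(ℂ, ℂ)) : ContDiff ℝ ∞ (Tn n f) := by
  have e : Tn n f = fun z => 𝓕 (hh n f) (-z) := funext (Tn_four n f)
  rw [e]
  have h1 : ContDiff ℝ ∞ (𝓕 (hh n f)) := by
    refine Real.contDiff_fourier (N := ⊤) fun k _ => ?_
    have h2 : Integrable (fun v : ℂ => ‖v‖ ^ k * ‖Ft f v‖) := by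
      rw [Ft_fun]
      exact (𝓕 f : 𝓢(ℂ, ℂ)).integrable_pow_mul volume k
    have hm : AEStronglyMeasurable (hh n f) (volume : Measure ℂ) := (hh_int n f).aestronglyMeasurable
    refine h2.mono' ?_ (Eventually.of_forall fun v => ?_)
    · exact ((continuous_norm.pow k).aestronglyMeasurable).mul hm.norm
    · rw [norm_mul, norm_pow, norm_norm, norm_norm]
      apply mul_le_mul_of_nonneg_left _ (by positivity)
      unfold hh
      rw [norm_mul]
      exact mul_le_of_le_one_left (norm_nonneg _) (bs_pow_le n v)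
  exact h1.comp contDiff_neg

/-- rotations -/
lemma rot_int (a : ℂ) (ha : ‖a‖ = 1) (g : ℂ → ℂ) : ∫ z : ℂ, g (a * z) = ∫ z : ℂ, g z := by
  set c : Circle := ⟨a, mem_sphere_zero_iff_norm.2 ha⟩ with hcd
  have h1 : MeasurePreserving (rotation c) (volume : Measure ℂ) volume :=
    (rotation c).measurePreserving
  have h2 := h1.integral_comp (rotation c).toHomeomorph.measurableEmbedding g
  have h3 : ∀ z, rotation c z = a * z := fun z => rfl
  simp_rw [h3] at h2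
  exact h2

lemma conj_eq_inv {a : ℂ} (ha : ‖a‖ = 1) : starRingEnd ℂ a = a⁻¹ := by
  have h : a * starRingEnd ℂ a = 1 := by
    rw [Complex.mul_conj, Complex.normSq_eq_norm_sq, ha]; norm_num
  exact eq_inv_of_mul_eq_one_right h

lemma sm_rot {a : ℂ} (ha : ‖a‖ = 1) (x y : ℂ) : sm (a * x) (a * y) = sm x y := by
  have h1 : a.re ^ 2 + a.im ^ 2 = 1 := by
    have := Complex.sq_norm a
    rw [ha, Complex.normSq_apply] at this
    nlinarith
  unfold sm
  simp only [Complex.mul_re, Complex.mul_im]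
  linear_combination (x.re * y.re + x.im * y.im) * h1

lemma Ft_rot {k : ℤ} {f : 𝓢(ℂ, ℂ)} (hf : ∀ a z : ℂ, ‖a‖ = 1 → f (a * z) = a ^ k * f z)
    {a : ℂ} (ha : ‖a‖ = 1) (ξ : ℂ) : Ft f (a * ξ) = a ^ k * Ft f ξ := by
  unfold Ft
  rw [← rot_int a ha]
  rw [← integral_const_mul]
  refine integral_congr_ae (Eventually.of_forall fun x => ?_)
  simp only
  rw [sm_rot ha, hf a x ha]
  ring

lemma Tn_rot {k : ℤ} (n : ℕ) {f : 𝓢(ℂ, ℂ)} (hf : ∀ a z : ℂ, ‖a‖ = 1 → f (a * z) = a ^ k * f z)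
    (a z : ℂ) (ha : ‖a‖ = 1) : Tn n f (a * z) = a ^ (k - 2 * n) * Tn n f z := by
  have ha0 : a ≠ 0 := by rintro rfl; simp at ha
  have e0 : ∀ w, Tn n f w = ∫ ξ : ℂ, Complex.exp (2 * (Real.pi : ℂ) * Complex.I *
      ((sm w ξ : ℝ) : ℂ)) * hh n f ξ := fun w => rfl
  rw [e0, e0, ← rot_int a ha, ← integral_const_mul]
  refine integral_congr_ae (Eventually.of_forall fun ξ => ?_)
  simp only
  rw [sm_rot ha]
  have h1 : hh n f (a * ξ) = a ^ (k - 2 * n) * hh n f ξ := by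
    unfold hh bs
    rw [Ft_rot hf ha, map_mul, conj_eq_inv ha]
    have h2 : a⁻¹ * (starRingEnd ℂ) ξ / (a * ξ) = (a ^ 2)⁻¹ * ((starRingEnd ℂ) ξ / ξ) := by
      by_cases hξ : ξ = 0
      · subst hξ; simp
      · field_simp
    rw [h2, mul_pow, inv_pow, ← pow_mul, zpow_sub₀ ha0]
    have h3 : a ^ (2 * (n : ℤ)) = a ^ (2 * n) := by
      rw [← zpow_natCast]; push_cast; rfl
    rw [h3]
    field_simp
  rw [h1]
  ring

lemma int_neg (g : ℂ → ℂ) : ∫ z : ℂ, g (-z) = ∫ z : ℂ, g z := integral_neg_eq_self g volume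

/-- symmetry of the powers -/
lemma pair_aux (n : ℕ) (f g : 𝓢(ℂ, ℂ)) :
    ∫ z : ℂ, Tn n f z * g z = ∫ ξ : ℂ, hh n f ξ * Ft g (-ξ) := by
  have h1 : ∫ z : ℂ, Tn n f z * g z = ∫ z : ℂ, 𝓕 (hh n f) z * g (-z) := by
    rw [← int_neg fun z => 𝓕 (hh n f) z * g (-z)]
    refine integral_congr_ae (Eventually.of_forall fun z => ?_)
    simp only [neg_neg]
    rw [Tn_four]
  have hg : Integrable (fun z : ℂ => g (-z)) := g.integrable.comp_neg
  have h2 : ∫ z : ℂ, 𝓕 (hh n f) z * g (-z) = ∫ z : ℂ, hh n f z * 𝓕 (fun z : ℂ => g (-z)) z := by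
    simpa using! (VectorFourier.integral_fourierIntegral_smul_eq_flip (L := innerₗ ℂ)
        Real.continuous_fourierChar continuous_inner (hh_int n f) hg)
  rw [h1, h2]
  refine integral_congr_ae (Eventually.of_forall fun ξ => ?_)
  simp only
  congr 1
  rw [Real.fourier_eq', ← int_neg]
  unfold Ft
  refine integral_congr_ae (Eventually.of_forall fun x => ?_)
  simp only [neg_neg, smul_eq_mul]
  have : (inner ℝ (-x) ξ : ℝ) = sm x (-ξ) := by
    rw [inner_neg_left, Complex.inner]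
    simp [sm]
    ring
  rw [this]
  congr 2
  push_cast
  ring

lemma bs_neg (ξ : ℂ) : bs (-ξ) = bs ξ := by
  unfold bs
  rw [map_neg, neg_div_neg_eq]

lemma pair (n : ℕ) (f g : 𝓢(ℂ, ℂ)) :
    ∫ z : ℂ, Tn n f z * g z = ∫ z : ℂ, f z * Tn n g z := by
  have h1 : ∫ z : ℂ, f z * Tn n g z = ∫ z : ℂ, Tn n g z * f z :=
    integral_congr_ae (Eventually.of_forall fun z => mul_comm _ _)
  rw [h1, pair_aux, pair_aux, ← int_neg]
  refine integral_congr_ae (Eventually.of_forall fun ξ => ?_)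
  simp only [neg_neg]
  unfold hh
  rw [bs_neg]
  ring

end Pool.Agent.L5helper95.BA
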