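import Pool.Agent.L5helper95.BA.P4
import Pool.Agent.L5helper95.BA.D1

/-!
# Duality for the angular classes
-/

set_option autoImplicit false

namespace Pool.Agent.L5helper95.BA

open MeasureTheory Set Filter Topology
open scoped ENNReal SchwartzMap ContDiff
open Pool.Agent.Y282.RB (Tn)

/-- the (smoothed) norming function -/
noncomputable def Ps (p ε : ℝ) (Φ : ℂ → ℂ) (z : ℂ) : ℂ :=
  starRingEnd ℂ (Φ z) * (((Complex.normSq (Φ z) + ε) ^ ((p - 2) / 2) : ℝ) : ℂ)

lemma Ps_smooth (p : ℝ) {ε : ℝ} (hε : 0 < ε) {Φ : ℂ → ℂ} (hΦ : ContDiff ℝ ∞ Φ) :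
    ContDiff ℝ ∞ (Ps p ε Φ) := by
  unfold Ps
  have h1 : ContDiff ℝ ∞ (fun z => starRingEnd ℂ (Φ z)) := Complex.conjCLE.contDiff.comp hΦ
  have h2 : ContDiff ℝ ∞ (fun z => Complex.normSq (Φ z) + ε) :=
    (normSq_smooth.comp hΦ).add contDiff_const
  have h3 : ContDiff ℝ ∞ (fun z => (Complex.normSq (Φ z) + ε) ^ ((p - 2) / 2)) :=
    h2.rpow_const_of_ne fun z => by
      have := Complex.normSq_nonneg (Φ z)
      positivity
  exact h1.mul (Complex.ofRealCLM.contDiff.comp h3)

lemma Ps_rot {p ε : ℝ} {Φ : ℂ → ℂ} {K : ℕ} {l : ℤ} (hl : l = -(K : ℤ))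
    (h : ∀ a z : ℂ, ‖a‖ = 1 → Φ (a * z) = a ^ l * Φ z) (a z : ℂ) (ha : ‖a‖ = 1) :
    Ps p ε Φ (a * z) = a ^ K * Ps p ε Φ z := by
  have h1 : Complex.normSq (Φ (a * z)) = Complex.normSq (Φ z) := by
    rw [h a z ha, map_mul, Complex.normSq_eq_norm_sq, norm_zpow, ha]
    simp
  have h2 : starRingEnd ℂ (Φ (a * z)) = a ^ K * starRingEnd ℂ (Φ z) := by
    rw [h a z ha, map_mul, map_zpow₀, conj_eq_inv ha, hl, inv_zpow', neg_neg, zpow_natCast]
  unfold Ps
  rw [h1, h2]
  ring

theorem dual {K n : ℕ} {k : ℤ} (hk : k - 2 * n = -(K : ℤ)) {p C : ℝ} (hp : 2 < p) (hC : 0 ≤ C)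
    (hA : AnnBd K n (p / (p - 1)) C) (f : 𝓢(ℂ, ℂ))
    (hf : ∀ a z : ℂ, ‖a‖ = 1 → f (a * z) = a ^ k * f z) :
    eLpNorm (Tn n f) (ENNReal.ofReal p) (volume : Measure ℂ) ≤
      ENNReal.ofReal C * eLpNorm (⇑f) (ENNReal.ofReal p) (volume : Measure ℂ) := by
  have hp0 : 0 < p := by linarith
  have hp1 : 0 < p - 1 := by linarith
  set q : ℝ := p / (p - 1) with hq
  have hq0 : 0 < q := by positivity
  have hq1 : 1 ≤ q := by rw [hq, le_div_iff₀ hp1]; linarith
  have hconj : p.HolderConjugate q := Real.HolderConjugate.conjExponent (by linarith)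
  set Φ : ℂ → ℂ := Tn n f with hΦ
  have hΦs : ContDiff ℝ ∞ Φ := Tn_smooth n f
  have hΦc : Continuous Φ := hΦs.continuous
  have hΦr : ∀ a z : ℂ, ‖a‖ = 1 → Φ (a * z) = a ^ (k - 2 * n) * Φ z := fun a z ha =>
    Tn_rot n hf a z ha
  -- cut-off functions
  have hkk : ∀ j : ℕ, (0 : ℝ) < 1 / ((j : ℝ) + 2) ∧ 1 / ((j : ℝ) + 2) < 1 := by
    intro j
    have : (0 : ℝ) ≤ j := Nat.cast_nonneg j
    refine ⟨by positivity, ?_⟩
    rw [div_lt_one (by linarith)]
    linarith
  choose χ R hχ1 hχ2 hχ3 hχ4 hχ5 hχ6 using fun j : ℕ =>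
    Pool.Agent.Y282.RB.K.exists_cut (1 / ((j : ℝ) + 2)) (hkk j).1 (hkk j).2
  have hεk : ∀ j : ℕ, (0:ℝ) < 1 / ((j : ℝ) + 2) / 2 := fun j => by
    have := (hkk j).1
    positivity
  have h00 : ∀ j, χ j 0 = 0 := fun j => hχ5 j 0 (hεk j).le
  set N : ℂ → ℝ := fun z => Complex.normSq (Φ z) with hN
  have hN0 : ∀ z, 0 ≤ N z := fun z => Complex.normSq_nonneg _
  have hNc : Continuous N := Complex.continuous_normSq.comp hΦc
  set w : ℕ → ℂ → ℝ := fun j z => χ j (Complex.normSq z) with hw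
  have hwc : ∀ j, Continuous (w j) := fun j => (hχ1 j).continuous.comp Complex.continuous_normSq
  have hw0 : ∀ j z, 0 ≤ w j z := fun j z => (hχ3 j _).1
  have hw1 : ∀ j z, w j z ≤ 1 := fun j z => (hχ3 j _).2
  have hwcs : ∀ (j : ℕ) (g : ℂ → ℝ), Continuous g → Integrable (fun z => w j z * g z) := by
    intro j g hg
    refine ((hwc j).mul hg).integrable_of_hasCompactSupport ?_
    refine HasCompactSupport.intro (isCompact_closedBall (0 : ℂ) (|R j| + 1)) fun z hz => ?_
    rw [Metric.mem_closedBall, dist_zero_right, not_le] at hz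
    have h1 : R j ≤ Complex.normSq z := by
      rw [Complex.normSq_eq_norm_sq]
      nlinarith [le_abs_self (R j), abs_nonneg (R j)]
    show w j z * g z = 0
    rw [hw]
    simp only
    rw [hχ6 j _ h1, zero_mul]
  set F : ℝ≥0∞ := eLpNorm (⇑f) (ENNReal.ofReal p) (volume : Measure ℂ) with hF
  have hFt : F ≠ ⊤ := (f.memLp (ENNReal.ofReal p) volume).2.ne
  -- the main inequality
  have main : ∀ (j : ℕ) (ε : ℝ), 0 < ε → ∫⁻ z, ENNReal.ofReal (w j z * N z ^ (p / 2)) ≤
      F * (ENNReal.ofReal C * (∫⁻ z, ENNReal.ofReal (w j z * (N z + ε) ^ (p / 2))) ^ (1 / q)) := by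
    intro j ε hε
    have hgc : GC (tr K (χ j) (Ps p ε Φ)) :=
      tr_gc K (hχ1 j) (hεk j) (by positivity : (0:ℝ) < |R j| + 1) (hχ5 j)
        (fun x hx => hχ6 j x (by have := le_abs_self (R j); linarith)) (Ps_smooth p hε hΦs)
    obtain ⟨S, hS⟩ := hgc.sm
    set ψ : 𝓢(ℂ, ℂ) := rkS K hS with hψ
    have hap : ∀ z, ψ z = (w j z : ℂ) * Ps p ε Φ z := fun z =>
      rk_tr K (h00 j) (Ps_rot hk hΦr) z
    have hNe : ∀ z, 0 < N z + ε := fun z => by have := hN0 z; linarith
    have hcε : Continuous fun z => (N z + ε) ^ ((p - 2) / 2) :=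
      (hNc.add continuous_const).rpow_const fun z => Or.inl (hNe z).ne'
    -- first step
    have s1 : ∫⁻ z, ENNReal.ofReal (w j z * N z ^ (p / 2)) ≤
        ENNReal.ofReal (∫ z, w j z * (N z * (N z + ε) ^ ((p - 2) / 2))) := by
      have hg1 : Continuous (fun z => N z * (N z + ε) ^ ((p - 2) / 2)) := hNc.mul hcε
      rw [ofReal_integral_eq_lintegral_ofReal (hwcs j _ hg1)
        (Eventually.of_forall fun z => mul_nonneg (hw0 j z) (mul_nonneg (hN0 z)
          (Real.rpow_nonneg (hNe z).le _)))]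
      refine lintegral_mono fun z => ENNReal.ofReal_le_ofReal ?_
      refine mul_le_mul_of_nonneg_left ?_ (hw0 j z)
      rcases (hN0 z).eq_or_lt with h0 | h0
      · rw [← h0, Real.zero_rpow (by positivity), zero_mul]
      · have e : N z ^ (p / 2) = N z * N z ^ ((p - 2) / 2) := by
          rw [← Real.rpow_one_add' h0.le (by
            have : (1:ℝ) + (p - 2) / 2 = p / 2 := by ring
            rw [this]; positivity)]
          congr 1
          ring
        rw [e]
        apply mul_le_mul_of_nonneg_left _ h0.le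
        exact Real.rpow_le_rpow h0.le (by linarith) (by linarith)
    have s2 : ((∫ z, w j z * (N z * (N z + ε) ^ ((p - 2) / 2)) : ℝ) : ℂ) = ∫ z, Φ z * ψ z := by
      rw [← integral_complex_ofReal]
      refine integral_congr_ae (Eventually.of_forall fun z => ?_)
      simp only
      rw [hap z]
      unfold Ps
      have : (N z : ℂ) = Φ z * starRingEnd ℂ (Φ z) := (Complex.mul_conj _).symm
      push_cast
      rw [this]
      simp only [hN]
      ring
    have s3 : ENNReal.ofReal (∫ z, w j z * (N z * (N z + ε) ^ ((p - 2) / 2))) ≤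
        ∫⁻ z, ‖f z‖ₑ * ‖Tn n ψ z‖ₑ := by
      have h1 : 0 ≤ ∫ z, w j z * (N z * (N z + ε) ^ ((p - 2) / 2)) :=
        integral_nonneg fun z => mul_nonneg (hw0 j z) (mul_nonneg (hN0 z)
          (Real.rpow_nonneg (hNe z).le _))
      have h2 : ENNReal.ofReal (∫ z, w j z * (N z * (N z + ε) ^ ((p - 2) / 2))) =
          ‖∫ z, Φ z * ψ z‖ₑ := by
        rw [← s2, ← ofReal_norm, Complex.norm_real, Real.norm_of_nonneg h1]
      rw [h2, hΦ, pair]
      refine (enorm_integral_le_lintegral_enorm _).trans (le_of_eq ?_)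
      exact lintegral_congr fun z => enorm_mul _ _
    have s4 : ∫⁻ z, ‖f z‖ₑ * ‖Tn n ψ z‖ₑ ≤
        F * eLpNorm (Tn n ψ) (ENNReal.ofReal q) (volume : Measure ℂ) := by
      have h1 := ENNReal.lintegral_mul_le_Lp_mul_Lq (volume : Measure ℂ) hconj
        (f := fun z => ‖f z‖ₑ) (g := fun z => ‖Tn n ψ z‖ₑ) f.continuous.enorm.aemeasurable
        (Tn_smooth n ψ).continuous.enorm.aemeasurable
      rw [hF, eL hp0, eL hq0]
      exact h1
    have s5 := hA _ hgc S hS
    have s6 : eLpNorm (rkS K hS) (ENNReal.ofReal q) (volume : Measure ℂ) ≤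
        (∫⁻ z, ENNReal.ofReal (w j z * (N z + ε) ^ (p / 2))) ^ (1 / q) := by
      rw [eL hq0]
      refine ENNReal.rpow_le_rpow (lintegral_mono fun z => ?_) (by positivity)
      have e1 : ‖rkS K hS z‖ = w j z * (‖Φ z‖ * (N z + ε) ^ ((p - 2) / 2)) := by
        have := hap z
        rw [← hψ, this]
        unfold Ps
        rw [norm_mul, norm_mul, Complex.norm_real, Complex.norm_real, RCLike.norm_conj,
          Real.norm_of_nonneg (hw0 j z), Real.norm_of_nonneg (Real.rpow_nonneg (hNe z).le _)]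
      rw [← ofReal_norm, e1, ENNReal.ofReal_rpow_of_nonneg (mul_nonneg (hw0 j z)
        (mul_nonneg (norm_nonneg _) (Real.rpow_nonneg (hNe z).le _))) hq0.le]
      apply ENNReal.ofReal_le_ofReal
      have e2 : ‖Φ z‖ ≤ (N z + ε) ^ (1 / 2 : ℝ) := by
        rw [← Real.sqrt_eq_rpow]
        apply Real.le_sqrt_of_sq_le
        rw [← Complex.normSq_eq_norm_sq]
        have : N z = Complex.normSq (Φ z) := rfl
        linarith
      have e3 : ‖Φ z‖ * (N z + ε) ^ ((p - 2) / 2) ≤ (N z + ε) ^ ((p - 1) / 2) := by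
        have e4 : (N z + ε) ^ ((p - 1) / 2) = (N z + ε) ^ (1 / 2 : ℝ) * (N z + ε) ^ ((p - 2) / 2) := by
          rw [← Real.rpow_add (hNe z)]
          congr 1
          ring
        rw [e4]
        exact mul_le_mul_of_nonneg_right e2 (Real.rpow_nonneg (hNe z).le _)
      rw [Real.mul_rpow (hw0 j z) (mul_nonneg (norm_nonneg _) (Real.rpow_nonneg (hNe z).le _))]
      have e5 : (‖Φ z‖ * (N z + ε) ^ ((p - 2) / 2)) ^ q ≤ (N z + ε) ^ (p / 2) := by
        refine (Real.rpow_le_rpow (mul_nonneg (norm_nonneg _) (Real.rpow_nonneg (hNe z).le _)) e3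
          hq0.le).trans (le_of_eq ?_)
        rw [← Real.rpow_mul (hNe z).le]
        congr 1
        rw [hq]
        field_simp
      have e6 : w j z ^ q ≤ w j z := by
        have := Real.rpow_le_rpow_of_exponent_ge' (hw0 j z) (hw1 j z) zero_le_one hq1
        rwa [Real.rpow_one] at this
      exact mul_le_mul e6 e5 (Real.rpow_nonneg (mul_nonneg (norm_nonneg _)
        (Real.rpow_nonneg (hNe z).le _)) _) (hw0 j z)
    calc _ ≤ _ := s1
      _ ≤ _ := s3
      _ ≤ _ := s4
      _ ≤ F * (ENNReal.ofReal C * eLpNorm (rkS K hS) (ENNReal.ofReal q) (volume : Measure ℂ)) := by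
          gcongr
      _ ≤ _ := by gcongr
  -- the limit `ε → 0`
  set A : ℕ → ℝ≥0∞ := fun j => ∫⁻ z, ENNReal.ofReal (w j z * N z ^ (p / 2)) with hAd
  have hAt : ∀ j, A j ≠ ⊤ := by
    intro j
    have hc : Continuous fun z => N z ^ (p / 2) :=
      hNc.rpow_const fun z => Or.inr (by positivity)
    have h1 := ofReal_integral_eq_lintegral_ofReal (hwcs j _ hc)
      (Eventually.of_forall fun z => mul_nonneg (hw0 j z) (Real.rpow_nonneg (hN0 z) _))
    rw [hAd]
    simp only
    rw [← h1]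
    exact ENNReal.ofReal_ne_top
  have lim1 : ∀ j, Tendsto (fun i : ℕ => ∫⁻ z, ENNReal.ofReal (w j z * (N z + 1 / ((i : ℝ) + 1)) ^ (p / 2)))
      atTop (𝓝 (A j)) := by
    intro j
    have hcc : ∀ c : ℝ, 0 ≤ c → Continuous fun z => (N z + c) ^ (p / 2) := fun c _ =>
      (hNc.add continuous_const).rpow_const fun z => Or.inr (by positivity)
    refine tendsto_lintegral_of_dominated_convergence
      (fun z => ENNReal.ofReal (w j z * (N z + 1) ^ (p / 2))) (fun i => ?_)
      (fun i => Eventually.of_forall fun z => ?_) ?_ (Eventually.of_forall fun z => ?_)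
    · exact (((hwc j).mul (hcc _ (by positivity))).measurable).ennreal_ofReal
    · apply ENNReal.ofReal_le_ofReal
      apply mul_le_mul_of_nonneg_left _ (hw0 j z)
      have h1 : 1 / ((i : ℝ) + 1) ≤ 1 := by
        rw [div_le_one (by positivity)]
        have : (0:ℝ) ≤ i := Nat.cast_nonneg i
        linarith
      have h2 : 0 ≤ N z := hN0 z
      apply Real.rpow_le_rpow (by positivity) (by linarith) (by positivity)
    · rw [← ofReal_integral_eq_lintegral_ofReal (hwcs j _ (hcc 1 zero_le_one))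
        (Eventually.of_forall fun z => mul_nonneg (hw0 j z) (Real.rpow_nonneg (by
          have := hN0 z; linarith) _))]
      exact ENNReal.ofReal_ne_top
    · refine (ENNReal.continuous_ofReal.tendsto _).comp ?_
      refine Tendsto.const_mul _ ?_
      have h1 : Tendsto (fun i : ℕ => N z + 1 / ((i : ℝ) + 1)) atTop (𝓝 (N z + 0)) :=
        tendsto_const_nhds.add tendsto_one_div_add_atTop_nhds_zero_nat
      rw [add_zero] at h1
      exact h1.rpow_const (Or.inr (by positivity))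
  have lim2 : ∀ j, A j ≤ F * (ENNReal.ofReal C * A j ^ (1 / q)) := by
    intro j
    have h1 : Tendsto (fun i : ℕ => F * (ENNReal.ofReal C *
        (∫⁻ z, ENNReal.ofReal (w j z * (N z + 1 / ((i : ℝ) + 1)) ^ (p / 2))) ^ (1 / q)))
        atTop (𝓝 (F * (ENNReal.ofReal C * A j ^ (1 / q)))) := by
      refine ENNReal.Tendsto.const_mul (ENNReal.Tendsto.const_mul ?_ (Or.inr ENNReal.ofReal_ne_top))
        (Or.inr hFt)
      exact ((ENNReal.continuous_rpow_const (y := 1 / q)).tendsto _).comp (lim1 j)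
    exact ge_of_tendsto' h1 fun i => main j _ (by positivity)
  have lim3 : ∀ j, A j ≤ (ENNReal.ofReal C * F) ^ p := by
    intro j
    rcases eq_or_ne (A j) 0 with h0 | h0
    · rw [h0]; exact bot_le
    have h1 := lim2 j
    have e1 : A j = A j ^ (1 / p) * A j ^ (1 / q) := by
      rw [← ENNReal.rpow_add _ _ h0 (hAt j)]
      have : 1 / p + 1 / q = 1 := by rw [hq]; field_simp; ring
      rw [this, ENNReal.rpow_one]
    have h2 : A j ^ (1 / p) * A j ^ (1 / q) ≤ (ENNReal.ofReal C * F) * A j ^ (1 / q) := by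
      rw [← e1]
      refine h1.trans (le_of_eq ?_)
      ring
    have h3 : A j ^ (1 / q) ≠ 0 := by
      rw [ne_eq, ENNReal.rpow_eq_zero_iff]
      push Not
      exact ⟨fun h => absurd h h0, fun h => absurd h (hAt j)⟩
    have h4 : A j ^ (1 / q) ≠ ⊤ := ENNReal.rpow_ne_top_of_nonneg (by positivity) (hAt j)
    have h5 : A j ^ (1 / p) ≤ ENNReal.ofReal C * F := (ENNReal.mul_le_mul_iff_left h3 h4).1 h2
    have h6 := ENNReal.rpow_le_rpow h5 hp0.le
    rwa [← ENNReal.rpow_mul, one_div_mul_cancel hp0.ne', ENNReal.rpow_one] at h6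
  -- Fatou
  have fin : ∫⁻ z, ‖Φ z‖ₑ ^ p ≤ (ENNReal.ofReal C * F) ^ p := by
    have h1 : ∫⁻ z, ‖Φ z‖ₑ ^ p ≤ ∫⁻ z, liminf (fun j => ENNReal.ofReal (w j z * N z ^ (p / 2))) atTop := by
      refine lintegral_mono_ae ?_
      filter_upwards [ae_ne'] with z hz
      have hz0 : 0 < Complex.normSq z := Complex.normSq_pos.2 hz
      have h2 : ‖Φ z‖ₑ ^ p = ENNReal.ofReal (N z ^ (p / 2)) := by
        rw [← ofReal_norm, ENNReal.ofReal_rpow_of_nonneg (norm_nonneg _) hp0.le]
        congr 1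
        have : N z = ‖Φ z‖ ^ (2:ℝ) := by
          rw [Real.rpow_two]; exact Complex.normSq_eq_norm_sq _
        rw [this, ← Real.rpow_mul (norm_nonneg _)]
        congr 1
        ring
      have h3 : Tendsto (fun j => ENNReal.ofReal (w j z * N z ^ (p / 2))) atTop
          (𝓝 (ENNReal.ofReal (N z ^ (p / 2)))) := by
        refine tendsto_const_nhds.congr' ?_
        obtain ⟨M, hM⟩ := exists_nat_gt (max (Complex.normSq z) (1 / Complex.normSq z))
        filter_upwards [eventually_ge_atTop M] with j hj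
        have hj' : (M : ℝ) ≤ j := by exact_mod_cast hj
        have h6 : Complex.normSq z < M := lt_of_le_of_lt (le_max_left _ _) hM
        have h7 : 1 / Complex.normSq z < M := lt_of_le_of_lt (le_max_right _ _) hM
        have h8 : w j z = 1 := by
          refine hχ4 j _ ?_ ?_
          · rw [div_le_iff₀ (by positivity)]
            rw [div_lt_iff₀ hz0] at h7
            nlinarith
          · rw [one_div_one_div]; linarith
        rw [h8, one_mul]
      rw [h3.liminf_eq, h2]
    refine h1.trans ((lintegral_liminf_le fun j => ?_).trans ?_)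
    · have hc : Continuous fun z => N z ^ (p / 2) :=
        hNc.rpow_const fun z => Or.inr (by positivity)
      exact (((hwc j).mul hc).measurable).ennreal_ofReal
    · have h4 : liminf (fun j => ∫⁻ z, ENNReal.ofReal (w j z * N z ^ (p / 2))) atTop ≤
          liminf (fun _ : ℕ => (ENNReal.ofReal C * F) ^ p) atTop :=
        liminf_le_liminf (Eventually.of_forall lim3)
      rwa [liminf_const] at h4
  rw [eL hp0]
  refine (ENNReal.rpow_le_rpow fin (by positivity)).trans (le_of_eq ?_)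
  rw [← ENNReal.rpow_mul, mul_one_div_cancel hp0.ne', ENNReal.rpow_one]

end Pool.Agent.L5helper95.BA
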