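import Pool.Agent.L5helper95.BA.K5
import Pool.Agent.R227.IT6

/-!
# Interpolation on the half-line for the operators `BB`

Adapted from the files `Pool.Agent.R227.IT*` (Riesz-Thorin for finite matrices, discretisation).
-/

set_option autoImplicit false

namespace Pool.Agent.L5helper95.BA

open Finset MeasureTheory Filter Topology
open scoped ENNReal
open Pool.Agent.R227.IT (bp bp_left bp_right bp_smooth comb_int approx ioi_eq cintg rpow_le_add
  two_split lim0 disc2)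

/-- smooth functions with compact support in the open half-line -/
def GC (g : ℝ → ℂ) : Prop := ContDiff ℝ (⊤ : ℕ∞) g ∧ (∃ ε : ℝ, 0 < ε ∧ ∀ x, x ≤ ε → g x = 0) ∧
  ∃ R : ℝ, 0 < R ∧ ∀ x, R ≤ x → g x = 0

lemma GC.cont {g : ℝ → ℂ} (h : GC g) : Continuous g := h.1.continuous

lemma GC.int_at {k : ℝ → ℝ} (hk : Continuous k) {g : ℝ → ℂ} (h : GC g) {x : ℝ} (hx : 0 < x) :
    Integrable (fun s => (k s : ℂ) * g (x * Real.exp s)) (volume.restrict (Set.Ioi 0)) := by
  obtain ⟨hs, _, R, hR, h0⟩ := h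
  have hc : Continuous g := hs.continuous
  refine intOn_of_zero (T := Real.log (R / x)) (by fun_prop) (fun y hy => ?_) 0
  have h1 : R / x ≤ Real.exp y := by
    rw [← Real.exp_log (by positivity : 0 < R / x)]
    exact Real.exp_le_exp.2 hy
  rw [h0 _ ?_, mul_zero]
  rw [div_le_iff₀ hx] at h1
  linarith

lemma GC.sum {K : ℕ} (a : ℕ → ℂ) {G : ℕ → ℝ → ℂ} (h : ∀ i, GC (G i)) :
    GC (fun x => ∑ i ∈ range K, a i * G i x) := by
  choose ε hε1 hε2 using fun i => (h i).2.1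
  choose R hR1 hR2 using fun i => (h i).2.2
  refine ⟨ContDiff.sum fun i _ => contDiff_const.mul (h i).1, ?_, ?_⟩
  · have key : ∀ K : ℕ, ∃ δ : ℝ, 0 < δ ∧ ∀ i ∈ range K, δ ≤ ε i := by
      intro K
      induction K with
      | zero => exact ⟨1, one_pos, fun i hi => by simp at hi⟩
      | succ K ih =>
        obtain ⟨δ, h1, h2⟩ := ih
        refine ⟨min δ (ε K), lt_min h1 (hε1 K), fun i hi => ?_⟩
        rcases Nat.lt_succ_iff_lt_or_eq.1 (mem_range.1 hi) with h3 | h3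
        · exact (min_le_left _ _).trans (h2 i (mem_range.2 h3))
        · rw [h3]; exact min_le_right _ _
    obtain ⟨δ, h1, h2⟩ := key K
    exact ⟨δ, h1, fun x hx => sum_eq_zero fun i hi => by
      rw [hε2 i x (hx.trans (h2 i hi)), mul_zero]⟩
  · refine ⟨∑ i ∈ range K, R i + 1, by
      have : 0 ≤ ∑ i ∈ range K, R i := sum_nonneg fun i _ => (hR1 i).le
      linarith, fun x hx => sum_eq_zero fun i hi => ?_⟩
    have h4 : R i ≤ ∑ i ∈ range K, R i := single_le_sum (f := R) (fun i _ => (hR1 i).le) hi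
    rw [hR2 i x (by linarith), mul_zero]

lemma GC.sub {f g : ℝ → ℂ} (hf : GC f) (hg : GC g) : GC (fun x => f x - g x) := by
  obtain ⟨f1, ⟨ε, e1, e2⟩, R, r1, r2⟩ := hf
  obtain ⟨g1, ⟨δ, d1, d2⟩, S, s1, s2⟩ := hg
  refine ⟨f1.sub g1, ⟨min ε δ, lt_min e1 d1, fun x hx => ?_⟩, R + S, by positivity, fun x hx => ?_⟩
  · simp only
    rw [e2 x (hx.trans (min_le_left _ _)), d2 x (hx.trans (min_le_right _ _)), sub_zero]
  · simp only
    rw [r2 x (by linarith), s2 x (by linarith), sub_zero]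

lemma GC_bp {δ : ℝ} (hδ : 0 < δ) (i : ℕ) : GC (fun x => (bp δ i x : ℂ)) := by
  refine ⟨Complex.ofRealCLM.contDiff.comp (bp_smooth δ i), ⟨(i + 1) * δ, by positivity, fun x hx => ?_⟩,
    (i + 3) * δ, by positivity, fun x hx => ?_⟩
  · simp only
    rw [bp_left hδ hx]; simp
  · simp only
    rw [bp_right hδ hx]; simp

lemma BB_sum {k : ℝ → ℝ} (hk : Continuous k) {K : ℕ} (a : ℕ → ℂ) {G : ℕ → ℝ → ℂ} (h : ∀ i, GC (G i))
    {x : ℝ} (hx : 0 < x) :
    BB k (fun x => ∑ i ∈ range K, a i * G i x) x = ∑ i ∈ range K, a i * BB k (G i) x := by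
  unfold BB
  have e1 : ∫ s in Set.Ioi (0:ℝ), (k s : ℂ) * ∑ i ∈ range K, a i * G i (x * Real.exp s) =
      ∑ i ∈ range K, a i * ∫ s in Set.Ioi (0:ℝ), (k s : ℂ) * G i (x * Real.exp s) := by
    have h1 : ∀ s, (k s : ℂ) * ∑ i ∈ range K, a i * G i (x * Real.exp s) =
        ∑ i ∈ range K, a i * ((k s : ℂ) * G i (x * Real.exp s)) := by
      intro s
      rw [mul_sum]
      exact sum_congr rfl fun i _ => by ring
    simp_rw [h1]
    rw [integral_finsetSum _ fun i _ => ((h i).int_at hk hx).const_mul _]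
    exact sum_congr rfl fun i _ => integral_const_mul _ _
  rw [e1, ← sum_sub_distrib]
  exact sum_congr rfl fun i _ => by ring

lemma BB_sub {k : ℝ → ℝ} (hk : Continuous k) {f g : ℝ → ℂ} (hf : GC f) (hg : GC g)
    {x : ℝ} (hx : 0 < x) : BB k (fun x => f x - g x) x = BB k f x - BB k g x := by
  unfold BB
  have e1 : ∫ s in Set.Ioi (0:ℝ), (k s : ℂ) * (f (x * Real.exp s) - g (x * Real.exp s)) =
      (∫ s in Set.Ioi (0:ℝ), (k s : ℂ) * f (x * Real.exp s)) -
        ∫ s in Set.Ioi (0:ℝ), (k s : ℂ) * g (x * Real.exp s) := by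
    rw [← integral_sub (hf.int_at hk hx) (hg.int_at hk hx)]
    refine integral_congr_ae (Eventually.of_forall fun s => ?_)
    simp only
    ring
  rw [e1]
  ring

lemma BB_zero {k : ℝ → ℝ} {g : ℝ → ℂ} {R : ℝ} (hR : 0 < R) (h0 : ∀ x, R ≤ x → g x = 0) {x : ℝ}
    (hx : R ≤ x) : BB k g x = 0 := by
  unfold BB
  have e : ∫ s in Set.Ioi (0:ℝ), (k s : ℂ) * g (x * Real.exp s) = ∫ s in Set.Ioi (0:ℝ), (0:ℂ) := by
    refine setIntegral_congr_fun measurableSet_Ioi fun s hs => ?_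
    rw [h0 _ ?_, mul_zero]
    have h1 : 1 ≤ Real.exp s := Real.one_le_exp (le_of_lt hs)
    nlinarith
  rw [e, h0 x hx]
  simp

/-- the truncated and shifted operator, a continuous function on the line -/
noncomputable def BU (k : ℝ → ℝ) (ε : ℝ) (g : ℝ → ℂ) (x : ℝ) : ℂ := BB k g (max x 0 + ε)

lemma BU_cont {k : ℝ → ℝ} (hk : Continuous k) {g : ℝ → ℂ} (hg : GC g) {ε : ℝ} (hε : 0 < ε) :
    Continuous (BU k ε g) := by
  obtain ⟨hs, ⟨e, e1, e2⟩, R, hR, h0⟩ := hg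
  have hc : Continuous g := hs.continuous
  obtain ⟨C, hC⟩ : ∃ C, ∀ x, ‖g x‖ ≤ C := by
    obtain ⟨C, hC⟩ := (isCompact_Icc (a := (0:ℝ)) (b := R)).exists_bound_of_continuousOn hc.continuousOn
    refine ⟨max C 0, fun x => ?_⟩
    rcases le_or_gt x 0 with h | h
    · rw [e2 x (h.trans e1.le), norm_zero]; exact le_max_right _ _
    rcases le_or_gt x R with h' | h'
    · exact (hC x ⟨h.le, h'⟩).trans (le_max_left _ _)
    · rw [h0 x h'.le, norm_zero]; exact le_max_right _ _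
  have hC0 : 0 ≤ C := (norm_nonneg _).trans (hC 0)
  unfold BU BB
  refine Continuous.sub (by fun_prop) ?_
  set T : ℝ := Real.log (R / ε) with hT
  refine continuous_of_dominated (F := fun (x s : ℝ) => (k s : ℂ) * g ((max x 0 + ε) * Real.exp s))
    (bound := (Set.Iic T).indicator fun s => |k s| * C) ?_ ?_ ?_ ?_
  · intro x
    have : Continuous (fun s : ℝ => (k s : ℂ) * g ((max x 0 + ε) * Real.exp s)) := by fun_prop
    exact this.aestronglyMeasurable
  · intro x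
    refine Eventually.of_forall fun s => ?_
    by_cases h : s ≤ T
    · rw [Set.indicator_of_mem (show s ∈ Set.Iic T from h), norm_mul, Complex.norm_real, Real.norm_eq_abs]
      exact mul_le_mul_of_nonneg_left (hC _) (abs_nonneg _)
    · rw [Set.indicator_of_notMem (show s ∉ Set.Iic T from h), h0 _ ?_]
      · simp
      · push Not at h
        have h1 : R / ε ≤ Real.exp s := by
          rw [← Real.exp_log (by positivity : 0 < R / ε)]
          exact Real.exp_le_exp.2 h.le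
        rw [div_le_iff₀ hε] at h1
        have h2 : 0 ≤ max x 0 := le_max_right _ _
        nlinarith [Real.exp_pos s]
  · rw [integrable_indicator_iff measurableSet_Iic]
    have h1 : IntegrableOn (fun s => |k s| * C) (Set.Icc 0 T) :=
      (hk.abs.mul continuous_const).continuousOn.integrableOn_Icc
    rw [IntegrableOn, Measure.restrict_restrict measurableSet_Iic]
    refine h1.mono_set fun s hs => ⟨le_of_lt hs.2, hs.1⟩
  · refine Eventually.of_forall fun s => ?_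
    fun_prop

lemma lint_conv {U : ℝ → ℂ} (hU : Continuous U) {r : ℝ} (hr : 0 < r) {T : ℝ} (hT : 0 ≤ T) :
    ENNReal.ofReal (∫ x in (0:ℝ)..T, ‖U x‖ ^ r) = ∫⁻ x in Set.Ioc 0 T, ‖U x‖ₑ ^ r := by
  have hc : Continuous fun x => ‖U x‖ ^ r := hU.norm.rpow_const (fun x => Or.inr hr.le)
  rw [intervalIntegral.integral_of_le hT, ofReal_integral_eq_lintegral_ofReal]
  · refine lintegral_congr fun x => ?_
    rw [← ENNReal.ofReal_rpow_of_nonneg (norm_nonneg _) hr.le, ofReal_norm]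
  · exact (hc.integrableOn_Icc).mono_set Set.Ioc_subset_Icc_self
  · exact Eventually.of_forall fun x => by positivity

lemma lint_conv2 {g : ℝ → ℂ} (hg : Continuous g) {R : ℝ} (h0 : ∀ x, R ≤ x → g x = 0) {r : ℝ}
    (hr : 0 < r) : ∫⁻ x in Set.Ioi 0, ‖g x‖ₑ ^ r = ENNReal.ofReal (∫ x in Set.Ioi 0, ‖g x‖ ^ r) := by
  rw [ofReal_integral_eq_lintegral_ofReal]
  · refine lintegral_congr fun x => ?_
    rw [← ENNReal.ofReal_rpow_of_nonneg (norm_nonneg _) hr.le, ofReal_norm]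
  · exact cintg hg R h0 hr
  · exact Eventually.of_forall fun x => by positivity

lemma shift_lint (f : ℝ → ℝ≥0∞) (ε : ℝ) :
    ∫⁻ x in Set.Ioi 0, f (x + ε) = ∫⁻ x in Set.Ioi ε, f x := by
  rw [← lintegral_indicator measurableSet_Ioi, ← lintegral_indicator measurableSet_Ioi,
    ← lintegral_add_right_eq_self (fun x => (Set.Ioi ε).indicator f x) ε]
  refine lintegral_congr fun x => ?_
  by_cases h : 0 < x
  · rw [Set.indicator_of_mem (show x ∈ Set.Ioi 0 from h),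
      Set.indicator_of_mem (show x + ε ∈ Set.Ioi ε by simpa using h)]
  · rw [Set.indicator_of_notMem (show x ∉ Set.Ioi 0 from h),
      Set.indicator_of_notMem (show x + ε ∉ Set.Ioi ε by simpa using h)]

/-- the bounds at the end points -/
def Bd (k : ℝ → ℝ) (r C : ℝ) : Prop := ∀ g : ℝ → ℂ, GC g →
  ∫⁻ x in Set.Ioi 0, ‖BB k g x‖ₑ ^ r ≤ ENNReal.ofReal (C ^ r) * ∫⁻ x in Set.Ioi 0, ‖g x‖ₑ ^ r

lemma Bd.real {k : ℝ → ℝ} (hk : Continuous k) {r C : ℝ} (hr : 0 < r) (hC : 0 ≤ C) (h : Bd k r C)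
    {g : ℝ → ℂ} (hg : GC g) {ε T : ℝ} (hε : 0 < ε) (hT : 0 ≤ T) :
    ∫ x in (0:ℝ)..T, ‖BU k ε g x‖ ^ r ≤ C ^ r * ∫ x in Set.Ioi 0, ‖g x‖ ^ r := by
  have h1 := h g hg
  obtain ⟨R, hR, h0⟩ := hg.2.2
  rw [lint_conv2 hg.cont h0 hr, ← ENNReal.ofReal_mul (by positivity)] at h1
  have hG : 0 ≤ C ^ r * ∫ x in Set.Ioi 0, ‖g x‖ ^ r :=
    mul_nonneg (by positivity) (integral_nonneg fun x => by positivity)
  rw [← ENNReal.ofReal_le_ofReal_iff hG, lint_conv (BU_cont hk hg hε) hr hT]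
  refine le_trans ?_ h1
  calc ∫⁻ x in Set.Ioc 0 T, ‖BU k ε g x‖ₑ ^ r
      = ∫⁻ x in Set.Ioc 0 T, ‖BB k g (x + ε)‖ₑ ^ r := by
        refine setLIntegral_congr_fun measurableSet_Ioc fun x hx => ?_
        unfold BU
        rw [max_eq_left hx.1.le]
    _ ≤ ∫⁻ x in Set.Ioi 0, ‖BB k g (x + ε)‖ₑ ^ r :=
        lintegral_mono_set fun x hx => hx.1
    _ = ∫⁻ x in Set.Ioi ε, ‖BB k g x‖ₑ ^ r := shift_lint (fun x => ‖BB k g x‖ₑ ^ r) ε
    _ ≤ _ := lintegral_mono_set fun x hx => lt_trans hε hx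

lemma Bd.of_real {k : ℝ → ℝ} (hk : Continuous k) {r X : ℝ} (hr : 0 < r)
    {g : ℝ → ℂ} (hg : GC g) (h : ∀ ε : ℝ, 0 < ε → ∀ T : ℝ, 0 ≤ T → ∫ x in (0:ℝ)..T, ‖BU k ε g x‖ ^ r ≤ X) :
    ∫⁻ x in Set.Ioi 0, ‖BB k g x‖ₑ ^ r ≤ ENNReal.ofReal X := by
  obtain ⟨R, hR, h0⟩ := hg.2.2
  have h1 : ∀ ε : ℝ, 0 < ε → ∫⁻ x in Set.Ioi ε, ‖BB k g x‖ₑ ^ r ≤ ENNReal.ofReal X := by
    intro ε hε
    rw [← shift_lint (fun x => ‖BB k g x‖ₑ ^ r) ε]
    refine le_trans (le_of_eq ?_) (ENNReal.ofReal_le_ofReal (h ε hε R hR.le))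
    rw [lint_conv (BU_cont hk hg hε) hr hR.le]
    have e1 : ∫⁻ x in Set.Ioc 0 R, ‖BU k ε g x‖ₑ ^ r = ∫⁻ x in Set.Ioc 0 R, ‖BB k g (x + ε)‖ₑ ^ r := by
      refine setLIntegral_congr_fun measurableSet_Ioc fun x hx => ?_
      unfold BU
      rw [max_eq_left hx.1.le]
    rw [e1]
    have e2 : Set.Ioi (0:ℝ) = Set.Ioc 0 R ∪ Set.Ioi R := (Set.Ioc_union_Ioi_eq_Ioi hR.le).symm
    rw [e2, lintegral_union measurableSet_Ioi (Set.Ioc_disjoint_Ioi le_rfl)]
    have e3 : ∫⁻ x in Set.Ioi R, ‖BB k g (x + ε)‖ₑ ^ r = 0 := by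
      rw [setLIntegral_congr_fun (g := fun _ => 0) measurableSet_Ioi fun x hx => ?_]
      · simp
      · simp only
        rw [BB_zero hR h0 (by have : R < x := hx; linarith), enorm_zero, ENNReal.zero_rpow_of_pos hr]
    rw [e3, add_zero]
  set ν : Measure ℝ := volume.withDensity fun x => ‖BB k g x‖ₑ ^ r with hν
  have h2 : ∀ s : Set ℝ, MeasurableSet s → ν s = ∫⁻ x in s, ‖BB k g x‖ₑ ^ r := fun s hs =>
    withDensity_apply _ hs
  have h3 : Set.Ioi (0:ℝ) = ⋃ n : ℕ, Set.Ioi (1 / ((n : ℝ) + 1)) := by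
    ext x
    simp only [Set.mem_Ioi, Set.mem_iUnion]
    constructor
    · intro hx
      obtain ⟨n, hn⟩ := exists_nat_one_div_lt hx
      exact ⟨n, hn⟩
    · rintro ⟨n, hn⟩
      exact lt_trans (by positivity) hn
  rw [← h2 _ measurableSet_Ioi, h3]
  have hmono : Monotone fun n : ℕ => Set.Ioi (1 / ((n : ℝ) + 1)) := by
    intro m n hmn
    apply Set.Ioi_subset_Ioi
    apply one_div_le_one_div_of_le (by positivity)
    have : (m : ℝ) ≤ n := by exact_mod_cast hmn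
    linarith
  rw [hmono.measure_iUnion]
  refine iSup_le fun n => ?_
  rw [h2 _ measurableSet_Ioi]
  exact h1 _ (by positivity)

theorem interpB {k : ℝ → ℝ} (hk : Continuous k) {p₀ p p₁ C₀ C₁ : ℝ} (hp0 : 1 < p₀) (h01 : p₀ < p)
    (h12 : p < p₁) (hC0 : 0 ≤ C₀) (hC1 : 0 ≤ C₁) (O0 : Bd k p₀ C₀) (O1 : Bd k p₁ C₁)
    {s : ℝ} (hs : s = (1 / p - 1 / p₁) / (1 / p₀ - 1 / p₁)) : Bd k p (C₁ ^ (1 - s) * C₀ ^ s) := by
  intro g hg
  have hg' := hg
  obtain ⟨hgs, ⟨e0, he0, hg0⟩, R, hRpos, hgv⟩ := hg'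
  have hp' : 0 < p := by linarith
  have hp1' : 1 < p₁ := by linarith
  rw [lint_conv2 hg.cont hgv hp', ← ENNReal.ofReal_mul (by positivity)]
  refine Bd.of_real hk hp' hg fun ε hε T hT0 => ?_
  rcases hT0.eq_or_lt with rfl | hT
  · rw [intervalIntegral.integral_same]
    exact mul_nonneg (by positivity) (integral_nonneg fun x => by positivity)
  set Cp : ℝ := C₁ ^ (1 - s) * C₀ ^ s with hCp
  have hCp0 : 0 ≤ Cp := by positivity
  set G : ℝ := ∫ x in Set.Ioi 0, ‖g x‖ ^ p with hG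
  set X : ℝ := ∫ x in (0:ℝ)..T, ‖BU k ε g x‖ ^ p with hX
  have main : ∀ τ, 0 < τ → ∀ ω, 0 < ω → ω < 1 → X ≤ (1 + τ) ^ (p - 1) * (Cp ^ p * (G + (R + 1) * ω))
      + ((1 + τ) / τ) ^ (p - 1) * (C₀ ^ p₀ * (ω ^ p₀ * (R + 1)) + C₁ ^ p₁ * (ω ^ p₁ * (R + 1))) := by
    intro τ hτ ω hω _
    obtain ⟨δ, K, a, hδ, A1, A2, A3⟩ := approx hg.cont (hg0 0 he0.le) hRpos hgv hp' hω
    have hbp : ∀ i, GC (fun x => (bp δ i x : ℂ)) := fun i => GC_bp hδ i
    have hga : GC (fun x => ∑ i ∈ range K, a i * (bp δ i x : ℂ)) := GC.sum a hbp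
    set ga : ℝ → ℂ := fun x => ∑ i ∈ range K, a i * (bp δ i x : ℂ) with hgad
    have he : GC (fun x => g x - ga x) := hg.sub hga
    set e : ℝ → ℂ := fun x => g x - ga x with hed
    have hm : ∀ x : ℝ, 0 < max x 0 + ε := fun x => by
      have := le_max_right x 0
      linarith
    have hu : ∀ i, Continuous (BU k ε (fun x => (bp δ i x : ℂ))) := fun i => BU_cont hk (hbp i) hε
    have hcomb : ∀ (a : ℕ → ℂ) (x : ℝ), ∑ i ∈ range K, a i * BU k ε (fun x => (bp δ i x : ℂ)) x =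
        BU k ε (fun x => ∑ i ∈ range K, a i * (bp δ i x : ℂ)) x := by
      intro a x
      unfold BU
      rw [BB_sum hk a hbp (hm x)]
    have hend : ∀ r C : ℝ, 1 < r → 0 ≤ C → Bd k r C → ∀ a : ℕ → ℂ,
        ∫ x in (0:ℝ)..T, ‖∑ i ∈ range K, a i * BU k ε (fun x => (bp δ i x : ℂ)) x‖ ^ r ≤
          C ^ r * (δ * ∑ i ∈ range K, ‖a i‖ ^ r) := by
      intro r C hr hC hB a
      simp_rw [hcomb]
      refine (hB.real hk (by linarith) hC (GC.sum a hbp) hε hT.le).trans ?_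
      exact mul_le_mul_of_nonneg_left (comb_int hδ K a hr.le) (by positivity)
    have D := disc2 hp0 h01 h12 hC0 hC1 hδ.le hT hu (fun a => hend p₀ C₀ hp0 hC0 O0 a)
      (fun a => hend p₁ C₁ hp1' hC1 O1 a) hs a
    simp_rw [hcomb] at D
    have hA : ∫ x in (0:ℝ)..T, ‖BU k ε ga x‖ ^ p ≤ Cp ^ p * (G + (R + 1) * ω) :=
      D.trans (mul_le_mul_of_nonneg_left A3 (by positivity))
    have hE : ∀ r C : ℝ, 1 < r → 0 ≤ C → Bd k r C →
        ∫ x in (0:ℝ)..T, ‖BU k ε e x‖ ^ r ≤ C ^ r * (ω ^ r * (R + 1)) := by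
      intro r C hr hC hB
      refine (hB.real hk (by linarith) hC he hε hT.le).trans
        (mul_le_mul_of_nonneg_left ?_ (by positivity))
      rw [ioi_eq (by linarith : 0 < R + 1)]
      · have h2 : ∫ x in (0:ℝ)..(R + 1), ‖e x‖ ^ r ≤ ∫ x in (0:ℝ)..(R + 1), ω ^ r := by
          apply intervalIntegral.integral_mono_on_of_le_Ioo (by linarith)
          · exact (he.cont.norm.rpow_const (fun x => Or.inr (by linarith))).intervalIntegrable _ _
          · exact continuous_const.intervalIntegrable _ _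
          · intro x hx
            exact Real.rpow_le_rpow (norm_nonneg _) (A1 x hx.1) (by linarith)
        rw [intervalIntegral.integral_const, smul_eq_mul, sub_zero] at h2
        linarith
      · intro x hx
        have : e x = 0 := A2 x hx
        rw [this, norm_zero, Real.zero_rpow (by linarith)]
    have hE0 := hE p₀ C₀ hp0 hC0 O0
    have hE1 := hE p₁ C₁ hp1' hC1 O1
    have cg := BU_cont hk hg hε
    have ca := BU_cont hk hga hε
    have ce := BU_cont hk he hε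
    have ci : ∀ (U : ℝ → ℂ), Continuous U → ∀ r : ℝ, 0 < r →
        IntervalIntegrable (fun x => ‖U x‖ ^ r) volume 0 T := fun U hU r hr =>
      (hU.norm.rpow_const (fun x => Or.inr hr.le)).intervalIntegrable _ _
    have hEp : ∫ x in (0:ℝ)..T, ‖BU k ε e x‖ ^ p ≤ C₀ ^ p₀ * (ω ^ p₀ * (R + 1)) + C₁ ^ p₁ * (ω ^ p₁ * (R + 1)) := by
      have h1 : ∫ x in (0:ℝ)..T, ‖BU k ε e x‖ ^ p ≤
          ∫ x in (0:ℝ)..T, (‖BU k ε e x‖ ^ p₀ + ‖BU k ε e x‖ ^ p₁) :=
        intervalIntegral.integral_mono_on hT.le (ci _ ce p hp')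
          ((ci _ ce p₀ (by linarith)).add (ci _ ce p₁ (by linarith)))
          fun x _ => rpow_le_add (norm_nonneg _) (by linarith) h01 h12
      rw [intervalIntegral.integral_add (ci _ ce p₀ (by linarith)) (ci _ ce p₁ (by linarith))] at h1
      linarith
    have hpt : ∀ x, ‖BU k ε g x‖ ^ p ≤ (1 + τ) ^ (p - 1) * ‖BU k ε ga x‖ ^ p +
        ((1 + τ) / τ) ^ (p - 1) * ‖BU k ε e x‖ ^ p := by
      intro x
      have h1 : BU k ε g x = BU k ε ga x + BU k ε e x := by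
        unfold BU
        rw [hed, BB_sub hk hg hga (hm x)]; ring
      have h2 : ‖BU k ε g x‖ ≤ ‖BU k ε ga x‖ + ‖BU k ε e x‖ := by rw [h1]; exact norm_add_le _ _
      exact (Real.rpow_le_rpow (norm_nonneg _) h2 hp'.le).trans
        (two_split (norm_nonneg _) (norm_nonneg _) hτ (by linarith))
    have i1 := (ci _ ca p hp').const_mul ((1 + τ) ^ (p - 1))
    have i2 := (ci _ ce p hp').const_mul (((1 + τ) / τ) ^ (p - 1))
    have h3 : X ≤ ∫ x in (0:ℝ)..T, ((1 + τ) ^ (p - 1) * ‖BU k ε ga x‖ ^ p +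
        ((1 + τ) / τ) ^ (p - 1) * ‖BU k ε e x‖ ^ p) :=
      intervalIntegral.integral_mono_on hT.le (ci _ cg p hp') (i1.add i2) fun x _ => hpt x
    rw [intervalIntegral.integral_add i1 i2, intervalIntegral.integral_const_mul,
      intervalIntegral.integral_const_mul] at h3
    have h4 := mul_le_mul_of_nonneg_left hA (by positivity : (0:ℝ) ≤ (1 + τ) ^ (p - 1))
    have h5 := mul_le_mul_of_nonneg_left hEp (by positivity : (0:ℝ) ≤ ((1 + τ) / τ) ^ (p - 1))
    linarith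
  have step1 : ∀ τ, 0 < τ → X ≤ (1 + τ) ^ (p - 1) * (Cp ^ p * G) := by
    intro τ hτ
    have h1 := lim0 (X := X) (φ := fun ω => (1 + τ) ^ (p - 1) * (Cp ^ p * (G + (R + 1) * ω))
      + ((1 + τ) / τ) ^ (p - 1) * (C₀ ^ p₀ * (ω ^ p₀ * (R + 1)) + C₁ ^ p₁ * (ω ^ p₁ * (R + 1)))) (by
        apply Continuous.continuousAt
        have c0 : Continuous fun ω : ℝ => ω ^ p₀ := Real.continuous_rpow_const (by linarith)
        have c1 : Continuous fun ω : ℝ => ω ^ p₁ := Real.continuous_rpow_const (by linarith)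
        exact (continuous_const.mul (continuous_const.mul (continuous_const.add (continuous_const.mul continuous_id)))).add
          (continuous_const.mul ((continuous_const.mul (c0.mul continuous_const)).add
            (continuous_const.mul (c1.mul continuous_const))))) (main τ hτ)
    rw [Real.zero_rpow (by linarith), Real.zero_rpow (by linarith)] at h1
    simpa using h1
  have h2 := lim0 (X := X) (φ := fun τ => (1 + τ) ^ (p - 1) * (Cp ^ p * G)) (by
    have c0 : Continuous fun τ : ℝ => (1 + τ) ^ (p - 1) :=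
      (Real.continuous_rpow_const (by linarith)).comp (continuous_const.add continuous_id)
    exact (c0.mul continuous_const).continuousAt) (fun τ hτ _ => step1 τ hτ)
  rw [add_zero, Real.one_rpow, one_mul] at h2
  exact h2

end Pool.Agent.L5helper95.BA
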