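import Mathlib

/-!
# First order causal operators on the half-line

`E μ f (y) = ∫_0^y e^{-μ (y - t)} f t dt`; the operator `f - 2 μ E μ f` is an isometry of `L²(0, ∞)`.
-/

set_option autoImplicit false

namespace Pool.Agent.L5helper95.BA

open MeasureTheory Set Filter Topology

/-- the resolvent -/
noncomputable def E (μ : ℝ) (f : ℝ → ℝ) (y : ℝ) : ℝ :=
  Real.exp (-(μ * y)) * ∫ t in (0:ℝ)..y, Real.exp (μ * t) * f t

/-- the exponential -/
noncomputable def ee (μ : ℝ) (y : ℝ) : ℝ := Real.exp (-(μ * y))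

lemma ee_zero (μ : ℝ) : ee μ 0 = 1 := by simp [ee]

lemma ee_cont (μ : ℝ) : Continuous (ee μ) := by unfold ee; fun_prop

lemma ee_deriv (μ y : ℝ) : HasDerivAt (ee μ) (-μ * ee μ y) y := by
  have h1 : HasDerivAt (fun y : ℝ => -(μ * y)) (-μ) y := by
    have h := (hasDerivAt_id y).const_mul (-μ)
    simp only [mul_one, id, neg_mul] at h
    exact h
  have h2 := h1.exp
  unfold ee
  rw [mul_comm]
  exact h2

lemma E_zero (μ : ℝ) (f : ℝ → ℝ) : E μ f 0 = 0 := by simp [E]

lemma E_deriv (μ : ℝ) {f : ℝ → ℝ} (hf : Continuous f) (y : ℝ) :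
    HasDerivAt (E μ f) (f y - μ * E μ f y) y := by
  have h1 : HasDerivAt (fun y : ℝ => ∫ t in (0:ℝ)..y, Real.exp (μ * t) * f t)
      (Real.exp (μ * y) * f y) y := by
    have hc : Continuous fun t : ℝ => Real.exp (μ * t) * f t := by fun_prop
    exact (hc.integral_hasStrictDerivAt 0 y).hasDerivAt
  have h2 := (ee_deriv μ y).mul h1
  have e : ee μ y * (Real.exp (μ * y) * f y) = f y := by
    unfold ee
    rw [← mul_assoc, ← Real.exp_add]
    simp
  have e2 : -μ * ee μ y * (∫ t in (0:ℝ)..y, Real.exp (μ * t) * f t) +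
      ee μ y * (Real.exp (μ * y) * f y) = f y - μ * E μ f y := by
    rw [e]
    unfold E ee
    ring
  rw [← e2]
  exact h2

lemma E_cont (μ : ℝ) {f : ℝ → ℝ} (hf : Continuous f) : Continuous (E μ f) :=
  continuous_iff_continuousAt.2 fun y => (E_deriv μ hf y).continuousAt

/-- uniqueness for `g' = - μ g`, `g 0 = 0` -/
lemma uniq (μ : ℝ) {g : ℝ → ℝ} (hg : ∀ y, HasDerivAt g (-μ * g y) y) (h0 : g 0 = 0) (y : ℝ) :
    g y = 0 := by
  have h1 : ∀ y, HasDerivAt (fun y => Real.exp (μ * y) * g y) 0 y := by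
    intro y
    have h2 : HasDerivAt (fun y : ℝ => Real.exp (μ * y)) (Real.exp (μ * y) * μ) y := by
      have : HasDerivAt (fun y : ℝ => μ * y) μ y := by simpa using (hasDerivAt_id y).const_mul μ
      exact this.exp
    have h3 := h2.mul (hg y)
    have e : Real.exp (μ * y) * μ * g y + Real.exp (μ * y) * (-μ * g y) = 0 := by ring
    rw [e] at h3
    exact h3
  have h2 : Real.exp (μ * y) * g y = Real.exp (μ * 0) * g 0 :=
    is_const_of_deriv_eq_zero (fun y => (h1 y).differentiableAt) (fun y => (h1 y).deriv) y 0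
  rw [h0, mul_zero] at h2
  exact (mul_eq_zero.1 h2).resolve_left (Real.exp_pos _).ne'

lemma E_add (μ : ℝ) {f g : ℝ → ℝ} (hf : Continuous f) (hg : Continuous g) (y : ℝ) :
    E μ (fun y => f y + g y) y = E μ f y + E μ g y := by
  have key := uniq μ (g := fun y => E μ (fun y => f y + g y) y - (E μ f y + E μ g y))
    (fun y => by
      have h := (E_deriv μ (hf.add hg) y).sub ((E_deriv μ hf y).add (E_deriv μ hg y))
      have e : (f y + g y) - μ * E μ (fun y => f y + g y) y -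
        ((f y - μ * E μ f y) + (g y - μ * E μ g y)) =
        -μ * (E μ (fun y => f y + g y) y - (E μ f y + E μ g y)) := by ring
      rw [← e]
      exact h) (by simp [E_zero]) y
  linarith

lemma E_smul (μ c : ℝ) {f : ℝ → ℝ} (y : ℝ) :
    E μ (fun y => c * f y) y = c * E μ f y := by
  unfold E
  rw [← intervalIntegral.integral_const_mul, ← intervalIntegral.integral_const_mul,
    ← intervalIntegral.integral_const_mul]
  refine intervalIntegral.integral_congr fun t _ => ?_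
  simp only
  ring

lemma E_sub (μ : ℝ) {f g : ℝ → ℝ} (hf : Continuous f) (hg : Continuous g) (y : ℝ) :
    E μ (fun y => f y - g y) y = E μ f y - E μ g y := by
  have hg' : Continuous (fun y => -1 * g y) := continuous_const.mul hg
  have h := E_add μ hf hg' y
  rw [E_smul] at h
  have e : (fun y => f y - g y) = fun y => f y + -1 * g y := by funext y; ring
  rw [e, h]
  ring

/-- multiplication by `y` -/
lemma y_E (μ : ℝ) {f : ℝ → ℝ} (hf : Continuous f) (y : ℝ) :
    y * E μ f y = E μ (fun y => y * f y) y + E μ (E μ f) y := by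
  have key := uniq μ (g := fun y => y * E μ f y - (E μ (fun y => y * f y) y + E μ (E μ f) y))
    (fun y => by
      have h := ((hasDerivAt_id y).mul (E_deriv μ hf y)).sub
        ((E_deriv μ (continuous_id.mul hf) y).add (E_deriv μ (E_cont μ hf) y))
      have e : (1 * E μ f y + id y * (f y - μ * E μ f y)) -
        ((id y * f y - μ * E μ (fun y => id y * f y) y) + (E μ f y - μ * E μ (E μ f) y)) =
        -μ * (y * E μ f y - (E μ (fun y => y * f y) y + E μ (E μ f) y)) := by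
        simp only [id]
        ring
      rw [← e]
      exact h) (by simp [E_zero]) y
  linarith

/-- the resolvent identity -/
lemma E_res (μ ν : ℝ) {f : ℝ → ℝ} (hf : Continuous f) (y : ℝ) :
    (μ - ν) * E μ (E ν f) y = E ν f y - E μ f y := by
  have key := uniq μ (g := fun y => (μ - ν) * E μ (E ν f) y - (E ν f y - E μ f y))
    (fun y => by
      have h := ((E_deriv μ (E_cont ν hf) y).const_mul (μ - ν)).sub
        ((E_deriv ν hf y).sub (E_deriv μ hf y))
      have e : (μ - ν) * (E ν f y - μ * E μ (E ν f) y) -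
        ((f y - ν * E ν f y) - (f y - μ * E μ f y)) =
        -μ * ((μ - ν) * E μ (E ν f) y - (E ν f y - E μ f y)) := by ring
      rw [← e]
      exact h) (by simp [E_zero]) y
  linarith

lemma E_comm (μ ν : ℝ) {f : ℝ → ℝ} (hf : Continuous f) (y : ℝ) :
    E μ (E ν f) y = E ν (E μ f) y := by
  rcases eq_or_ne μ ν with h | h
  · rw [h]
  · have h1 := E_res μ ν hf y
    have h2 := E_res ν μ hf y
    have h3 : (μ - ν) * (E μ (E ν f) y - E ν (E μ f) y) = 0 := by linarith
    have h4 := (mul_eq_zero.1 h3).resolve_left (sub_ne_zero.2 h)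
    linarith

/-- `(ν - a) E ν e_a = e_a - e_ν` -/
lemma E_ee (ν a y : ℝ) : (ν - a) * E ν (ee a) y = ee a y - ee ν y := by
  have key := uniq ν (g := fun y => (ν - a) * E ν (ee a) y - (ee a y - ee ν y))
    (fun y => by
      have h := ((E_deriv ν (ee_cont a) y).const_mul (ν - a)).sub
        ((ee_deriv a y).sub (ee_deriv ν y))
      have e : (ν - a) * (ee a y - ν * E ν (ee a) y) - (-a * ee a y - -ν * ee ν y) =
        -ν * ((ν - a) * E ν (ee a) y - (ee a y - ee ν y)) := by ring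
      rw [← e]
      exact h) (by simp [E_zero, ee_zero]) y
  linarith

lemma E_ee_comm (ν a y : ℝ) : E ν (ee a) y = E a (ee ν) y := by
  rcases eq_or_ne ν a with h | h
  · rw [h]
  · have h1 := E_ee ν a y
    have h2 := E_ee a ν y
    have h3 : (ν - a) * (E ν (ee a) y - E a (ee ν) y) = 0 := by linarith
    have h4 := (mul_eq_zero.1 h3).resolve_left (sub_ne_zero.2 h)
    linarith

lemma y_ee (μ y : ℝ) : y * ee μ y = E μ (ee μ) y := by
  have key := uniq μ (g := fun y => y * ee μ y - E μ (ee μ) y)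
    (fun y => by
      have h := ((hasDerivAt_id y).mul (ee_deriv μ y)).sub (E_deriv μ (ee_cont μ) y)
      have e : (1 * ee μ y + id y * (-μ * ee μ y)) - (ee μ y - μ * E μ (ee μ) y) =
        -μ * (y * ee μ y - E μ (ee μ) y) := by simp only [id]; ring
      rw [← e]
      exact h) (by simp [E_zero]) y
  linarith

/-- the shift by an exponential -/
lemma E_shift (μ c : ℝ) (f : ℝ → ℝ) (y : ℝ) :
    Real.exp (c * y) * E μ f y = E (μ - c) (fun y => Real.exp (c * y) * f y) y := by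
  unfold E
  rw [← mul_assoc, ← Real.exp_add]
  have e : c * y + -(μ * y) = -((μ - c) * y) := by ring
  rw [e]
  congr 1
  refine intervalIntegral.integral_congr fun t _ => ?_
  simp only
  rw [← mul_assoc, ← Real.exp_add]
  congr 2
  ring

/-! ### decaying functions -/

/-- continuous functions with exponential decay on the right -/
def Dc (f : ℝ → ℝ) : Prop := Continuous f ∧ ∃ C c : ℝ, 0 < c ∧ ∀ y, 0 ≤ y → |f y| ≤ C * Real.exp (-(c * y))

lemma Dc.cont {f : ℝ → ℝ} (h : Dc f) : Continuous f := h.1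

lemma Dc.rate {f : ℝ → ℝ} (h : Dc f) : ∃ C c : ℝ, 0 ≤ C ∧ 0 < c ∧
    ∀ y, 0 ≤ y → |f y| ≤ C * Real.exp (-(c * y)) := by
  obtain ⟨_, C, c, hc, h⟩ := h
  refine ⟨C, c, ?_, hc, h⟩
  have := h 0 le_rfl
  simp at this
  exact (abs_nonneg _).trans this

lemma Dc_ee {μ : ℝ} (h : 0 < μ) : Dc (ee μ) :=
  ⟨ee_cont μ, 1, μ, h, fun y _ => by rw [one_mul, ee, abs_of_pos (Real.exp_pos _)]⟩

lemma Dc.smul {f : ℝ → ℝ} (h : Dc f) (a : ℝ) : Dc (fun y => a * f y) := by
  obtain ⟨C, c, hC, hc, h1⟩ := h.rate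
  refine ⟨continuous_const.mul h.cont, |a| * C, c, hc, fun y hy => ?_⟩
  rw [abs_mul, mul_assoc]
  exact mul_le_mul_of_nonneg_left (h1 y hy) (abs_nonneg _)

lemma Dc.add {f g : ℝ → ℝ} (hf : Dc f) (hg : Dc g) : Dc (fun y => f y + g y) := by
  obtain ⟨C, c, hC, hc, h1⟩ := hf.rate
  obtain ⟨D, d, hD, hd, h2⟩ := hg.rate
  refine ⟨hf.cont.add hg.cont, C + D, min c d, lt_min hc hd, fun y hy => ?_⟩
  have e1 : Real.exp (-(c * y)) ≤ Real.exp (-(min c d * y)) := by
    apply Real.exp_le_exp.2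
    have := mul_le_mul_of_nonneg_right (min_le_left c d) hy
    linarith
  have e2 : Real.exp (-(d * y)) ≤ Real.exp (-(min c d * y)) := by
    apply Real.exp_le_exp.2
    have := mul_le_mul_of_nonneg_right (min_le_right c d) hy
    linarith
  calc |f y + g y| ≤ |f y| + |g y| := abs_add_le _ _
    _ ≤ C * Real.exp (-(c * y)) + D * Real.exp (-(d * y)) := add_le_add (h1 y hy) (h2 y hy)
    _ ≤ C * Real.exp (-(min c d * y)) + D * Real.exp (-(min c d * y)) := by gcongr
    _ = _ := by ring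

lemma Dc.sub {f g : ℝ → ℝ} (hf : Dc f) (hg : Dc g) : Dc (fun y => f y - g y) := by
  have h := hf.add (hg.smul (-1))
  have e : (fun y => f y - g y) = fun y => f y + -1 * g y := by funext y; ring
  rw [e]; exact h

lemma Dc.ymul {f : ℝ → ℝ} (hf : Dc f) : Dc (fun y => y * f y) := by
  obtain ⟨C, c, hC, hc, h1⟩ := hf.rate
  refine ⟨continuous_id.mul hf.cont, C * (2 / c), c / 2, by positivity, fun y hy => ?_⟩
  rw [abs_mul, abs_of_nonneg hy]
  have h2 : y ≤ 2 / c * Real.exp (c / 2 * y) := by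
    have := Real.add_one_le_exp (c / 2 * y)
    calc y = 2 / c * (c / 2 * y) := by field_simp
      _ ≤ 2 / c * Real.exp (c / 2 * y) := by gcongr; linarith
  calc y * |f y| ≤ (2 / c * Real.exp (c / 2 * y)) * (C * Real.exp (-(c * y))) := by
        apply mul_le_mul h2 (h1 y hy) (abs_nonneg _) (by positivity)
    _ = C * (2 / c) * (Real.exp (c / 2 * y) * Real.exp (-(c * y))) := by ring
    _ = C * (2 / c) * Real.exp (-(c / 2 * y)) := by
        rw [← Real.exp_add]
        congr 2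
        ring

lemma Dc.const_sub_mul {f : ℝ → ℝ} (hf : Dc f) (D : ℝ) : Dc (fun y => (y - D) * f y) := by
  have h := hf.ymul.sub (hf.smul D)
  have e : (fun y => (y - D) * f y) = fun y => y * f y - D * f y := by funext y; ring
  rw [e]; exact h

lemma Dc.E {f : ℝ → ℝ} (hf : Dc f) {μ : ℝ} (hμ : 0 < μ) : Dc (E μ f) := by
  obtain ⟨C, c, hC, hc, h1⟩ := hf.rate
  set d : ℝ := min c μ / 2 with hd
  have hd0 : 0 < d := by have := lt_min hc hμ; positivity
  have hdc : d ≤ c := by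
    have h2 := min_le_left c μ
    have h3 : 0 < min c μ := lt_min hc hμ
    linarith
  have hdμ : d < μ := by
    have h2 := min_le_right c μ
    have h3 : 0 < min c μ := lt_min hc hμ
    linarith
  refine ⟨E_cont μ hf.cont, C / (μ - d), d, hd0, fun y hy => ?_⟩
  have hmd : 0 < μ - d := by linarith
  unfold BA.E
  rw [abs_mul, abs_of_pos (Real.exp_pos _)]
  have h2 : |∫ t in (0:ℝ)..y, Real.exp (μ * t) * f t| ≤ ∫ t in (0:ℝ)..y, C * Real.exp ((μ - d) * t) := by
    rw [← Real.norm_eq_abs]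
    apply intervalIntegral.norm_integral_le_of_norm_le hy
    · refine Eventually.of_forall fun t ht => ?_
      rw [Real.norm_eq_abs, abs_mul, abs_of_pos (Real.exp_pos _)]
      calc Real.exp (μ * t) * |f t| ≤ Real.exp (μ * t) * (C * Real.exp (-(c * t))) :=
            mul_le_mul_of_nonneg_left (h1 t ht.1.le) (Real.exp_pos _).le
        _ = C * Real.exp (μ * t + -(c * t)) := by rw [Real.exp_add]; ring
        _ ≤ C * Real.exp ((μ - d) * t) := by
            apply mul_le_mul_of_nonneg_left _ hC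
            apply Real.exp_le_exp.2
            have := mul_le_mul_of_nonneg_right hdc ht.1.le
            linarith
    · apply Continuous.intervalIntegrable
      fun_prop
  have h3 : ∫ t in (0:ℝ)..y, C * Real.exp ((μ - d) * t) = C / (μ - d) * (Real.exp ((μ - d) * y) - 1) := by
    rw [intervalIntegral.integral_const_mul]
    have h4 : ∫ t in (0:ℝ)..y, Real.exp ((μ - d) * t) = (μ - d)⁻¹ * (Real.exp ((μ - d) * y) - 1) := by
      rw [intervalIntegral.integral_comp_mul_left (fun x => Real.exp x) hmd.ne', integral_exp]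
      simp
    rw [h4]
    field_simp
  rw [h3] at h2
  calc Real.exp (-(μ * y)) * |∫ t in (0:ℝ)..y, Real.exp (μ * t) * f t|
      ≤ Real.exp (-(μ * y)) * (C / (μ - d) * (Real.exp ((μ - d) * y) - 1)) :=
        mul_le_mul_of_nonneg_left h2 (Real.exp_pos _).le
    _ ≤ Real.exp (-(μ * y)) * (C / (μ - d) * Real.exp ((μ - d) * y)) := by
        apply mul_le_mul_of_nonneg_left _ (Real.exp_pos _).le
        apply mul_le_mul_of_nonneg_left _ (by positivity)
        linarith
    _ = C / (μ - d) * (Real.exp (-(μ * y)) * Real.exp ((μ - d) * y)) := by ring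
    _ = C / (μ - d) * Real.exp (-(d * y)) := by
        rw [← Real.exp_add]
        congr 2
        ring

lemma Dc.mul {f g : ℝ → ℝ} (hf : Dc f) (hg : Dc g) : Dc (fun y => f y * g y) := by
  obtain ⟨C, c, hC, hc, h1⟩ := hf.rate
  obtain ⟨D, d, hD, hd, h2⟩ := hg.rate
  refine ⟨hf.cont.mul hg.cont, C * D, c + d, by positivity, fun y hy => ?_⟩
  rw [abs_mul]
  calc |f y| * |g y| ≤ (C * Real.exp (-(c * y))) * (D * Real.exp (-(d * y))) :=
        mul_le_mul (h1 y hy) (h2 y hy) (abs_nonneg _) (by positivity)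
    _ = C * D * (Real.exp (-(c * y)) * Real.exp (-(d * y))) := by ring
    _ = _ := by
        rw [← Real.exp_add]
        congr 2
        ring

lemma Dc.int {f : ℝ → ℝ} (hf : Dc f) : IntegrableOn f (Ioi 0) := by
  obtain ⟨C, c, hC, hc, h1⟩ := hf.rate
  have h2 : IntegrableOn (fun y => C * Real.exp (-c * y)) (Ioi 0) :=
    (integrableOn_exp_mul_Ioi (by linarith : -c < 0) 0).const_mul C
  refine Integrable.mono' h2 hf.cont.aestronglyMeasurable ?_
  filter_upwards [ae_restrict_mem measurableSet_Ioi] with y hy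
  rw [Real.norm_eq_abs]
  have := h1 y (le_of_lt hy)
  rw [← neg_mul] at this
  exact this

lemma Dc.tendsto {f : ℝ → ℝ} (hf : Dc f) : Tendsto f atTop (𝓝 0) := by
  obtain ⟨C, c, hC, hc, h1⟩ := hf.rate
  have h2 : Tendsto (fun y => C * Real.exp (-(c * y))) atTop (𝓝 0) := by
    have h3 : Tendsto (fun y : ℝ => c * y) atTop atTop := tendsto_id.const_mul_atTop hc
    have h4 := (Real.tendsto_exp_neg_atTop_nhds_zero.comp h3).const_mul C
    simpa using h4
  refine squeeze_zero_norm' ?_ h2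
  filter_upwards [eventually_ge_atTop 0] with y hy
  rw [Real.norm_eq_abs]
  exact h1 y hy

/-- the fundamental theorem of calculus on the half-line -/
lemma Dc.ftc {g g' : ℝ → ℝ} (hg : Dc g) (hg' : Dc g') (hd : ∀ y, HasDerivAt g (g' y) y) :
    ∫ y in Ioi (0:ℝ), g' y = -g 0 := by
  have := integral_Ioi_of_hasDerivAt_of_tendsto' (a := (0:ℝ)) (fun y _ => hd y) hg'.int hg.tendsto
  rw [this]; ring

/-- the square of the norm -/
noncomputable def N2 (f : ℝ → ℝ) : ℝ := ∫ y in Ioi (0:ℝ), f y ^ 2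

lemma Dc.sq {f : ℝ → ℝ} (hf : Dc f) : Dc (fun y => f y ^ 2) := by
  have h := hf.mul hf
  have e : (fun y => f y ^ 2) = fun y => f y * f y := by funext y; ring
  rw [e]; exact h

lemma N2_nonneg (f : ℝ → ℝ) : 0 ≤ N2 f := integral_nonneg fun y => sq_nonneg _

/-- the norm -/
noncomputable def nn (f : ℝ → ℝ) : ℝ := Real.sqrt (N2 f)

lemma nn_nonneg (f : ℝ → ℝ) : 0 ≤ nn f := Real.sqrt_nonneg _

lemma nn_sq (f : ℝ → ℝ) : nn f ^ 2 = N2 f := Real.sq_sqrt (N2_nonneg f)

lemma N2_comb {f g : ℝ → ℝ} (hf : Dc f) (hg : Dc g) (t : ℝ) :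
    N2 (fun y => f y + t * g y) = N2 f + 2 * t * (∫ y in Ioi (0:ℝ), f y * g y) + t ^ 2 * N2 g := by
  unfold N2
  have e : (fun y => (f y + t * g y) ^ 2) =
      fun y => (f y ^ 2 + 2 * t * (f y * g y)) + t ^ 2 * g y ^ 2 := by funext y; ring
  have i1 : Integrable (fun y => f y ^ 2) (volume.restrict (Ioi (0:ℝ))) := hf.sq.int
  have i2 : Integrable (fun y => 2 * t * (f y * g y)) (volume.restrict (Ioi (0:ℝ))) :=
    ((hf.mul hg).int).const_mul _
  have i3 : Integrable (fun y => t ^ 2 * g y ^ 2) (volume.restrict (Ioi (0:ℝ))) :=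
    (hg.sq.int).const_mul _
  have i12 : Integrable (fun y => f y ^ 2 + 2 * t * (f y * g y)) (volume.restrict (Ioi (0:ℝ))) :=
    i1.add i2
  rw [e, integral_add i12 i3, integral_add i1 i2, integral_const_mul, integral_const_mul]

lemma cs {f g : ℝ → ℝ} (hf : Dc f) (hg : Dc g) :
    (∫ y in Ioi (0:ℝ), f y * g y) ≤ nn f * nn g := by
  set I := ∫ y in Ioi (0:ℝ), f y * g y with hI
  have h1 : ∀ t : ℝ, 0 ≤ N2 g * (t * t) + 2 * I * t + N2 f := by
    intro t
    have := N2_nonneg (fun y => f y + t * g y)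
    rw [N2_comb hf hg t] at this
    nlinarith
  have h2 := discrim_le_zero h1
  unfold discrim at h2
  have h3 : I ^ 2 ≤ (nn f * nn g) ^ 2 := by
    rw [mul_pow, nn_sq, nn_sq]
    nlinarith
  exact (abs_le_of_sq_le_sq' h3 (mul_nonneg (nn_nonneg _) (nn_nonneg _))).2

lemma nn_add {f g : ℝ → ℝ} (hf : Dc f) (hg : Dc g) : nn (fun y => f y + g y) ≤ nn f + nn g := by
  have h1 := N2_comb hf hg 1
  have h2 := cs hf hg
  simp only [one_mul] at h1
  refine abs_le_of_sq_le_sq' ?_ (add_nonneg (nn_nonneg _) (nn_nonneg _)) |>.2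
  rw [nn_sq, h1, add_sq, nn_sq, nn_sq]
  linarith

lemma nn_smul {f : ℝ → ℝ} (c : ℝ) (hc : 0 ≤ c) : nn (fun y => c * f y) = c * nn f := by
  unfold nn N2
  have e : (fun y => (c * f y) ^ 2) = fun y => c ^ 2 * f y ^ 2 := by funext y; ring
  rw [e, integral_const_mul, Real.sqrt_mul (by positivity), Real.sqrt_sq hc]

/-- the isometries -/
noncomputable def F (μ : ℝ) (f : ℝ → ℝ) (y : ℝ) : ℝ := f y - 2 * μ * E μ f y

lemma Dc.F {f : ℝ → ℝ} (hf : Dc f) {μ : ℝ} (hμ : 0 < μ) : Dc (F μ f) := hf.sub ((hf.E hμ).smul (2 * μ))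

lemma Dc.E' {f : ℝ → ℝ} (hf : Dc f) {μ : ℝ} (hμ : 0 < μ) : Dc (fun y => f y - μ * BA.E μ f y) :=
  hf.sub ((hf.E hμ).smul μ)

lemma int_E_sq {f : ℝ → ℝ} (hf : Dc f) {μ : ℝ} (hμ : 0 < μ) :
    ∫ y in Ioi (0:ℝ), 2 * (E μ f y * (f y - μ * E μ f y)) = 0 := by
  have h1 : ∀ y, HasDerivAt (fun y => E μ f y ^ 2) (2 * (E μ f y * (f y - μ * E μ f y))) y := by
    intro y
    have h := (E_deriv μ hf.cont y).pow 2
    have e : ((2 : ℕ) : ℝ) * E μ f y ^ (2 - 1) * (f y - μ * E μ f y) =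
        2 * (E μ f y * (f y - μ * E μ f y)) := by
      norm_num
      ring
    rw [← e]
    exact h
  have h2 := Dc.ftc (hf.E hμ).sq (((hf.E hμ).mul (hf.E' hμ)).smul 2) h1
  rw [h2, E_zero]
  simp

lemma N2_F {f : ℝ → ℝ} (hf : Dc f) {μ : ℝ} (hμ : 0 < μ) : N2 (F μ f) = N2 f := by
  have h1 := int_E_sq hf hμ
  unfold N2 F
  have e : (fun y => (f y - 2 * μ * E μ f y) ^ 2) =
      fun y => f y ^ 2 - 2 * μ * (2 * (E μ f y * (f y - μ * E μ f y))) := by funext y; ring
  have i1 : Integrable (fun y => f y ^ 2) (volume.restrict (Ioi (0:ℝ))) := hf.sq.int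
  have i2 : Integrable (fun y => 2 * μ * (2 * (E μ f y * (f y - μ * E μ f y))))
      (volume.restrict (Ioi (0:ℝ))) := ((((hf.E hμ).mul (hf.E' hμ)).smul 2).int).const_mul _
  rw [e, integral_sub i1 i2, integral_const_mul, h1]
  ring

lemma nn_F {f : ℝ → ℝ} (hf : Dc f) {μ : ℝ} (hμ : 0 < μ) : nn (F μ f) = nn f := by
  unfold nn; rw [N2_F hf hμ]

lemma nn_E' {f : ℝ → ℝ} (hf : Dc f) {μ : ℝ} (hμ : 0 < μ) : nn (fun y => f y - μ * E μ f y) ≤ nn f := by
  have h1 := int_E_sq hf hμ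
  unfold nn
  apply Real.sqrt_le_sqrt
  unfold N2
  have e : (fun y => (f y - μ * E μ f y) ^ 2) =
      fun y => (f y ^ 2 - μ * (2 * (E μ f y * (f y - μ * E μ f y)))) - μ ^ 2 * E μ f y ^ 2 := by
    funext y; ring
  have i1 : Integrable (fun y => f y ^ 2) (volume.restrict (Ioi (0:ℝ))) := hf.sq.int
  have i2 : Integrable (fun y => μ * (2 * (E μ f y * (f y - μ * E μ f y))))
      (volume.restrict (Ioi (0:ℝ))) := ((((hf.E hμ).mul (hf.E' hμ)).smul 2).int).const_mul _
  have i3 : Integrable (fun y => μ ^ 2 * E μ f y ^ 2) (volume.restrict (Ioi (0:ℝ))) :=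
    ((hf.E hμ).sq.int).const_mul _
  have i12 : Integrable (fun y => f y ^ 2 - μ * (2 * (E μ f y * (f y - μ * E μ f y))))
      (volume.restrict (Ioi (0:ℝ))) := i1.sub i2
  rw [e, integral_sub i12 i3, integral_sub i1 i2, integral_const_mul, h1]
  have h2 : 0 ≤ ∫ y in Ioi (0:ℝ), μ ^ 2 * E μ f y ^ 2 := integral_nonneg fun y => by positivity
  linarith

/-- `F μ f` is orthogonal to `e_μ` -/
lemma orth {f : ℝ → ℝ} (hf : Dc f) {μ : ℝ} (hμ : 0 < μ) :
    ∫ y in Ioi (0:ℝ), F μ f y * ee μ y = 0 := by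
  have h1 : ∀ y, HasDerivAt (fun y => ee μ y * E μ f y) (F μ f y * ee μ y) y := by
    intro y
    have h := (ee_deriv μ y).mul (E_deriv μ hf.cont y)
    have e : -μ * ee μ y * E μ f y + ee μ y * (f y - μ * E μ f y) = F μ f y * ee μ y := by
      unfold F; ring
    rw [← e]
    exact h
  have h2 := Dc.ftc ((Dc_ee hμ).mul (hf.E hμ)) ((hf.F hμ).mul (Dc_ee hμ)) h1
  rw [h2, E_zero]
  simp

lemma N2_ee {μ : ℝ} (hμ : 0 < μ) : N2 (ee μ) = 1 / (2 * μ) := by
  have h1 : ∀ y, HasDerivAt (fun y => -(1 / (2 * μ)) * ee μ y ^ 2) (ee μ y ^ 2) y := by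
    intro y
    have h := ((ee_deriv μ y).pow 2).const_mul (-(1 / (2 * μ)))
    have e : -(1 / (2 * μ)) * (((2 : ℕ) : ℝ) * ee μ y ^ (2 - 1) * (-μ * ee μ y)) = ee μ y ^ 2 := by
      norm_num
      field_simp
    rw [← e]
    exact h
  have h2 := Dc.ftc ((Dc_ee hμ).sq.smul _) (Dc_ee hμ).sq h1
  unfold N2
  rw [h2, ee_zero]
  ring

lemma N2_yee {μ : ℝ} (hμ : 0 < μ) : N2 (fun y => y * ee μ y) = 1 / (4 * μ ^ 3) := by
  have h1 : ∀ y, HasDerivAt (fun y => -(1 / (2 * μ)) * (y * ee μ y) ^ 2 + (-(1 / (2 * μ ^ 2)) * (y * ee μ y ^ 2)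
      + -(1 / (4 * μ ^ 3)) * ee μ y ^ 2)) ((y * ee μ y) ^ 2) y := by
    intro y
    have ha := (((hasDerivAt_id y).mul (ee_deriv μ y)).pow 2).const_mul (-(1 / (2 * μ)))
    have hb := ((hasDerivAt_id y).mul ((ee_deriv μ y).pow 2)).const_mul (-(1 / (2 * μ ^ 2)))
    have hc := ((ee_deriv μ y).pow 2).const_mul (-(1 / (4 * μ ^ 3)))
    have h := ha.add (hb.add hc)
    refine h.congr_deriv ?_
    simp only [id, Pi.mul_apply, Pi.pow_apply]
    norm_num
    field_simp
    ring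
  have h2 := Dc.ftc (((Dc_ee hμ).ymul.sq.smul _).add (((Dc_ee hμ).sq.ymul.smul _).add
    ((Dc_ee hμ).sq.smul _))) (Dc_ee hμ).ymul.sq h1
  unfold N2
  rw [h2, ee_zero]
  norm_num

lemma N2_E'ee {μ : ℝ} (hμ : 0 < μ) : N2 (fun y => ee μ y - μ * E μ (ee μ) y) = 1 / (4 * μ) := by
  have e0 : (fun y => ee μ y - μ * E μ (ee μ) y) = fun y => ee μ y + -μ * (y * ee μ y) := by
    funext y
    rw [y_ee]; ring
  rw [e0, N2_comb (Dc_ee hμ) (Dc_ee hμ).ymul, N2_ee hμ, N2_yee hμ]
  have h1 : ∀ y, HasDerivAt (fun y => -(1 / (2 * μ)) * (y * ee μ y ^ 2) + -(1 / (4 * μ ^ 2)) * ee μ y ^ 2)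
      (ee μ y * (y * ee μ y)) y := by
    intro y
    have hb := ((hasDerivAt_id y).mul ((ee_deriv μ y).pow 2)).const_mul (-(1 / (2 * μ)))
    have hc := ((ee_deriv μ y).pow 2).const_mul (-(1 / (4 * μ ^ 2)))
    refine (hb.add hc).congr_deriv ?_
    simp only [id, Pi.pow_apply]
    norm_num
    field_simp
    ring
  have h2 := Dc.ftc (((Dc_ee hμ).sq.ymul.smul _).add ((Dc_ee hμ).sq.smul _))
    ((Dc_ee hμ).mul (Dc_ee hμ).ymul) h1
  rw [h2, ee_zero]
  field_simp
  norm_num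

end Pool.Agent.L5helper95.BA
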