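import Pool.Agent.L5helper95.BA.K1

/-!
# Causal Blaschke products: norms and total variation
-/

set_option autoImplicit false

namespace Pool.Agent.L5helper95.BA

open MeasureTheory Set Filter Topology

lemma F_cont (μ : ℝ) {f : ℝ → ℝ} (hf : Continuous f) : Continuous (F μ f) :=
  hf.sub (continuous_const.mul (E_cont μ hf))

lemma cmul {f : ℝ → ℝ} (c : ℝ) (hf : Continuous f) : Continuous (fun y => c * f y) :=
  continuous_const.mul hf

lemma E_F (μ ν : ℝ) {f : ℝ → ℝ} (hf : Continuous f) : E μ (F ν f) = F ν (E μ f) := by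
  funext y
  have h1 : E μ (F ν f) y = E μ f y - 2 * ν * E μ (E ν f) y := by
    have h := E_sub μ hf (cmul (2 * ν) (E_cont ν hf)) y
    rw [E_smul] at h
    exact h
  rw [h1, E_comm μ ν hf]
  rfl

lemma F_add (μ : ℝ) {f g : ℝ → ℝ} (hf : Continuous f) (hg : Continuous g) (y : ℝ) :
    F μ (fun y => f y + g y) y = F μ f y + F μ g y := by
  unfold F
  rw [E_add μ hf hg]
  ring

lemma F_smul (μ c : ℝ) (f : ℝ → ℝ) (y : ℝ) : F μ (fun y => c * f y) y = c * F μ f y := by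
  unfold F
  rw [E_smul]
  ring

/-- `1 - μ E μ` -/
noncomputable def P (μ : ℝ) (f : ℝ → ℝ) (y : ℝ) : ℝ := f y - μ * E μ f y

lemma P_cont (μ : ℝ) {f : ℝ → ℝ} (hf : Continuous f) : Continuous (P μ f) :=
  hf.sub (continuous_const.mul (E_cont μ hf))

lemma Dc.P {f : ℝ → ℝ} (hf : Dc f) {μ : ℝ} (hμ : 0 < μ) : Dc (P μ f) := hf.E' hμ

lemma F_P (μ ν : ℝ) {f : ℝ → ℝ} (hf : Continuous f) : P μ (F ν f) = F ν (P μ f) := by
  funext y
  unfold P
  rw [E_F μ ν hf]
  have h := F_add ν hf (cmul (-μ) (E_cont μ hf)) y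
  have e : (fun y => f y + -μ * E μ f y) = fun y => f y - μ * E μ f y := by
    funext y
    ring
  rw [e, F_smul] at h
  rw [h]
  ring

lemma P_P (μ ν : ℝ) {f : ℝ → ℝ} (hf : Continuous f) : P μ (P ν f) = P ν (P μ f) := by
  funext y
  have h1 : ∀ μ ν : ℝ, E μ (P ν f) y = E μ f y - ν * E μ (E ν f) y := by
    intro μ ν
    have h := E_sub μ hf (cmul ν (E_cont ν hf)) y
    rw [E_smul] at h
    exact h
  have e1 : P μ (P ν f) y = P ν f y - μ * E μ (P ν f) y := rfl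
  have e2 : P ν (P μ f) y = P μ f y - ν * E ν (P μ f) y := rfl
  rw [e1, e2, h1, h1, E_comm μ ν hf]
  unfold P
  ring

lemma P_ee_comm (μ ν : ℝ) : P μ (ee ν) = P ν (ee μ) := by
  funext y
  unfold P
  have h1 := E_ee μ ν y
  have h2 := E_ee_comm μ ν y
  rw [← h2]
  linarith

/-- the product of the first `n` isometries -/
noncomputable def Bn (ν : ℕ → ℝ) : ℕ → (ℝ → ℝ) → (ℝ → ℝ)
  | 0, f => f
  | n + 1, f => F (ν n) (Bn ν n f)

/-- the kernel of `1 - Bn` -/
noncomputable def un (ν : ℕ → ℝ) : ℕ → ℝ → ℝ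
  | 0 => fun _ => 0
  | n + 1 => fun y => F (ν n) (un ν n) y + 2 * ν n * ee (ν n) y

section

variable {ν : ℕ → ℝ}

lemma Bn_cont (n : ℕ) {f : ℝ → ℝ} (hf : Continuous f) : Continuous (Bn ν n f) := by
  induction n with
  | zero => exact hf
  | succ n ih => exact F_cont _ ih

lemma un_cont (n : ℕ) : Continuous (un ν n) := by
  induction n with
  | zero => exact continuous_const
  | succ n ih => exact (F_cont _ ih).add (continuous_const.mul (ee_cont _))

lemma Bn_dc (hν : ∀ j, 0 < ν j) (n : ℕ) {f : ℝ → ℝ} (hf : Dc f) : Dc (Bn ν n f) := by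
  induction n with
  | zero => exact hf
  | succ n ih => exact ih.F (hν n)

lemma un_dc (hν : ∀ j, 0 < ν j) (n : ℕ) : Dc (un ν n) := by
  induction n with
  | zero => exact ⟨continuous_const, 0, 1, one_pos, fun y _ => by simp [un]⟩
  | succ n ih => exact (ih.F (hν n)).add ((Dc_ee (hν n)).smul _)

lemma nn_Bn (hν : ∀ j, 0 < ν j) (n : ℕ) {f : ℝ → ℝ} (hf : Dc f) : nn (Bn ν n f) = nn f := by
  induction n with
  | zero => rfl
  | succ n ih => rw [← ih]; exact nn_F (Bn_dc hν n hf) (hν n)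

lemma E_Bn (μ : ℝ) (n : ℕ) {f : ℝ → ℝ} (hf : Continuous f) : E μ (Bn ν n f) = Bn ν n (E μ f) := by
  induction n with
  | zero => rfl
  | succ n ih =>
    show E μ (F (ν n) (Bn ν n f)) = F (ν n) (Bn ν n (E μ f))
    rw [E_F μ _ (Bn_cont n hf), ih]

lemma P_Bn (μ : ℝ) (n : ℕ) {f : ℝ → ℝ} (hf : Continuous f) : P μ (Bn ν n f) = Bn ν n (P μ f) := by
  induction n with
  | zero => rfl
  | succ n ih =>
    show P μ (F (ν n) (Bn ν n f)) = F (ν n) (Bn ν n (P μ f))
    rw [F_P μ _ (Bn_cont n hf), ih]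

lemma un_succ_apply (n : ℕ) (y : ℝ) : un ν (n + 1) y = F (ν n) (un ν n) y + 2 * ν n * ee (ν n) y := rfl

/-- `e_μ - E_μ u = B e_μ` -/
lemma ee_sub (μ : ℝ) (n : ℕ) (y : ℝ) : ee μ y - E μ (un ν n) y = Bn ν n (ee μ) y := by
  induction n generalizing y with
  | zero =>
    show ee μ y - E μ (fun _ => 0) y = ee μ y
    unfold E
    simp
  | succ n ih =>
    have h1 : E μ (un ν (n + 1)) y = F (ν n) (E μ (un ν n)) y + 2 * ν n * E μ (ee (ν n)) y := by
      have h := E_add μ (F_cont (ν n) (un_cont (ν := ν) n)) (cmul (2 * ν n) (ee_cont (ν n))) y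
      rw [E_smul, E_F μ (ν n) (un_cont n)] at h
      exact h
    have h2 : Bn ν (n + 1) (ee μ) y = F (ν n) (Bn ν n (ee μ)) y := rfl
    have h3 : Bn ν n (ee μ) = fun y => ee μ y + -1 * E μ (un ν n) y := by
      funext y
      rw [← ih]; ring
    have h4 : F (ν n) (Bn ν n (ee μ)) y = F (ν n) (ee μ) y + -1 * F (ν n) (E μ (un ν n)) y := by
      rw [h3, F_add (ν n) (ee_cont μ) (cmul (-1) (E_cont μ (un_cont n))), F_smul]
    rw [h1, h2, h4]
    unfold F
    rw [E_ee_comm μ (ν n) y]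
    ring

lemma N2_un (hν : ∀ j, 0 < ν j) (n : ℕ) : N2 (un ν n) = ∑ j ∈ Finset.range n, 2 * ν j := by
  induction n with
  | zero =>
    unfold N2 un
    simp
  | succ n ih =>
    have h1 := N2_comb ((un_dc hν n).F (hν n)) (Dc_ee (hν n)) (2 * ν n)
    have e : un ν (n + 1) = fun y => F (ν n) (un ν n) y + 2 * ν n * ee (ν n) y := rfl
    rw [e, h1, orth (un_dc hν n) (hν n), N2_F (un_dc hν n) (hν n), N2_ee (hν n), ih,
      Finset.sum_range_succ]
    have := (hν n).ne'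
    field_simp
    ring

lemma y_F (μ : ℝ) {f : ℝ → ℝ} (hf : Continuous f) (y : ℝ) :
    y * F μ f y = F μ (fun y => y * f y) y - 2 * μ * E μ (E μ f) y := by
  unfold F
  have h := y_E μ hf y
  linear_combination (-2 * μ) * h

lemma y_un (n : ℕ) (y : ℝ) : y * un ν (n + 1) y =
    F (ν n) (fun y => y * un ν n y) y + 2 * ν n * Bn ν n (fun y => y * ee (ν n) y) y := by
  rw [un_succ_apply, mul_add, y_F (ν n) (un_cont n)]
  have h1 : (fun y => y * ee (ν n) y) = E (ν n) (ee (ν n)) := funext fun y => y_ee (ν n) y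
  rw [h1, ← E_Bn (ν n) n (ee_cont (ν n))]
  have h2 : Bn ν n (ee (ν n)) = fun y => ee (ν n) y - E (ν n) (un ν n) y :=
    funext fun y => (ee_sub (ν n) n y).symm
  rw [h2, E_sub (ν n) (ee_cont _) (E_cont _ (un_cont n))]
  have h3 := y_ee (ν n) y
  linear_combination (2 * ν n) * h3

lemma sqrt_aux {μ : ℝ} (hμ : 0 < μ) : Real.sqrt (1 / (4 * μ ^ 3)) = 1 / (2 * μ * Real.sqrt μ) := by
  have h1 : 1 / (4 * μ ^ 3) = (1 / (2 * μ * Real.sqrt μ)) ^ 2 := by
    have : Real.sqrt μ ^ 2 = μ := Real.sq_sqrt hμ.le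
    rw [div_pow, mul_pow, mul_pow, this]
    ring
  rw [h1, Real.sqrt_sq (by positivity)]

lemma sqrt_aux2 {μ : ℝ} (hμ : 0 < μ) : Real.sqrt (1 / (4 * μ)) = 1 / (2 * Real.sqrt μ) := by
  have h1 : 1 / (4 * μ) = (1 / (2 * Real.sqrt μ)) ^ 2 := by
    have : Real.sqrt μ ^ 2 = μ := Real.sq_sqrt hμ.le
    rw [div_pow, mul_pow, this]
    ring
  rw [h1, Real.sqrt_sq (by positivity)]

lemma nn_yun (hν : ∀ j, 0 < ν j) (n : ℕ) :
    nn (fun y => y * un ν n y) ≤ ∑ j ∈ Finset.range n, 1 / Real.sqrt (ν j) := by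
  induction n with
  | zero =>
    unfold nn N2 un
    simp
  | succ n ih =>
    have e : (fun y => y * un ν (n + 1) y) = fun y => F (ν n) (fun y => y * un ν n y) y +
        2 * ν n * Bn ν n (fun y => y * ee (ν n) y) y := funext fun y => y_un n y
    rw [e, Finset.sum_range_succ]
    have hd := (Dc_ee (hν n)).ymul
    have h1 := nn_add ((un_dc hν n).ymul.F (hν n)) ((Bn_dc hν n hd).smul (2 * ν n))
    refine h1.trans (add_le_add ?_ ?_)
    · rw [nn_F (un_dc hν n).ymul (hν n)]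
      exact ih
    · rw [nn_smul _ (by have := hν n; positivity), nn_Bn hν n hd]
      have h2 : nn (fun y => y * ee (ν n) y) = 1 / (2 * ν n * Real.sqrt (ν n)) := by
        unfold nn
        rw [N2_yee (hν n), sqrt_aux (hν n)]
      rw [h2]
      have h3 : 0 < Real.sqrt (ν n) := Real.sqrt_pos.2 (hν n)
      have h4 := hν n
      apply le_of_eq
      field_simp

/-- the group delay at `0` -/
noncomputable def Dl (ν : ℕ → ℝ) (n : ℕ) : ℝ := ∑ j ∈ Finset.range n, 2 / ν j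

lemma y_Bn (a : ℝ) (hν : ∀ j, 0 < ν j) (n : ℕ) (y : ℝ) :
    (y - Dl ν (n + 1)) * Bn ν (n + 1) (ee a) y =
      F (ν n) (fun y => (y - Dl ν n) * Bn ν n (ee a) y) y +
        -(2 / ν n) * P (ν n) (P (ν n) (Bn ν n (ee a))) y := by
  set v : ℝ → ℝ := Bn ν n (ee a) with hv
  have hvc : Continuous v := Bn_cont n (ee_cont a)
  have e0 : Bn ν (n + 1) (ee a) y = F (ν n) v y := rfl
  have e1 : Dl ν (n + 1) = Dl ν n + 2 / ν n := by unfold Dl; rw [Finset.sum_range_succ]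
  have e2 : (fun y => (y - Dl ν n) * v y) = fun y => y * v y + -Dl ν n * v y := by funext y; ring
  have e3 : E (ν n) (P (ν n) v) y = E (ν n) v y - ν n * E (ν n) (E (ν n) v) y := by
    have h := E_sub (ν n) hvc (cmul (ν n) (E_cont (ν n) hvc)) y
    rw [E_smul] at h
    exact h
  have e4 : P (ν n) (P (ν n) v) y = v y - ν n * E (ν n) v y -
      ν n * (E (ν n) v y - ν n * E (ν n) (E (ν n) v) y) := by
    rw [← e3]; rfl
  have hyc : Continuous (fun y => y * v y) := continuous_id.mul hvc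
  rw [e0, e1, e2, F_add (ν n) hyc (cmul (-Dl ν n) hvc), F_smul, e4]
  have h1 := y_F (ν n) hvc y
  have h2 : F (ν n) (fun y => y * v y) y = y * F (ν n) v y + 2 * ν n * E (ν n) (E (ν n) v) y := by
    linarith
  rw [h2]
  have h4 := (hν n).ne'
  unfold F
  field_simp
  ring

lemma nn_PP (a : ℝ) (ha : 0 < a) (hν : ∀ j, 0 < ν j) (n : ℕ) :
    nn (P (ν n) (P (ν n) (Bn ν n (ee a)))) ≤ 1 / (2 * Real.sqrt (ν n)) := by
  rw [P_Bn _ n (ee_cont a), P_Bn _ n (P_cont _ (ee_cont a)),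
    nn_Bn hν n (((Dc_ee ha).P (hν n)).P (hν n)), P_ee_comm (ν n) a, P_P _ _ (ee_cont _)]
  refine (nn_E' ((Dc_ee (hν n)).P (hν n)) ha).trans ?_
  unfold nn
  have : N2 (P (ν n) (ee (ν n))) = 1 / (4 * ν n) := N2_E'ee (hν n)
  rw [this, sqrt_aux2 (hν n)]

lemma nn_yBn (a : ℝ) (ha : 0 < a) (hν : ∀ j, 0 < ν j) (n : ℕ) :
    nn (fun y => (y - Dl ν n) * Bn ν n (ee a) y) ≤
      1 / (2 * a * Real.sqrt a) + ∑ j ∈ Finset.range n, 1 / (ν j * Real.sqrt (ν j)) := by
  induction n with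
  | zero =>
    have e : (fun y => (y - Dl ν 0) * Bn ν 0 (ee a) y) = fun y => y * ee a y := by
      funext y
      unfold Dl
      simp [Bn]
    rw [e]
    unfold nn
    rw [N2_yee ha, sqrt_aux ha]
    simp
  | succ n ih =>
    have e : (fun y => (y - Dl ν (n + 1)) * Bn ν (n + 1) (ee a) y) = fun y =>
        F (ν n) (fun y => (y - Dl ν n) * Bn ν n (ee a) y) y +
        -(2 / ν n) * P (ν n) (P (ν n) (Bn ν n (ee a))) y := funext fun y => y_Bn a hν n y
    have hb := Bn_dc hν n (Dc_ee ha)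
    have hp := (hb.P (hν n)).P (hν n)
    rw [e, Finset.sum_range_succ, ← add_assoc]
    refine (nn_add ((hb.const_sub_mul (Dl ν n)).F (hν n)) (hp.smul _)).trans (add_le_add ?_ ?_)
    · rw [nn_F (hb.const_sub_mul _) (hν n)]
      exact ih
    · have e2 : nn (fun y => -(2 / ν n) * P (ν n) (P (ν n) (Bn ν n (ee a))) y) =
          nn (fun y => (2 / ν n) * P (ν n) (P (ν n) (Bn ν n (ee a))) y) := by
        unfold nn N2
        congr 1
        refine integral_congr_ae (Eventually.of_forall fun y => ?_)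
        simp only
        ring
      have h4 := hν n
      rw [e2, nn_smul _ (by positivity)]
      refine (mul_le_mul_of_nonneg_left (nn_PP a ha hν n) (by positivity)).trans (le_of_eq ?_)
      have h3 : 0 < Real.sqrt (ν n) := Real.sqrt_pos.2 (hν n)
      field_simp

end

/-! ### from `L²` norms to `L¹` norms -/

lemma l1_gen {f : ℝ → ℝ} (hf : Dc f) {A B W D : ℝ} (hA : 0 < A) (hB : 0 < B) (hW : 0 < W)
    (h1 : nn f ≤ A) (h2 : nn (fun y => (y - D) * f y) ≤ B)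
    (hw : ∫ y in Ioi (0:ℝ), (1 + (A / B * (y - D)) ^ 2)⁻¹ ≤ W / (A / B))
    (hwi : IntegrableOn (fun y : ℝ => (1 + (A / B * (y - D)) ^ 2)⁻¹) (Ioi 0)) :
    ∫ y in Ioi (0:ℝ), |f y| ≤ Real.sqrt (2 * W * (A * B)) := by
  set R : ℝ := Real.sqrt (2 * W * (A * B)) with hR
  have hR0 : 0 < R := Real.sqrt_pos.2 (by positivity)
  have hR2 : R ^ 2 = 2 * W * (A * B) := Real.sq_sqrt (by positivity)
  set b : ℝ := A / B with hb
  have hb0 : 0 < b := by positivity
  set lam : ℝ := 2 * A ^ 2 / R with hlam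
  have hl0 : 0 < lam := by positivity
  have hg := hf.const_sub_mul D
  have i1 : Integrable (fun y => |f y|) (volume.restrict (Ioi (0:ℝ))) := hf.int.abs
  have i2 : Integrable (fun y : ℝ => lam / 2 * (1 + (b * (y - D)) ^ 2)⁻¹)
      (volume.restrict (Ioi (0:ℝ))) := hwi.const_mul _
  have i3 : Integrable (fun y => f y ^ 2) (volume.restrict (Ioi (0:ℝ))) := hf.sq.int
  have i4 : Integrable (fun y => b ^ 2 * ((y - D) * f y) ^ 2) (volume.restrict (Ioi (0:ℝ))) :=
    (hg.sq.int).const_mul _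
  have i5 : Integrable (fun y => f y ^ 2 + b ^ 2 * ((y - D) * f y) ^ 2)
      (volume.restrict (Ioi (0:ℝ))) := i3.add i4
  have i6 : Integrable (fun y => 1 / (2 * lam) * (f y ^ 2 + b ^ 2 * ((y - D) * f y) ^ 2))
      (volume.restrict (Ioi (0:ℝ))) := i5.const_mul _
  have h3 : ∫ y in Ioi (0:ℝ), |f y| ≤ ∫ y in Ioi (0:ℝ), (lam / 2 * (1 + (b * (y - D)) ^ 2)⁻¹ +
      1 / (2 * lam) * (f y ^ 2 + b ^ 2 * ((y - D) * f y) ^ 2)) := by
    refine integral_mono i1 (i2.add i6) fun y => ?_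
    show |f y| ≤ _
    set w : ℝ := 1 + (b * (y - D)) ^ 2 with hw
    have hw0 : 0 < w := by positivity
    have e : f y ^ 2 + b ^ 2 * ((y - D) * f y) ^ 2 = w * f y ^ 2 := by rw [hw]; ring
    rw [e]
    have key : 0 ≤ (lam - w * |f y|) ^ 2 / (2 * lam * w) := by positivity
    have e2 : (lam - w * |f y|) ^ 2 / (2 * lam * w) =
        lam / 2 * w⁻¹ + 1 / (2 * lam) * (w * f y ^ 2) - |f y| := by
      have : f y ^ 2 = |f y| ^ 2 := (sq_abs _).symm
      rw [this]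
      field_simp
      ring
    linarith
  rw [integral_add i2 i6, integral_const_mul, integral_const_mul, integral_add i3 i4,
    integral_const_mul] at h3
  have h4 : ∫ y in Ioi (0:ℝ), f y ^ 2 ≤ A ^ 2 := by
    have : N2 f ≤ A ^ 2 := by rw [← nn_sq]; exact pow_le_pow_left₀ (nn_nonneg _) h1 2
    exact this
  have h5 : ∫ y in Ioi (0:ℝ), ((y - D) * f y) ^ 2 ≤ B ^ 2 := by
    have : N2 (fun y => (y - D) * f y) ≤ B ^ 2 := by
      rw [← nn_sq]; exact pow_le_pow_left₀ (nn_nonneg _) h2 2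
    exact this
  have h6 : lam / 2 * (∫ y in Ioi (0:ℝ), (1 + (b * (y - D)) ^ 2)⁻¹) ≤ lam / 2 * (W / b) :=
    mul_le_mul_of_nonneg_left hw (by positivity)
  have h7 : 1 / (2 * lam) * ((∫ y in Ioi (0:ℝ), f y ^ 2) +
      b ^ 2 * ∫ y in Ioi (0:ℝ), ((y - D) * f y) ^ 2) ≤ 1 / (2 * lam) * (A ^ 2 + b ^ 2 * B ^ 2) := by
    apply mul_le_mul_of_nonneg_left _ (by positivity)
    have := mul_le_mul_of_nonneg_left h5 (sq_nonneg b)
    linarith
  have e8 : b ^ 2 * B ^ 2 = A ^ 2 := by rw [hb]; field_simp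
  have e9 : 1 / (2 * lam) * (A ^ 2 + A ^ 2) = R / 2 := by rw [hlam]; field_simp; norm_num
  have e10 : lam / 2 * (W / b) = R / 2 := by
    have : lam / 2 * (W / b) = W * (A * B) / R := by rw [hlam, hb]; field_simp
    rw [this, div_eq_iff hR0.ne']
    nlinarith
  rw [e8, e9] at h7
  rw [e10] at h6
  linarith

lemma w_int (b D : ℝ) (hb : 0 < b) : Integrable (fun y : ℝ => (1 + (b * (y - D)) ^ 2)⁻¹) := by
  have h1 := (integrable_inv_one_add_sq).comp_mul_left' hb.ne'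
  exact h1.comp_sub_right D

lemma l1_two {f : ℝ → ℝ} (hf : Dc f) {A B D : ℝ} (hA : 0 < A) (hB : 0 < B)
    (h1 : nn f ≤ A) (h2 : nn (fun y => (y - D) * f y) ≤ B) :
    ∫ y in Ioi (0:ℝ), |f y| ≤ Real.sqrt (2 * Real.pi * (A * B)) := by
  have hb : 0 < A / B := by positivity
  refine l1_gen hf hA hB Real.pi_pos h1 h2 ?_ (w_int _ D hb).integrableOn
  have h3 : ∫ y in Ioi (0:ℝ), (1 + (A / B * (y - D)) ^ 2)⁻¹ ≤
      ∫ y : ℝ, (1 + (A / B * (y - D)) ^ 2)⁻¹ :=
    setIntegral_le_integral (w_int _ D hb) (Eventually.of_forall fun y => by positivity)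
  refine h3.trans (le_of_eq ?_)
  rw [integral_sub_right_eq_self (fun y : ℝ => (1 + (A / B * y) ^ 2)⁻¹) D,
    Measure.integral_comp_mul_left (fun y : ℝ => (1 + y ^ 2)⁻¹) (A / B), integral_univ_inv_one_add_sq,
    abs_of_pos (by positivity), smul_eq_mul]
  field_simp

lemma l1_one {f : ℝ → ℝ} (hf : Dc f) {A B : ℝ} (hA : 0 < A) (hB : 0 < B)
    (h1 : nn f ≤ A) (h2 : nn (fun y => y * f y) ≤ B) :
    ∫ y in Ioi (0:ℝ), |f y| ≤ Real.sqrt (Real.pi * (A * B)) := by
  have hb : 0 < A / B := by positivity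
  have h3 := l1_gen (D := 0) (W := Real.pi / 2) hf hA hB (by positivity) h1 (by simpa using h2) (by
    have e : ∀ y : ℝ, (1 + (A / B * (y - 0)) ^ 2)⁻¹ = (1 + (A / B * y) ^ 2)⁻¹ := fun y => by
      rw [sub_zero]
    simp_rw [e]
    rw [integral_comp_mul_left_Ioi (fun y : ℝ => (1 + y ^ 2)⁻¹) 0 hb, mul_zero,
      integral_Ioi_inv_one_add_sq, Real.arctan_zero, smul_eq_mul]
    apply le_of_eq
    field_simp
    ring) (w_int _ 0 hb).integrableOn
  refine h3.trans (le_of_eq ?_)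
  congr 1
  ring

end Pool.Agent.L5helper95.BA
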