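import Pool.Agent.L5helper95.BA.K2

/-!
# The kernels of the powers of the Beurling transform on the angular classes: total variation
-/

set_option autoImplicit false

namespace Pool.Agent.L5helper95.BA

open MeasureTheory Set Filter Topology

/-- the kernels, normalised for `L^∞` -/
noncomputable def ks (a : ℝ) : ℕ → ℝ → ℝ
  | 0 => fun _ => 0
  | n + 1 => fun y => ks a n y - (2 * a + 2 * n + 1) * E (a + n) (ks a n) y +
      (2 * a + 2 * n + 1) * ee (a + n) y

lemma ks_cont (a : ℝ) (n : ℕ) : Continuous (ks a n) := by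
  induction n with
  | zero => exact continuous_const
  | succ n ih =>
    exact (ih.sub (continuous_const.mul (E_cont _ ih))).add (continuous_const.mul (ee_cont _))

lemma ks_eq (a : ℝ) (n : ℕ) (y : ℝ) :
    ks a n y = Real.exp (1 / 2 * y) * un (fun j => a + 1 / 2 + j) n y := by
  induction n generalizing y with
  | zero => simp [ks, un]
  | succ n ih =>
    have h1 : ks a n = fun y => Real.exp (1 / 2 * y) * un (fun j => a + 1 / 2 + j) n y := funext ih
    have h2 := E_shift (a + 1 / 2 + n) (1 / 2) (un (fun j => a + 1 / 2 + j) n) y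
    have e1 : a + 1 / 2 + (n : ℝ) - 1 / 2 = a + n := by ring
    rw [e1] at h2
    have h3 : ee (a + n) y = Real.exp (1 / 2 * y) * ee (a + 1 / 2 + n) y := by
      unfold ee
      rw [← Real.exp_add]
      congr 1
      ring
    show ks a n y - (2 * a + 2 * n + 1) * E (a + n) (ks a n) y + (2 * a + 2 * n + 1) * ee (a + n) y
      = Real.exp (1 / 2 * y) * (F (a + 1 / 2 + n) (un (fun j => a + 1 / 2 + j) n) y +
        2 * (a + 1 / 2 + n) * ee (a + 1 / 2 + n) y)
    rw [h1, ← h2, h3]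
    unfold F
    ring

lemma F_lin (μ c d : ℝ) {f g : ℝ → ℝ} (hf : Continuous f) (hg : Continuous g) :
    F μ (fun y => c * f y + d * g y) = fun y => c * F μ f y + d * F μ g y := by
  funext y
  rw [F_add μ (cmul c hf) (cmul d hg), F_smul, F_smul]

lemma Bn_lin (ν : ℕ → ℝ) (n : ℕ) (c d : ℝ) {f g : ℝ → ℝ} (hf : Continuous f) (hg : Continuous g) :
    Bn ν n (fun y => c * f y + d * g y) = fun y => c * Bn ν n f y + d * Bn ν n g y := by
  induction n with
  | zero => rfl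
  | succ n ih =>
    show F (ν n) (Bn ν n (fun y => c * f y + d * g y)) = _
    rw [ih, F_lin (ν n) c d (Bn_cont n hf) (Bn_cont n hg)]
    rfl

/-- the main identity for the kernels -/
lemma ks_eq2 (a : ℝ) (n : ℕ) (y : ℝ) :
    ks a n y = un (fun j => a + 1 + j) n y - n * Bn (fun j => a + 1 + j) n (ee a) y := by
  set ν : ℕ → ℝ := fun j => a + 1 + j with hν
  induction n generalizing y with
  | zero => simp [ks, un]
  | succ n ih =>
    set u := un ν n with hu
    set v := Bn ν n (ee a) with hv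
    have huc : Continuous u := un_cont n
    have hvc : Continuous v := Bn_cont n (ee_cont a)
    have hk : ks a n = fun y => u y - n * v y := funext ih
    -- `e_α - E_α k = v`
    have h1 : ee (a + n) y - E (a + n) (ks a n) y = v y := by
      have e1 : E (a + n) (ks a n) y = E (a + n) u y - n * E (a + n) v y := by
        rw [hk, E_sub _ huc (cmul (n : ℝ) hvc), E_smul]
      have e2 : ee (a + n) y - E (a + n) u y = Bn ν n (ee (a + n)) y := ee_sub (a + n) n y
      have e3 : v = fun y => 1 * Bn ν n (ee (a + n)) y + n * Bn ν n (E (a + n) (ee a)) y := by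
        rw [← Bn_lin ν n 1 n (ee_cont _) (E_cont _ (ee_cont a)), hv]
        congr 1
        funext y
        have := E_ee (a + n) a y
        have e : a + (n : ℝ) - a = n := by ring
        rw [e] at this
        linarith
      have e4 : Bn ν n (E (a + n) (ee a)) y = E (a + n) v y := by
        rw [hv, E_Bn _ n (ee_cont a)]
      have e5 := congrFun e3 y
      rw [e4] at e5
      linarith
    have h2 : ee (ν n) y - E (ν n) u y = Bn ν n (ee (ν n)) y := ee_sub (ν n) n y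
    have h3 : ((n : ℝ) + 1) * E (ν n) v y = v y - Bn ν n (ee (ν n)) y := by
      have e1 : Bn ν n (fun y => 1 * ee a y + -1 * ee (ν n) y) = fun y => 1 * Bn ν n (ee a) y +
          -1 * Bn ν n (ee (ν n)) y := Bn_lin ν n 1 (-1) (ee_cont a) (ee_cont (ν n))
      have e2 : Bn ν n (fun y => ((n : ℝ) + 1) * E (ν n) (ee a) y + 0 * ee a y) = fun y =>
          ((n : ℝ) + 1) * Bn ν n (E (ν n) (ee a)) y + 0 * Bn ν n (ee a) y :=
        Bn_lin ν n ((n : ℝ) + 1) 0 (E_cont _ (ee_cont a)) (ee_cont a)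
      have e3 : (fun y => ((n : ℝ) + 1) * E (ν n) (ee a) y + 0 * ee a y) =
          fun y => 1 * ee a y + -1 * ee (ν n) y := by
        funext y
        have := E_ee (ν n) a y
        have e : ν n - a = n + 1 := by rw [hν]; ring
        rw [e] at this
        linarith
      rw [e3, e1] at e2
      have e4 := congrFun e2 y
      rw [← E_Bn (ν n) n (ee_cont a)] at e4
      linarith
    show ks a n y - (2 * a + 2 * n + 1) * E (a + n) (ks a n) y + (2 * a + 2 * n + 1) * ee (a + n) y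
      = F (ν n) u y + 2 * ν n * ee (ν n) y - ((n + 1 : ℕ) : ℝ) * F (ν n) v y
    have e5 : ks a n y = u y - n * v y := ih y
    have e6 : ν n = a + 1 + n := rfl
    have e7 : E (a + n) (ks a n) y = ee (a + n) y - v y := by linarith
    have e8 : E (ν n) u y = ee (ν n) y - Bn ν n (ee (ν n)) y := by linarith
    rw [e7, e5]
    unfold F
    rw [e8]
    push_cast
    linear_combination (-2 * ν n) * h3 + (-2 * v y) * e6

/-! ### sums -/

lemma sum_inv_sqrt (c : ℝ) (hc : 1 / 2 ≤ c) (n : ℕ) :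
    ∑ j ∈ Finset.range n, 1 / Real.sqrt (c + j) ≤
      2 * (Real.sqrt (c + n - 1 / 2) - Real.sqrt (c - 1 / 2)) := by
  induction n with
  | zero => simp
  | succ n ih =>
    rw [Finset.sum_range_succ]
    have hn : (0 : ℝ) ≤ n := Nat.cast_nonneg n
    have hx : 0 < c + n := by linarith
    set X := Real.sqrt (c + n) with hX
    have hX0 : 0 < X := Real.sqrt_pos.2 hx
    have hX2 : X ^ 2 = c + n := Real.sq_sqrt hx.le
    have e1 : c + ((n + 1 : ℕ) : ℝ) - 1 / 2 = c + n + 1 / 2 := by push_cast; ring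
    rw [e1]
    set P' := Real.sqrt (c + n + 1 / 2) with hP
    set Q := Real.sqrt (c + n - 1 / 2) with hQ
    have hP2 : P' ^ 2 = c + n + 1 / 2 := Real.sq_sqrt (by linarith)
    have hQ2 : Q ^ 2 = c + n - 1 / 2 := Real.sq_sqrt (by linarith)
    have hP0 : 0 < P' := Real.sqrt_pos.2 (by linarith)
    have hQ0 : 0 ≤ Q := Real.sqrt_nonneg _
    have h1 : P' + Q ≤ 2 * X := by
      apply abs_le_of_sq_le_sq' _ (by positivity) |>.2
      nlinarith [sq_nonneg (P' - Q)]
    have h2 : 1 / X ≤ 2 * (P' - Q) := by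
      have e2 : (P' - Q) * (P' + Q) = 1 := by nlinarith
      have h3 : 0 < P' - Q := by
        by_contra h
        push Not at h
        nlinarith
      rw [div_le_iff₀ hX0]
      nlinarith
    linarith

lemma sum_inv_cube (c : ℝ) (hc : 1 / 2 < c) (n : ℕ) :
    ∑ j ∈ Finset.range n, 1 / ((c + j) * Real.sqrt (c + j)) ≤
      2 * (1 / Real.sqrt (c - 1 / 2) - 1 / Real.sqrt (c + n - 1 / 2)) := by
  induction n with
  | zero => simp
  | succ n ih =>
    rw [Finset.sum_range_succ]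
    have hn : (0 : ℝ) ≤ n := Nat.cast_nonneg n
    have hx : 0 < c + n := by linarith
    set X := Real.sqrt (c + n) with hX
    have hX0 : 0 < X := Real.sqrt_pos.2 hx
    have hX2 : X ^ 2 = c + n := Real.sq_sqrt hx.le
    have e1 : c + ((n + 1 : ℕ) : ℝ) - 1 / 2 = c + n + 1 / 2 := by push_cast; ring
    rw [e1]
    set P' := Real.sqrt (c + n + 1 / 2) with hP
    set Q := Real.sqrt (c + n - 1 / 2) with hQ
    have hP2 : P' ^ 2 = c + n + 1 / 2 := Real.sq_sqrt (by linarith)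
    have hQ2 : Q ^ 2 = c + n - 1 / 2 := Real.sq_sqrt (by linarith)
    have hP0 : 0 < P' := Real.sqrt_pos.2 (by linarith)
    have hQ0 : 0 < Q := Real.sqrt_pos.2 (by linarith)
    have h1 : P' + Q ≤ 2 * X := by
      apply abs_le_of_sq_le_sq' _ (by positivity) |>.2
      nlinarith [sq_nonneg (P' - Q)]
    have h4 : P' * Q ≤ X ^ 2 := by
      apply abs_le_of_sq_le_sq' _ (by positivity) |>.2
      have : (P' * Q) ^ 2 = (c + n + 1 / 2) * (c + n - 1 / 2) := by rw [mul_pow, hP2, hQ2]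
      rw [this, hX2]
      nlinarith
    have e2 : (P' - Q) * (P' + Q) = 1 := by nlinarith
    have h2 : 1 / ((c + n) * X) ≤ 2 * (1 / Q - 1 / P') := by
      have e3 : 1 / Q - 1 / P' = 1 / ((P' + Q) * (P' * Q)) := by
        field_simp
        nlinarith
      rw [e3, ← hX2]
      have h5 : (P' + Q) * (P' * Q) ≤ 2 * X * X ^ 2 :=
        mul_le_mul h1 h4 (by positivity) (by positivity)
      have h6 : 1 / (2 * X * X ^ 2) ≤ 1 / ((P' + Q) * (P' * Q)) :=
        one_div_le_one_div_of_le (by positivity) h5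
      have e4 : 1 / (X ^ 2 * X) = 2 * (1 / (2 * X * X ^ 2)) := by field_simp
      rw [e4]
      linarith
    linarith

lemma sum_lin (c : ℝ) (n : ℕ) : ∑ j ∈ Finset.range n, 2 * (c + j) = n * (2 * c + n - 1) := by
  induction n with
  | zero => simp
  | succ n ih =>
    rw [Finset.sum_range_succ, ih]
    push_cast
    ring

/-- the total variation of the products for `L²` -/
lemma l1_un (c : ℝ) (hc : 1 / 2 ≤ c) (n : ℕ) :
    ∫ y in Ioi (0:ℝ), |un (fun j => c + j) n y| ≤ Real.sqrt (2 * Real.pi) * (n : ℝ) ^ (3 / 4 : ℝ) := by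
  rcases Nat.eq_zero_or_pos n with rfl | hn
  · simp [un]
  have hn1 : (1 : ℝ) ≤ n := by exact_mod_cast hn
  have hn0 : (0 : ℝ) < n := by linarith
  set ν : ℕ → ℝ := fun j => c + j with hν
  have hpos : ∀ j, 0 < ν j := fun j => by
    have : (0 : ℝ) ≤ j := Nat.cast_nonneg j
    rw [hν]; simp only; linarith
  set S : ℝ := n * (2 * c + n - 1) with hS
  have hS0 : 0 < S := by
    rw [hS]
    apply mul_pos hn0
    linarith
  have hN : nn (un ν n) = Real.sqrt S := by
    unfold nn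
    rw [N2_un hpos n]
    congr 1
    exact sum_lin c n
  set A := Real.sqrt S with hA
  have hA0 : 0 < A := Real.sqrt_pos.2 hS0
  have hA2 : A ^ 2 = S := Real.sq_sqrt hS0.le
  set P' := Real.sqrt (c + n - 1 / 2) with hP
  set Q := Real.sqrt (c - 1 / 2) with hQ
  have hP2 : P' ^ 2 = c + n - 1 / 2 := Real.sq_sqrt (by linarith)
  have hQ2 : Q ^ 2 = c - 1 / 2 := Real.sq_sqrt (by linarith)
  have hP0 : 0 < P' := Real.sqrt_pos.2 (by linarith)
  have hQ0 : 0 ≤ Q := Real.sqrt_nonneg _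
  have hPQ : (P' - Q) * (P' + Q) = n := by nlinarith
  have hPQ0 : 0 < P' - Q := by
    by_contra h
    push Not at h
    nlinarith
  set B := 2 * (P' - Q) with hB
  have hB0 : 0 < B := by positivity
  have h1 : nn (fun y => y * un ν n y) ≤ B := (nn_yun hpos n).trans (sum_inv_sqrt c hc n)
  have h2 := l1_one (un_dc hpos n) hA0 hB0 hN.le h1
  refine h2.trans ?_
  have hW4' : ((n : ℝ) ^ (3 / 4 : ℝ)) ^ 4 = (n : ℝ) ^ 3 := by
    rw [← Real.rpow_natCast, ← Real.rpow_natCast, ← Real.rpow_mul (by positivity)]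
    norm_num
  have hW0' : 0 ≤ (n : ℝ) ^ (3 / 4 : ℝ) := by positivity
  obtain ⟨W, hW⟩ : ∃ W : ℝ, W = (n : ℝ) ^ (3 / 4 : ℝ) := ⟨_, rfl⟩
  rw [← hW] at hW4' hW0'
  rw [← hW]
  have h3 : Real.sqrt (2 * Real.pi) * W = Real.sqrt (Real.pi * (2 * W ^ 2)) := by
    have e : Real.pi * (2 * W ^ 2) = (2 * Real.pi) * W ^ 2 := by ring
    rw [e, Real.sqrt_mul (by positivity : (0:ℝ) ≤ 2 * Real.pi), Real.sqrt_sq hW0']
  rw [h3]
  apply Real.sqrt_le_sqrt
  apply mul_le_mul_of_nonneg_left _ Real.pi_pos.le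
  have h4 : (2 * W ^ 2) ^ 2 = 4 * (n : ℝ) ^ 3 := by rw [← hW4']; ring
  apply abs_le_of_sq_le_sq' _ (by positivity) |>.2
  rw [h4, mul_pow, hA2]
  have h5 : S = n * (P' ^ 2 + Q ^ 2) := by rw [hP2, hQ2, hS]; ring
  rw [h5, hB]
  -- n (P² + Q²) 4 (P - Q)² ≤ 4 n³ ; n = (P-Q)(P+Q)
  have h6 : (P' ^ 2 + Q ^ 2) * (P' - Q) ^ 2 ≤ (n : ℝ) ^ 2 := by
    rw [← hPQ, mul_pow, mul_comm]
    apply mul_le_mul_of_nonneg_left _ (by positivity)
    nlinarith
  nlinarith

/-- the total variation on the classes away from the extremal one -/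
lemma l1_Bn (a A₀ B₀ : ℝ) (ha : 0 < a) (n : ℕ) (hA : 1 / (2 * a) ≤ A₀ ^ 2) (hA0 : 0 < A₀)
    (hB : 1 / (2 * a * Real.sqrt a) + 2 * (1 / Real.sqrt (a + 1 / 2) - 1 / Real.sqrt (a + 1 / 2 + n)) ≤ B₀) :
    ∫ y in Ioi (0:ℝ), |Bn (fun j => a + 1 + j) n (ee a) y| ≤ Real.sqrt (2 * Real.pi * (A₀ * B₀)) := by
  have hpos : ∀ j : ℕ, 0 < (fun j : ℕ => a + 1 + (j : ℝ)) j := fun j => by
    have : (0 : ℝ) ≤ j := Nat.cast_nonneg j
    simp only; linarith
  have hsa : 0 < Real.sqrt a := Real.sqrt_pos.2 ha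
  have hn0 : (0 : ℝ) ≤ n := Nat.cast_nonneg n
  have hB0 : 0 < B₀ := by
    refine lt_of_lt_of_le ?_ hB
    have h1 : 1 / Real.sqrt (a + 1 / 2 + n) ≤ 1 / Real.sqrt (a + 1 / 2) := by
      apply one_div_le_one_div_of_le (Real.sqrt_pos.2 (by linarith))
      exact Real.sqrt_le_sqrt (by linarith)
    have h2 : 0 < 1 / (2 * a * Real.sqrt a) := by positivity
    linarith
  refine l1_two (D := Dl (fun j => a + 1 + j) n) (Bn_dc hpos n (Dc_ee ha)) hA0 hB0 ?_ ?_
  · rw [nn_Bn hpos n (Dc_ee ha)]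
    unfold nn
    rw [N2_ee ha]
    exact Real.sqrt_le_iff.2 ⟨hA0.le, hA⟩
  · refine (nn_yBn a ha hpos n).trans (le_trans ?_ hB)
    have h1 := sum_inv_cube (a + 1) (by linarith) n
    have e1 : a + 1 - 1 / 2 = a + 1 / 2 := by ring
    have e2 : a + 1 + (n : ℝ) - 1 / 2 = a + 1 / 2 + n := by ring
    rw [e1, e2] at h1
    linarith

lemma E_abs_le {a : ℝ} {f : ℝ → ℝ} {y : ℝ} (hy : 0 ≤ y) :
    |E a f y| ≤ E a (fun y => |f y|) y := by
  unfold E
  rw [abs_mul, abs_of_pos (Real.exp_pos _)]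
  apply mul_le_mul_of_nonneg_left _ (Real.exp_pos _).le
  rw [← Real.norm_eq_abs]
  refine (intervalIntegral.norm_integral_le_integral_norm hy).trans (le_of_eq ?_)
  refine intervalIntegral.integral_congr fun t _ => ?_
  simp only [Real.norm_eq_abs]
  rw [abs_mul, abs_of_pos (Real.exp_pos _)]

lemma Dc.abs {f : ℝ → ℝ} (hf : Dc f) : Dc (fun y => |f y|) := by
  obtain ⟨C, c, hc, h⟩ := hf.2
  exact ⟨hf.1.abs, C, c, hc, fun y hy => by rw [abs_abs]; exact h y hy⟩

lemma l1_E {a : ℝ} (ha : 0 < a) {f : ℝ → ℝ} (hf : Dc f) :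
    ∫ y in Ioi (0:ℝ), |E a f y| ≤ 1 / a * ∫ y in Ioi (0:ℝ), |f y| := by
  have hF := hf.abs
  have h1 := Dc.ftc (hF.E ha) (hF.E' ha) (fun y => E_deriv a hF.cont y)
  rw [E_zero, neg_zero, integral_sub hF.int (((hF.E ha).smul a).int), integral_const_mul] at h1
  have h2 : ∫ y in Ioi (0:ℝ), |E a f y| ≤ ∫ y in Ioi (0:ℝ), E a (fun y => |f y|) y :=
    setIntegral_mono_on (hf.E ha).int.abs (hF.E ha).int measurableSet_Ioi
      fun y hy => E_abs_le (le_of_lt hy)
  refine h2.trans (le_of_eq ?_)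
  have h3 : a * ∫ y in Ioi (0:ℝ), E a (fun y => |f y|) y = ∫ y in Ioi (0:ℝ), |f y| := by linarith
  rw [← h3]
  field_simp

lemma ks_dc (a : ℝ) (ha : 0 < a) (n : ℕ) : Dc (ks a n) := by
  have hpos : ∀ j : ℕ, 0 < (fun j : ℕ => a + 1 + (j : ℝ)) j := fun j => by
    have : (0 : ℝ) ≤ j := Nat.cast_nonneg j
    simp only; linarith
  have e : ks a n = fun y => un (fun j => a + 1 + j) n y - n * Bn (fun j => a + 1 + j) n (ee a) y :=
    funext (ks_eq2 a n)
  rw [e]
  exact (un_dc hpos n).sub ((Bn_dc hpos n (Dc_ee ha)).smul _)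

/-- first bound -/
lemma l1_ks (a A₀ B₀ : ℝ) (ha : 0 < a) (n : ℕ) (hA : 1 / (2 * a) ≤ A₀ ^ 2) (hA0 : 0 < A₀)
    (hB : 1 / (2 * a * Real.sqrt a) + 2 * (1 / Real.sqrt (a + 1 / 2) - 1 / Real.sqrt (a + 1 / 2 + n)) ≤ B₀) :
    ∫ y in Ioi (0:ℝ), |ks a n y| ≤ Real.sqrt (2 * Real.pi) * (n : ℝ) ^ (3 / 4 : ℝ) +
      n * Real.sqrt (2 * Real.pi * (A₀ * B₀)) := by
  have hpos : ∀ j : ℕ, 0 < (fun j : ℕ => a + 1 + (j : ℝ)) j := fun j => by
    have : (0 : ℝ) ≤ j := Nat.cast_nonneg j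
    simp only; linarith
  have h1 := l1_un (a + 1) (by linarith) n
  have h2 := l1_Bn a A₀ B₀ ha n hA hA0 hB
  have i1 := (un_dc hpos n).int.abs
  have i2 := ((Bn_dc hpos n (Dc_ee ha)).int.abs).const_mul (n : ℝ)
  have h3 : ∫ y in Ioi (0:ℝ), |ks a n y| ≤ ∫ y in Ioi (0:ℝ),
      (|un (fun j => a + 1 + j) n y| + n * |Bn (fun j => a + 1 + j) n (ee a) y|) := by
    refine integral_mono (ks_dc a ha n).int.abs (i1.add i2) fun y => ?_
    show |ks a n y| ≤ _
    rw [ks_eq2]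
    refine (abs_sub _ _).trans (le_of_eq ?_)
    rw [abs_mul, Nat.abs_cast]
  rw [integral_add i1 i2, integral_const_mul] at h3
  have h4 := mul_le_mul_of_nonneg_left h2 (Nat.cast_nonneg n : (0:ℝ) ≤ n)
  linarith

/-- second bound -/
lemma l1_ks2 (a : ℝ) (ha : 0 < a) (n : ℕ) :
    1 + ∫ y in Ioi (0:ℝ), |ks a n y| ≤
      (1 + Real.sqrt (2 * Real.pi) * (n : ℝ) ^ (3 / 4 : ℝ)) * (1 + n / a) := by
  have hpos : ∀ j : ℕ, 0 < (fun j : ℕ => a + 1 + (j : ℝ)) j := fun j => by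
    have : (0 : ℝ) ≤ j := Nat.cast_nonneg j
    simp only; linarith
  set ν : ℕ → ℝ := fun j => a + 1 + j with hν
  have h1 := l1_un (a + 1) (by linarith) n
  have hu := un_dc hpos n
  have hv := Bn_dc hpos n (Dc_ee ha)
  have i1 := hu.int.abs
  have i2 := (hv.int.abs).const_mul (n : ℝ)
  have h3 : ∫ y in Ioi (0:ℝ), |ks a n y| ≤ ∫ y in Ioi (0:ℝ),
      (|un ν n y| + n * |Bn ν n (ee a) y|) := by
    refine integral_mono (ks_dc a ha n).int.abs (i1.add i2) fun y => ?_
    show |ks a n y| ≤ _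
    rw [ks_eq2]
    refine (abs_sub _ _).trans (le_of_eq ?_)
    rw [abs_mul, Nat.abs_cast]
  rw [integral_add i1 i2, integral_const_mul] at h3
  have h5 : ∫ y in Ioi (0:ℝ), |Bn ν n (ee a) y| ≤
      1 / a + 1 / a * ∫ y in Ioi (0:ℝ), |un ν n y| := by
    have j1 := (Dc_ee ha).int
    have j2 := (hu.E ha).int.abs
    have h6 : ∫ y in Ioi (0:ℝ), |Bn ν n (ee a) y| ≤ ∫ y in Ioi (0:ℝ), (ee a y + |E a (un ν n) y|) := by
      refine integral_mono hv.int.abs (j1.add j2) fun y => ?_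
      show |Bn ν n (ee a) y| ≤ ee a y + |E a (un ν n) y|
      rw [← ee_sub a n y]
      refine (abs_sub _ _).trans (le_of_eq ?_)
      rw [abs_of_pos (show 0 < ee a y from Real.exp_pos _)]
    rw [integral_add j1 j2] at h6
    have h7 : ∫ y in Ioi (0:ℝ), ee a y = 1 / a := by
      have hd : ∀ y, HasDerivAt (fun y => -(1 / a) * ee a y) (ee a y) y := by
        intro y
        refine ((ee_deriv a y).const_mul (-(1 / a))).congr_deriv ?_
        field_simp
      rw [Dc.ftc ((Dc_ee ha).smul _) (Dc_ee ha) hd, ee_zero]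
      ring
    rw [h7] at h6
    have := l1_E ha hu
    linarith
  set U := ∫ y in Ioi (0:ℝ), |un ν n y| with hU
  set C := Real.sqrt (2 * Real.pi) * (n : ℝ) ^ (3 / 4 : ℝ) with hC
  have hn : (0:ℝ) ≤ n := Nat.cast_nonneg n
  have h6 := mul_le_mul_of_nonneg_left h5 hn
  have h7 : 0 ≤ (n : ℝ) / a := by positivity
  have e : (n : ℝ) * (1 / a + 1 / a * U) = n / a * (1 + U) := by ring
  rw [e] at h6
  have h8 : (1 + U) * (1 + n / a) ≤ (1 + C) * (1 + n / a) := by
    apply mul_le_mul_of_nonneg_right _ (by positivity)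
    linarith
  nlinarith

/-- the bound for exponents below `2` -/
lemma l1_ks_half (a : ℝ) (ha : 0 ≤ a) (n : ℕ) :
    ∫ y in Ioi (0:ℝ), Real.exp (-(1 / 2 * y)) * |ks a n y| ≤
      Real.sqrt (2 * Real.pi) * (n : ℝ) ^ (3 / 4 : ℝ) := by
  have h1 := l1_un (a + 1 / 2) (by linarith) n
  refine le_trans (le_of_eq ?_) h1
  refine integral_congr_ae (Eventually.of_forall fun y => ?_)
  simp only
  rw [ks_eq, abs_mul, abs_of_pos (Real.exp_pos _), ← mul_assoc, ← Real.exp_add]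
  simp

end Pool.Agent.L5helper95.BA
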