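import Pool.Agent.L5helper95.BA.K3

/-!
# The chain of first order operators as one operator with a kernel
-/

set_option autoImplicit false

namespace Pool.Agent.L5helper95.BA

open MeasureTheory Set Filter Topology

lemma intOn_of_zero {f : ℝ → ℂ} (hf : Continuous f) {T : ℝ} (h0 : ∀ y, T ≤ y → f y = 0) (a : ℝ) :
    IntegrableOn f (Ioi a) := by
  have h1 : IntegrableOn f (Icc a (max a T)) := hf.continuousOn.integrableOn_Icc
  have h2 : IntegrableOn f (Ioi (max a T)) := by
    have : IntegrableOn (fun _ : ℝ => (0:ℂ)) (Ioi (max a T)) := integrableOn_zero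
    refine this.congr_fun (fun y hy => ?_) measurableSet_Ioi
    exact (h0 y ((le_max_right _ _).trans (le_of_lt hy))).symm
  refine (h1.union h2).mono_set fun y hy => ?_
  rcases le_or_gt y (max a T) with h | h
  · exact Or.inl ⟨le_of_lt hy, h⟩
  · exact Or.inr h

/-- the fundamental theorem of calculus for functions which vanish on the right -/
lemma ftc0 {g g' : ℝ → ℂ} (hd : ∀ y, HasDerivAt g (g' y) y) (hc : Continuous g') {T : ℝ}
    (h0 : ∀ y, T ≤ y → g y = 0) (a : ℝ) : ∫ y in Ioi a, g' y = -g a := by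
  have h1 : ∀ y, T + 1 ≤ y → g' y = 0 := by
    intro y hy
    have e : g =ᶠ[𝓝 y] fun _ => (0:ℂ) := by
      filter_upwards [Ioi_mem_nhds (show T < y by linarith)] with z hz
      exact h0 z (le_of_lt hz)
    exact (hd y).unique ((hasDerivAt_const y (0:ℂ)).congr_of_eventuallyEq e)
  have h2 : Tendsto g atTop (𝓝 0) := by
    refine tendsto_const_nhds.congr' ?_
    filter_upwards [eventually_ge_atTop T] with y hy
    exact (h0 y hy).symm
  have h3 := integral_Ioi_of_hasDerivAt_of_tendsto' (a := a) (fun y _ => hd y)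
    (intOn_of_zero hc h1 a) h2
  rw [h3]; ring

/-- the primitive from the right -/
noncomputable def J (φ : ℝ → ℂ) (x : ℝ) : ℂ := ∫ t in Ioi x, φ t

lemma J_eq {φ : ℝ → ℂ} (hφ : Continuous φ) {R : ℝ} (h0 : ∀ x, R ≤ x → φ x = 0) (x : ℝ) :
    J φ x = ∫ t in x..R, φ t := by
  unfold J
  have hz : ∫ t in Ioi (max x R), φ t = 0 := by
    rw [setIntegral_congr_fun measurableSet_Ioi (g := fun _ => (0:ℂ))
      (fun t ht => h0 t ((le_max_right _ _).trans (le_of_lt ht)))]
    simp
  rcases le_total x R with h | h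
  · rw [max_eq_right h] at hz
    have h1 := intervalIntegral.integral_interval_add_Ioi (intOn_of_zero hφ h0 x) (intOn_of_zero hφ h0 R)
    rw [hz, add_zero] at h1
    exact h1.symm
  · rw [max_eq_left h] at hz
    rw [hz, intervalIntegral.integral_symm, intervalIntegral.integral_of_le h,
      setIntegral_congr_fun measurableSet_Ioc (g := fun _ => (0:ℂ)) (fun t ht => h0 t (le_of_lt ht.1))]
    simp

lemma J_deriv {φ : ℝ → ℂ} (hφ : Continuous φ) {R : ℝ} (h0 : ∀ x, R ≤ x → φ x = 0) (x : ℝ) :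
    HasDerivAt (J φ) (-φ x) x := by
  have e : J φ = fun x => ∫ t in x..R, φ t := funext (J_eq hφ h0)
  rw [e]
  have h1 := (hφ.integral_hasStrictDerivAt R x).hasDerivAt
  have e2 : (fun x => ∫ t in x..R, φ t) = fun x => -∫ t in R..x, φ t := by
    funext x; exact intervalIntegral.integral_symm _ _
  rw [e2]
  exact h1.neg

lemma J_zero {φ : ℝ → ℂ} {R : ℝ} (h0 : ∀ x, R ≤ x → φ x = 0) (x : ℝ) (hx : R ≤ x) : J φ x = 0 := by
  unfold J
  rw [setIntegral_congr_fun measurableSet_Ioi (g := fun _ => (0:ℂ))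
    (fun t ht => h0 t (hx.trans (le_of_lt ht)))]
  simp

/-- one step: `S k φ = x φ - (k - 1) ∫_x^∞ φ` -/
noncomputable def S (k : ℕ) (φ : ℝ → ℂ) (x : ℝ) : ℂ := x * φ x - ((k : ℂ) - 1) * J φ x

/-- the chain of `m` steps, from the class `2 m + κ` to the class `κ` -/
noncomputable def SS (κ : ℕ) : ℕ → (ℝ → ℂ) → (ℝ → ℂ)
  | 0, φ => φ
  | m + 1, φ => SS κ m (S (2 * m + 2 + κ) φ)

/-- smooth functions which vanish on the right of `R` -/
def Sm (R : ℝ) (φ : ℝ → ℂ) : Prop := ContDiff ℝ (⊤ : ℕ∞) φ ∧ ∀ x, R ≤ x → φ x = 0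

lemma J_sm {R : ℝ} {φ : ℝ → ℂ} (h : Sm R φ) : Sm R (J φ) := by
  refine ⟨?_, J_zero h.2⟩
  refine contDiff_infty_iff_deriv.2 ⟨fun x => (J_deriv h.1.continuous h.2 x).differentiableAt, ?_⟩
  have : deriv (J φ) = fun x => -φ x := funext fun x => (J_deriv h.1.continuous h.2 x).deriv
  rw [this]
  exact h.1.neg

lemma S_sm (k : ℕ) {R : ℝ} {φ : ℝ → ℂ} (h : Sm R φ) : Sm R (S k φ) := by
  refine ⟨?_, fun x hx => ?_⟩
  · exact (Complex.ofRealCLM.contDiff.mul h.1).sub (contDiff_const.mul (J_sm h).1)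
  · unfold S
    rw [h.2 x hx, J_zero h.2 x hx]; simp

lemma SS_sm (κ m : ℕ) {R : ℝ} {φ : ℝ → ℂ} (h : Sm R φ) : Sm R (SS κ m φ) := by
  induction m generalizing φ with
  | zero => exact h
  | succ m ih => exact ih (S_sm _ h)

/-- the function in logarithmic coordinates -/
noncomputable def H (k : ℕ) (φ : ℝ → ℂ) (t : ℝ) : ℂ := (Real.exp (k / 2 * t) : ℂ) * φ (Real.exp t)

lemma H_cont (k : ℕ) {φ : ℝ → ℂ} (h : Continuous φ) : Continuous (H k φ) := by
  unfold H
  fun_prop

lemma H_zero (k : ℕ) {R : ℝ} {φ : ℝ → ℂ} (h : ∀ x, R ≤ x → φ x = 0) :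
    ∀ t, R ≤ t → H k φ t = 0 := by
  intro t ht
  unfold H
  rw [h _ ?_, mul_zero]
  have := Real.add_one_le_exp t
  linarith

lemma exp_cast_deriv (c y : ℝ) :
    HasDerivAt (fun y : ℝ => (Real.exp (c * y) : ℂ)) (c * (Real.exp (c * y) : ℂ)) y := by
  have h1 : HasDerivAt (fun y : ℝ => c * y) c y := by
    have := (hasDerivAt_id y).const_mul c
    simpa using this
  have h2 := h1.exp.ofReal_comp
  refine h2.congr_deriv ?_
  push_cast
  ring

/-- the resolvent from the right -/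
noncomputable def Q (α : ℝ) (G : ℝ → ℂ) (s : ℝ) : ℂ := ∫ r in Ioi (0:ℝ), (ee α r : ℂ) * G (s + r)

lemma Q_eq (α : ℝ) {G : ℝ → ℂ} (hG : Continuous G) {T : ℝ} (h0 : ∀ y, T ≤ y → G y = 0) (s : ℝ) :
    Q α G s = (Real.exp (α * s) : ℂ) * J (fun v => (Real.exp (-α * v) : ℂ) * G v) s := by
  have hc : Continuous (fun v => (Real.exp (-α * v) : ℂ) * G v) := by fun_prop
  have hz : ∀ v, T ≤ v → (Real.exp (-α * v) : ℂ) * G v = 0 := fun v hv => by rw [h0 v hv, mul_zero]
  have h1 : ∀ r : ℝ, HasDerivAt (fun r : ℝ => -((Real.exp (α * s) : ℂ) *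
      J (fun v => (Real.exp (-α * v) : ℂ) * G v) (s + r))) ((ee α r : ℂ) * G (s + r)) r := by
    intro r
    have h2 : HasDerivAt (fun r : ℝ => s + r) 1 r := by simpa using (hasDerivAt_id r).const_add s
    have h3 := ((J_deriv hc hz (s + r)).scomp r h2).const_mul (Real.exp (α * s) : ℂ)
    refine h3.neg.congr_deriv ?_
    simp only [one_smul]
    unfold ee
    have : Real.exp (α * s) * Real.exp (-α * (s + r)) = Real.exp (-(α * r)) := by
      rw [← Real.exp_add]; congr 1; ring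
    rw [← this]
    push_cast
    ring
  have h4 := ftc0 h1 (by unfold ee; fun_prop) (T := T - s) (fun y hy => by
    rw [J_zero hz _ (by linarith)]; simp) 0
  unfold Q
  rw [h4]
  simp

lemma Q_deriv (α : ℝ) {G : ℝ → ℂ} (hG : Continuous G) {T : ℝ} (h0 : ∀ y, T ≤ y → G y = 0) (s : ℝ) :
    HasDerivAt (Q α G) (α * Q α G s - G s) s := by
  have hc : Continuous (fun v => (Real.exp (-α * v) : ℂ) * G v) := by fun_prop
  have hz : ∀ v, T ≤ v → (Real.exp (-α * v) : ℂ) * G v = 0 := fun v hv => by rw [h0 v hv, mul_zero]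
  have e : Q α G = fun s => (Real.exp (α * s) : ℂ) * J (fun v => (Real.exp (-α * v) : ℂ) * G v) s :=
    funext (Q_eq α hG h0)
  have h1 := (exp_cast_deriv α s).mul (J_deriv hc hz s)
  rw [e]
  refine h1.congr_deriv ?_
  have : Real.exp (α * s) * Real.exp (-α * s) = 1 := by rw [← Real.exp_add]; simp
  have h2 : (Real.exp (α * s) : ℂ) * (Real.exp (-α * s) : ℂ) = 1 := by exact_mod_cast this
  linear_combination (-G s) * h2

lemma Q_zero (α : ℝ) {G : ℝ → ℂ} {T : ℝ} (h0 : ∀ y, T ≤ y → G y = 0) (s : ℝ)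
    (hs : T ≤ s) : Q α G s = 0 := by
  unfold Q
  rw [setIntegral_congr_fun measurableSet_Ioi (g := fun _ => (0:ℂ))
    (fun t ht => by
      simp only
      rw [h0 (s + t) (by have : 0 < t := ht; linarith), mul_zero])]
  simp

/-- the kernels are composed -/
lemma swap (α : ℝ) {k : ℝ → ℝ} (hk : Continuous k) {G : ℝ → ℂ} (hG : Continuous G) {T : ℝ}
    (h0 : ∀ y, T ≤ y → G y = 0) :
    ∫ s in Ioi (0:ℝ), (k s : ℂ) * Q α G s = ∫ s in Ioi (0:ℝ), (E α k s : ℂ) * G s := by
  have hQ : ∀ s, HasDerivAt (Q α G) (α * Q α G s - G s) s := Q_deriv α hG h0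
  have hQc : Continuous (Q α G) := continuous_iff_continuousAt.2 fun s => (hQ s).continuousAt
  have hE : ∀ s, HasDerivAt (fun s => (E α k s : ℂ)) ((k s - α * E α k s : ℝ) : ℂ) s :=
    fun s => (E_deriv α hk s).ofReal_comp
  have hEc : Continuous (fun s => (E α k s : ℂ)) := Complex.continuous_ofReal.comp (E_cont α hk)
  have hkc : Continuous (fun s => (k s : ℂ)) := Complex.continuous_ofReal.comp hk
  have h1 : ∀ s, HasDerivAt (fun s => (E α k s : ℂ) * Q α G s)
      ((k s : ℂ) * Q α G s - (E α k s : ℂ) * G s) s := by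
    intro s
    refine ((hE s).mul (hQ s)).congr_deriv ?_
    push_cast
    ring
  have h2 := ftc0 h1 ((hkc.mul hQc).sub (hEc.mul hG)) (T := T)
    (fun y hy => by rw [Q_zero α h0 y hy, mul_zero]) 0
  have i1 := intOn_of_zero (hkc.mul hQc) (T := T) (fun y hy => by
    simp only [Pi.mul_apply]
    rw [Q_zero α h0 y hy, mul_zero]) 0
  have i2 := intOn_of_zero (hEc.mul hG) (T := T) (fun y hy => by
    simp only [Pi.mul_apply]
    rw [h0 y hy, mul_zero]) 0
  have i1' : IntegrableOn (fun s => (k s : ℂ) * Q α G s) (Ioi 0) := i1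
  have i2' : IntegrableOn (fun s => (E α k s : ℂ) * G s) (Ioi 0) := i2
  rw [integral_sub i1' i2', E_zero] at h2
  simp only [Complex.ofReal_zero, zero_mul, neg_zero] at h2
  exact sub_eq_zero.1 h2

/-- one step in logarithmic coordinates -/
lemma H_step (k : ℕ) (hk : 2 ≤ k) {R : ℝ} {φ : ℝ → ℂ} (hφ : Sm R φ) (t : ℝ) :
    H (k - 2) (S k φ) t = H k φ t - ((k : ℂ) - 1) * Q (k / 2 - 1) (H k φ) t := by
  have hc := hφ.1.continuous
  have e0 : ((k - 2 : ℕ) : ℝ) = k - 2 := by
    rw [Nat.cast_sub hk]; norm_num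
  have h1 : ∀ r : ℝ, HasDerivAt (fun r : ℝ => -((Real.exp ((k - 2) / 2 * t) : ℂ) *
      J φ (Real.exp (t + r)))) ((ee (k / 2 - 1) r : ℂ) * H k φ (t + r)) r := by
    intro r
    have h2 : HasDerivAt (fun r : ℝ => Real.exp (t + r)) (Real.exp (t + r)) r := by
      have h3 : HasDerivAt (fun r : ℝ => t + r) 1 r := by simpa using (hasDerivAt_id r).const_add t
      simpa using h3.exp
    have h3 := ((J_deriv hc hφ.2 (Real.exp (t + r))).scomp r h2).const_mul
      (Real.exp ((k - 2) / 2 * t) : ℂ)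
    refine h3.neg.congr_deriv ?_
    have e1 : Real.exp ((k - 2) / 2 * t) * Real.exp (t + r) =
        ee (k / 2 - 1) r * Real.exp (k / 2 * (t + r)) := by
      unfold ee
      rw [← Real.exp_add, ← Real.exp_add]
      congr 1
      ring
    have e2 : (Real.exp ((k - 2) / 2 * t) : ℂ) * (Real.exp (t + r) : ℂ) =
        (ee (k / 2 - 1) r : ℂ) * (Real.exp (k / 2 * (t + r)) : ℂ) := by exact_mod_cast e1
    unfold H
    rw [Complex.real_smul]
    linear_combination (φ (Real.exp (t + r))) * e2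
  have h4 := ftc0 h1 (by
    have := H_cont k hc
    unfold ee
    fun_prop) (T := R - t) (fun y hy => by
    rw [J_zero hφ.2 _ (by have := Real.add_one_le_exp (t + y); linarith)]; simp) 0
  have h5 : Q (k / 2 - 1) (H k φ) t = (Real.exp ((k - 2) / 2 * t) : ℂ) * J φ (Real.exp t) := by
    unfold Q
    rw [h4]
    simp
  rw [h5]
  unfold H S
  rw [e0]
  have e3 : Real.exp ((k - 2) / 2 * t) * Real.exp t = Real.exp (k / 2 * t) := by
    rw [← Real.exp_add]; congr 1; ring
  have e4 : (Real.exp ((k - 2) / 2 * t) : ℂ) * (Real.exp t : ℂ) = (Real.exp (k / 2 * t) : ℂ) := by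
    exact_mod_cast e3
  linear_combination (φ (Real.exp t)) * e4

/-- the chain as one operator -/
theorem rep (κ m : ℕ) {R : ℝ} {φ : ℝ → ℂ} (hφ : Sm R φ) (t : ℝ) :
    H κ (SS κ m φ) t = H (2 * m + κ) φ t -
      ∫ s in Ioi (0:ℝ), (ks (κ / 2) m s : ℂ) * H (2 * m + κ) φ (t + s) := by
  induction m generalizing φ t with
  | zero => simp [SS, ks]
  | succ m ih =>
    have h1 := ih (S_sm (2 * m + 2 + κ) hφ) t
    have hst : ∀ t, H (2 * m + κ) (S (2 * m + 2 + κ) φ) t = H (2 * m + 2 + κ) φ t -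
        (((2 * m + 2 + κ : ℕ) : ℂ) - 1) * Q (κ / 2 + m) (H (2 * m + 2 + κ) φ) t := by
      intro t
      have h2 := H_step (2 * m + 2 + κ) (by omega) hφ t
      have e1 : 2 * m + 2 + κ - 2 = 2 * m + κ := by omega
      have e2 : ((2 * m + 2 + κ : ℕ) : ℝ) / 2 - 1 = κ / 2 + m := by push_cast; ring
      rw [e1, e2] at h2
      exact h2
    show H κ (SS κ m (S (2 * m + 2 + κ) φ)) t = H (2 * (m + 1) + κ) φ t -
      ∫ s in Ioi (0:ℝ), (ks (κ / 2) (m + 1) s : ℂ) * H (2 * (m + 1) + κ) φ (t + s)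
    have e3 : 2 * (m + 1) + κ = 2 * m + 2 + κ := by ring
    rw [e3, h1, hst t]
    set G : ℝ → ℂ := H (2 * m + 2 + κ) φ with hG
    have hGc : Continuous G := H_cont _ hφ.1.continuous
    have hG0 : ∀ y, R ≤ y → G y = 0 := H_zero _ hφ.2
    set β : ℝ := 2 * (κ / 2 : ℝ) + 2 * m + 1 with hβ
    have eβ : (((2 * m + 2 + κ : ℕ) : ℂ) - 1) = (β : ℂ) := by
      rw [hβ]; push_cast; ring
    rw [eβ]
    set α : ℝ := (κ / 2 : ℝ) + m with hα
    -- shifted function
    have hG' : Continuous (fun s => G (t + s)) := by fun_prop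
    have hG0' : ∀ y, R - t ≤ y → (fun s => G (t + s)) y = 0 := fun y hy => hG0 _ (by linarith)
    have hQs : ∀ s, Q α G (t + s) = Q α (fun s => G (t + s)) s := by
      intro s; unfold Q; simp only [add_assoc]
    have hQc : Continuous (Q α (fun s => G (t + s))) :=
      continuous_iff_continuousAt.2 fun s => (Q_deriv α hG' hG0' s).continuousAt
    have hkc : Continuous (fun s => (ks (κ / 2) m s : ℂ)) :=
      Complex.continuous_ofReal.comp (ks_cont _ m)
    have hEc : Continuous (fun s => (E α (ks (κ / 2) m) s : ℂ)) :=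
      Complex.continuous_ofReal.comp (E_cont α (ks_cont _ m))
    have heec : Continuous (fun s => (ee α s : ℂ)) := Complex.continuous_ofReal.comp (ee_cont α)
    have j1 : IntegrableOn (fun s => (ks (κ / 2) m s : ℂ) * G (t + s)) (Ioi 0) :=
      intOn_of_zero (hkc.mul hG') (T := R - t) (fun y hy => by
        show _ * G (t + y) = 0
        rw [hG0 _ (by linarith), mul_zero]) 0
    have j2 : IntegrableOn (fun s => (ks (κ / 2) m s : ℂ) * Q α (fun s => G (t + s)) s) (Ioi 0) :=
      intOn_of_zero (hkc.mul hQc) (T := R - t) (fun y hy => by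
        show _ * Q α (fun s => G (t + s)) y = 0
        rw [Q_zero α hG0' y hy, mul_zero]) 0
    have j3 : IntegrableOn (fun s => (E α (ks (κ / 2) m) s : ℂ) * G (t + s)) (Ioi 0) :=
      intOn_of_zero (hEc.mul hG') (T := R - t) (fun y hy => by
        show _ * G (t + y) = 0
        rw [hG0 _ (by linarith), mul_zero]) 0
    have j4 : IntegrableOn (fun s => (ee α s : ℂ) * G (t + s)) (Ioi 0) :=
      intOn_of_zero (heec.mul hG') (T := R - t) (fun y hy => by
        show _ * G (t + y) = 0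
        rw [hG0 _ (by linarith), mul_zero]) 0
    have h4 : ∫ s in Ioi (0:ℝ), (ks (κ / 2) m s : ℂ) * H (2 * m + κ) (S (2 * m + 2 + κ) φ) (t + s)
        = (∫ s in Ioi (0:ℝ), (ks (κ / 2) m s : ℂ) * G (t + s)) -
          β * ∫ s in Ioi (0:ℝ), (E α (ks (κ / 2) m) s : ℂ) * G (t + s) := by
      rw [← swap α (ks_cont _ m) hG' hG0', ← integral_const_mul, ← integral_sub j1 (j2.const_mul _)]
      refine integral_congr_ae (Eventually.of_forall fun s => ?_)
      simp only
      rw [hst (t + s), eβ, hQs s]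
      ring
    have h5 : ∫ s in Ioi (0:ℝ), (ks (κ / 2) (m + 1) s : ℂ) * G (t + s)
        = (∫ s in Ioi (0:ℝ), (ks (κ / 2) m s : ℂ) * G (t + s)) -
          β * (∫ s in Ioi (0:ℝ), (E α (ks (κ / 2) m) s : ℂ) * G (t + s)) +
          β * ∫ s in Ioi (0:ℝ), (ee α s : ℂ) * G (t + s) := by
      have j5 : Integrable (fun s => (ks (κ / 2) m s : ℂ) * G (t + s) -
          β * ((E α (ks (κ / 2) m) s : ℂ) * G (t + s))) (volume.restrict (Ioi 0)) :=
        j1.sub (j3.const_mul _)
      have j6 : Integrable (fun s => (β : ℂ) * ((ee α s : ℂ) * G (t + s)))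
        (volume.restrict (Ioi 0)) := j4.const_mul _
      rw [← integral_const_mul, ← integral_const_mul, ← integral_sub j1 (j3.const_mul _),
        ← integral_add j5 j6]
      refine integral_congr_ae (Eventually.of_forall fun s => ?_)
      have e : ks (κ / 2) (m + 1) s = ks (κ / 2) m s - β * E α (ks (κ / 2) m) s + β * ee α s := rfl
      simp only
      rw [e]
      push_cast
      ring
    rw [h4, h5]
    have h6 : Q α G t = ∫ s in Ioi (0:ℝ), (ee α s : ℂ) * G (t + s) := rfl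
    rw [h6]
    ring

end Pool.Agent.L5helper95.BA
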