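import Pool.Agent.L5helper95.BA.K4

/-!
# Young's inequality with exponential weights
-/

set_option autoImplicit false

namespace Pool.Agent.L5helper95.BA

open MeasureTheory Set Filter Topology
open scoped ENNReal

lemma holder1 {α : Type*} [MeasurableSpace α] (μ : Measure α) {p : ℝ} (hp : 1 < p)
    {a b : α → ℝ≥0∞} (ha : AEMeasurable a μ) (hb : AEMeasurable b μ) :
    (∫⁻ x, a x * b x ∂μ) ^ p ≤ (∫⁻ x, a x ∂μ) ^ (p - 1) * ∫⁻ x, a x * b x ^ p ∂μ := by
  have hp0 : 0 < p := by linarith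
  have hp1 : 0 < p - 1 := by linarith
  set q : ℝ := p / (p - 1) with hq
  have hq0 : 0 < q := by positivity
  have hc : q.HolderConjugate p := (Real.HolderConjugate.conjExponent hp).symm
  have e1 : ∀ x, a x * b x = (fun x => a x ^ (1 / q)) x * (fun x => a x ^ (1 / p) * b x) x := by
    intro x
    simp only
    rw [← mul_assoc, ← ENNReal.rpow_add_of_nonneg _ _ (by positivity) (by positivity)]
    have : 1 / q + 1 / p = 1 := by
      rw [hq]; field_simp; ring
    rw [this, ENNReal.rpow_one]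
  have h1 := ENNReal.lintegral_mul_le_Lp_mul_Lq μ hc (f := fun x => a x ^ (1 / q))
    (g := fun x => a x ^ (1 / p) * b x) (ha.pow_const _) ((ha.pow_const _).mul hb)
  have e2 : ∫⁻ x, a x * b x ∂μ = ∫⁻ x, ((fun x => a x ^ (1 / q)) * fun x => a x ^ (1 / p) * b x) x ∂μ :=
    lintegral_congr fun x => e1 x
  rw [e2]
  have e3 : ∀ x, (a x ^ (1 / q)) ^ q = a x := fun x => by
    rw [← ENNReal.rpow_mul, one_div_mul_cancel hq0.ne', ENNReal.rpow_one]
  have e4 : ∀ x, (a x ^ (1 / p) * b x) ^ p = a x * b x ^ p := fun x => by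
    rw [ENNReal.mul_rpow_of_nonneg _ _ hp0.le, ← ENNReal.rpow_mul, one_div_mul_cancel hp0.ne',
      ENNReal.rpow_one]
  simp only [e3, e4] at h1
  refine (ENNReal.rpow_le_rpow h1 hp0.le).trans (le_of_eq ?_)
  rw [ENNReal.mul_rpow_of_nonneg _ _ hp0.le, ← ENNReal.rpow_mul, ← ENNReal.rpow_mul,
    one_div_mul_cancel hp0.ne', ENNReal.rpow_one]
  congr 2
  rw [hq]
  field_simp

lemma ofReal_exp_rpow {p : ℝ} (hp : 0 < p) (c : ℝ) :
    ENNReal.ofReal (Real.exp (c / p)) ^ p = ENNReal.ofReal (Real.exp c) := by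
  rw [ENNReal.ofReal_rpow_of_nonneg (Real.exp_pos _).le hp.le, ← Real.exp_mul,
    div_mul_cancel₀ _ hp.ne']

/-- Young's inequality with weights -/
lemma young_t {p : ℝ} (hp : 1 < p) {k : ℝ → ℝ} (hk : Continuous k) {H : ℝ → ℂ} (hH : Continuous H) :
    ∫⁻ t, ENNReal.ofReal (Real.exp t) * ‖∫ s in Ioi (0:ℝ), (k s : ℂ) * H (t + s)‖ₑ ^ p ≤
      (∫⁻ s in Ioi (0:ℝ), ENNReal.ofReal (Real.exp (-(s / p))) * ‖k s‖ₑ) ^ p *
        ∫⁻ t, ENNReal.ofReal (Real.exp t) * ‖H t‖ₑ ^ p := by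
  have hp0 : 0 < p := by linarith
  set a : ℝ → ℝ≥0∞ := fun s => ENNReal.ofReal (Real.exp (-(s / p))) * ‖k s‖ₑ with ha
  set M : ℝ≥0∞ := ∫⁻ s in Ioi (0:ℝ), a s with hM
  have ham : Measurable a := by
    refine Measurable.mul ?_ hk.measurable.enorm
    exact (by fun_prop : Measurable fun s : ℝ => Real.exp (-(s / p))).ennreal_ofReal
  have hbm : ∀ t, Measurable (fun s => ENNReal.ofReal (Real.exp (s / p)) * ‖H (t + s)‖ₑ) := by
    intro t
    have g2 : Measurable (fun s : ℝ => ENNReal.ofReal (Real.exp (s / p))) :=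
      (by fun_prop : Measurable fun s : ℝ => Real.exp (s / p)).ennreal_ofReal
    have g3 : Measurable (fun s : ℝ => ‖H (t + s)‖ₑ) :=
      (hH.comp (continuous_const.add continuous_id)).measurable.enorm
    exact g2.mul g3
  have h1 : ∀ t, ‖∫ s in Ioi (0:ℝ), (k s : ℂ) * H (t + s)‖ₑ ^ p ≤
      M ^ (p - 1) * ∫⁻ s in Ioi (0:ℝ), a s * (ENNReal.ofReal (Real.exp s) * ‖H (t + s)‖ₑ ^ p) := by
    intro t
    have h2 : ‖∫ s in Ioi (0:ℝ), (k s : ℂ) * H (t + s)‖ₑ ≤
        ∫⁻ s in Ioi (0:ℝ), a s * (ENNReal.ofReal (Real.exp (s / p)) * ‖H (t + s)‖ₑ) := by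
      refine (enorm_integral_le_lintegral_enorm _).trans (le_of_eq ?_)
      refine lintegral_congr fun s => ?_
      rw [enorm_mul, ha]
      simp only
      have e1 : ENNReal.ofReal (Real.exp (-(s / p))) * ENNReal.ofReal (Real.exp (s / p)) = 1 := by
        rw [← ENNReal.ofReal_mul (Real.exp_pos _).le, ← Real.exp_add]
        simp
      have e2 : ‖(k s : ℂ)‖ₑ = ‖k s‖ₑ := by
        rw [← ofReal_norm, ← ofReal_norm, Complex.norm_real]
      rw [e2]
      calc ‖k s‖ₑ * ‖H (t + s)‖ₑ = 1 * (‖k s‖ₑ * ‖H (t + s)‖ₑ) := (one_mul _).symm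
        _ = (ENNReal.ofReal (Real.exp (-(s / p))) * ENNReal.ofReal (Real.exp (s / p))) *
            (‖k s‖ₑ * ‖H (t + s)‖ₑ) := by rw [e1]
        _ = _ := by ring
    refine (ENNReal.rpow_le_rpow h2 hp0.le).trans ?_
    refine (holder1 _ hp ham.aemeasurable (hbm t).aemeasurable).trans (le_of_eq ?_)
    congr 1
    refine lintegral_congr fun s => ?_
    rw [ENNReal.mul_rpow_of_nonneg _ _ hp0.le, ofReal_exp_rpow hp0]
  have hjm : Measurable (Function.uncurry fun (t s : ℝ) =>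
      a s * (ENNReal.ofReal (Real.exp (t + s)) * ‖H (t + s)‖ₑ ^ p)) := by
    show Measurable (fun z : ℝ × ℝ => a z.2 * (ENNReal.ofReal (Real.exp (z.1 + z.2)) *
      ‖H (z.1 + z.2)‖ₑ ^ p))
    have g1 : Measurable (fun z : ℝ × ℝ => a z.2) := ham.comp measurable_snd
    have g2 : Measurable (fun z : ℝ × ℝ => ENNReal.ofReal (Real.exp (z.1 + z.2))) :=
      (by fun_prop : Measurable fun z : ℝ × ℝ => Real.exp (z.1 + z.2)).ennreal_ofReal
    have g3 : Measurable (fun z : ℝ × ℝ => ‖H (z.1 + z.2)‖ₑ ^ p) :=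
      ((hH.comp (continuous_fst.add continuous_snd)).measurable.enorm).pow_const _
    exact g1.mul (g2.mul g3)
  have hsm : ∀ t, Measurable (fun s => a s * (ENNReal.ofReal (Real.exp s) * ‖H (t + s)‖ₑ ^ p)) := by
    intro t
    have g2 : Measurable (fun s : ℝ => ENNReal.ofReal (Real.exp s)) :=
      (by fun_prop : Measurable fun s : ℝ => Real.exp s).ennreal_ofReal
    have g3 : Measurable (fun s : ℝ => ‖H (t + s)‖ₑ ^ p) :=
      ((hH.comp (continuous_const.add continuous_id)).measurable.enorm).pow_const _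
    exact ham.mul (g2.mul g3)
  calc ∫⁻ t, ENNReal.ofReal (Real.exp t) * ‖∫ s in Ioi (0:ℝ), (k s : ℂ) * H (t + s)‖ₑ ^ p
      ≤ ∫⁻ t, M ^ (p - 1) * ∫⁻ s in Ioi (0:ℝ),
          a s * (ENNReal.ofReal (Real.exp (t + s)) * ‖H (t + s)‖ₑ ^ p) := by
        refine lintegral_mono fun t => ?_
        refine (mul_le_mul_right (h1 t) _).trans (le_of_eq ?_)
        rw [mul_left_comm, ← lintegral_const_mul _ (hsm t)]
        congr 1
        refine lintegral_congr fun s => ?_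
        rw [Real.exp_add, ENNReal.ofReal_mul (Real.exp_pos _).le]
        ring
    _ = M ^ (p - 1) * ∫⁻ t, ∫⁻ s in Ioi (0:ℝ),
          a s * (ENNReal.ofReal (Real.exp (t + s)) * ‖H (t + s)‖ₑ ^ p) := by
        rw [lintegral_const_mul]
        exact hjm.lintegral_prod_right'
    _ = M ^ (p - 1) * ∫⁻ s in Ioi (0:ℝ), ∫⁻ t,
          a s * (ENNReal.ofReal (Real.exp (t + s)) * ‖H (t + s)‖ₑ ^ p) := by
        rw [lintegral_lintegral_swap]
        exact hjm.aemeasurable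
    _ = M ^ (p - 1) * ∫⁻ s in Ioi (0:ℝ), a s * ∫⁻ t, ENNReal.ofReal (Real.exp t) * ‖H t‖ₑ ^ p := by
        congr 1
        refine lintegral_congr fun s => ?_
        rw [lintegral_const_mul]
        · congr 1
          exact lintegral_add_right_eq_self (fun t => ENNReal.ofReal (Real.exp t) * ‖H t‖ₑ ^ p) s
        · have g2 : Measurable (fun t : ℝ => ENNReal.ofReal (Real.exp (t + s))) :=
            (by fun_prop : Measurable fun t : ℝ => Real.exp (t + s)).ennreal_ofReal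
          have g3 : Measurable (fun t : ℝ => ‖H (t + s)‖ₑ ^ p) :=
            ((hH.comp (continuous_id.add continuous_const)).measurable.enorm).pow_const _
          exact g2.mul g3
    _ = M ^ (p - 1) * (M * ∫⁻ t, ENNReal.ofReal (Real.exp t) * ‖H t‖ₑ ^ p) := by
        rw [lintegral_mul_const _ ham]
    _ = _ := by
        rw [← mul_assoc]
        congr 1
        conv_lhs => rw [← ENNReal.rpow_one M]
        rw [← ENNReal.rpow_mul, ← ENNReal.rpow_add_of_nonneg _ _ (by linarith) (by norm_num)]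
        congr 1
        ring

/-- the operator on the half-line -/
noncomputable def BB (k : ℝ → ℝ) (g : ℝ → ℂ) (x : ℝ) : ℂ :=
  g x - ∫ s in Ioi (0:ℝ), (k s : ℂ) * g (x * Real.exp s)

/-- logarithmic coordinates -/
lemma log_coord (f : ℝ → ℝ≥0∞) :
    ∫⁻ x in Ioi (0:ℝ), f x = ∫⁻ t, ENNReal.ofReal (Real.exp t) * f (Real.exp t) := by
  have h := lintegral_image_eq_lintegral_abs_deriv_mul (s := univ) MeasurableSet.univ
    (fun x _ => (Real.hasDerivAt_exp x).hasDerivWithinAt) Real.exp_injective.injOn f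
  rw [image_univ, Real.range_exp] at h
  rw [h, setLIntegral_univ]
  refine lintegral_congr fun t => ?_
  rw [abs_of_pos (Real.exp_pos _)]

lemma int_meas {k : ℝ → ℝ} (hk : Continuous k) {H : ℝ → ℂ} (hH : Continuous H) :
    Measurable (fun t => ‖∫ s in Ioi (0:ℝ), (k s : ℂ) * H (t + s)‖ₑ) := by
  have h1 : StronglyMeasurable (Function.uncurry fun (t s : ℝ) => (k s : ℂ) * H (t + s)) := by
    apply Continuous.stronglyMeasurable
    fun_prop
  exact (h1.integral_prod_right' (ν := volume.restrict (Ioi 0))).measurable.enorm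

theorem BB_bound {p C : ℝ} (hp : 1 < p) (hC : 0 ≤ C) {k : ℝ → ℝ} (hk : Continuous k)
    (hM : ∫⁻ s in Ioi (0:ℝ), ENNReal.ofReal (Real.exp (-(s / p))) * ‖k s‖ₑ ≤ ENNReal.ofReal C)
    {g : ℝ → ℂ} (hg : Continuous g) :
    ∫⁻ x in Ioi (0:ℝ), ‖BB k g x‖ₑ ^ p ≤
      ENNReal.ofReal ((1 + C) ^ p) * ∫⁻ x in Ioi (0:ℝ), ‖g x‖ₑ ^ p := by
  have hp0 : 0 < p := by linarith
  rw [log_coord, log_coord]
  set H : ℝ → ℂ := fun t => g (Real.exp t) with hH
  have hHc : Continuous H := hg.comp Real.continuous_exp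
  set ν : Measure ℝ := volume.withDensity fun t => ENNReal.ofReal (Real.exp t) with hν
  have hwm : Measurable fun t : ℝ => ENNReal.ofReal (Real.exp t) := by
    exact (by fun_prop : Measurable fun t : ℝ => Real.exp t).ennreal_ofReal
  have hd : ∀ f : ℝ → ℝ≥0∞, Measurable f → ∫⁻ t, ENNReal.ofReal (Real.exp t) * f t = ∫⁻ t, f t ∂ν := by
    intro f hf
    rw [hν, lintegral_withDensity_eq_lintegral_mul _ hwm hf]
    rfl
  have hGm := int_meas hk hHc
  have hHm : Measurable fun t => ‖H t‖ₑ := hHc.measurable.enorm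
  have e1 : ∀ t, BB k g (Real.exp t) = H t - ∫ s in Ioi (0:ℝ), (k s : ℂ) * H (t + s) := by
    intro t
    unfold BB
    simp only [hH, Real.exp_add]
  have h1 : ∫⁻ t, ENNReal.ofReal (Real.exp t) * ‖BB k g (Real.exp t)‖ₑ ^ p ≤
      ∫⁻ t, ((fun t => ‖H t‖ₑ) + fun t => ‖∫ s in Ioi (0:ℝ), (k s : ℂ) * H (t + s)‖ₑ) t ^ p ∂ν := by
    rw [← hd _ ((hHm.add hGm).pow_const p)]
    refine lintegral_mono fun t => ?_
    refine mul_le_mul_right (ENNReal.rpow_le_rpow ?_ hp0.le) _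
    rw [e1]
    exact enorm_sub_le
  have h2 := ENNReal.lintegral_Lp_add_le (μ := ν) hHm.aemeasurable hGm.aemeasurable hp.le
  have h3 := young_t hp hk hHc
  rw [hd _ (hGm.pow_const p), hd _ (hHm.pow_const p)] at h3
  set X : ℝ≥0∞ := ∫⁻ t, ‖H t‖ₑ ^ p ∂ν with hX
  have h4 : (∫⁻ t, ‖∫ s in Ioi (0:ℝ), (k s : ℂ) * H (t + s)‖ₑ ^ p ∂ν) ^ (1 / p) ≤
      ENNReal.ofReal C * X ^ (1 / p) := by
    refine (ENNReal.rpow_le_rpow h3 (by positivity)).trans ?_
    rw [ENNReal.mul_rpow_of_nonneg _ _ (by positivity), ← ENNReal.rpow_mul,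
      mul_one_div_cancel hp0.ne', ENNReal.rpow_one]
    exact mul_le_mul_left hM _
  have h5 : (∫⁻ t, ENNReal.ofReal (Real.exp t) * ‖BB k g (Real.exp t)‖ₑ ^ p) ^ (1 / p) ≤
      ENNReal.ofReal (1 + C) * X ^ (1 / p) := by
    refine (ENNReal.rpow_le_rpow h1 (by positivity)).trans (h2.trans ?_)
    rw [ENNReal.ofReal_add zero_le_one hC, ENNReal.ofReal_one, add_mul, one_mul]
    exact add_le_add le_rfl h4
  have h6 := ENNReal.rpow_le_rpow h5 hp0.le
  rw [← ENNReal.rpow_mul, one_div_mul_cancel hp0.ne', ENNReal.rpow_one,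
    ENNReal.mul_rpow_of_nonneg _ _ hp0.le, ← ENNReal.rpow_mul, one_div_mul_cancel hp0.ne',
    ENNReal.rpow_one, ENNReal.ofReal_rpow_of_nonneg (by linarith) hp0.le] at h6
  rw [← hd _ (hHm.pow_const p)] at hX
  rw [← hX]
  exact h6

end Pool.Agent.L5helper95.BA
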