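import Pool.Agent.L5helper95.BA.K4
import Pool.Agent.Y282.RB.A1
import Pool.Agent.Y282.RB.A2

/-!
# Powers of the Beurling transform on the angular classes: the formula
-/

set_option autoImplicit false

namespace Pool.Agent.L5helper95.BA

open MeasureTheory Filter Topology
open scoped FourierTransform SchwartzMap LineDeriv ContDiff
open Pool.Agent.Y282.RB (Tn)
open Pool.Agent.Y282.RB.A2 (db dd db_rad dd_rad db_iter dd_apply fd_normSq four_db four_dd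
  four_db_iter four_dd_iter Ft_eq Inv_eq)

/-- `g` is the image of `f` under the multiplier `(conj ξ / ξ) ^ n` -/
def Rel (n : ℕ) (f g : 𝓢(ℂ, ℂ)) : Prop := ∀ ξ : ℂ, ξ ≠ 0 →
  (𝓕 g : 𝓢(ℂ, ℂ)) ξ = (starRingEnd ℂ ξ / ξ) ^ n * (𝓕 f : 𝓢(ℂ, ℂ)) ξ

lemma Rel.trans {a b : ℕ} {f g h : 𝓢(ℂ, ℂ)} (h1 : Rel a f g) (h2 : Rel b g h) : Rel (a + b) f h := by
  intro ξ hξ
  rw [h2 ξ hξ, h1 ξ hξ, pow_add]
  ring

lemma Rel.refl (f : 𝓢(ℂ, ℂ)) : Rel 0 f f := fun ξ _ => by simp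

lemma Rel.Tn_eq {n : ℕ} {f g : 𝓢(ℂ, ℂ)} (h : Rel n f g) (z : ℂ) : Tn n f z = g z := by
  have h1 : Tn n f z = ∫ ξ : ℂ, Complex.exp (2 * (Real.pi : ℂ) * Complex.I *
      (((z.re * ξ.re + z.im * ξ.im : ℝ)) : ℂ)) * (𝓕 g : 𝓢(ℂ, ℂ)) ξ := by
    unfold Tn
    refine integral_congr_ae ?_
    have h0 : ∀ᵐ ξ : ℂ, ξ ≠ 0 := by
      rw [ae_iff]
      simp
    filter_upwards [h0] with ξ hξ
    rw [Ft_eq, h ξ hξ]
  rw [h1, Inv_eq, FourierTransform.fourierInv_fourier_eq]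

lemma Rel_db (n : ℕ) (f : 𝓢(ℂ, ℂ)) : Rel n (db^[n] f) (dd^[n] f) := by
  intro ξ hξ
  rw [four_db_iter, four_dd_iter, ← mul_assoc, ← mul_pow]
  congr 2
  field_simp

/-- `z ^ k φ(|z|²)` -/
noncomputable def rk (k : ℕ) (φ : ℝ → ℂ) (z : ℂ) : ℂ := z ^ k * φ (Complex.normSq z)

/-- `conj z ^ k φ(|z|²)` -/
noncomputable def rc (k : ℕ) (φ : ℝ → ℂ) (z : ℂ) : ℂ := (starRingEnd ℂ z) ^ k * φ (Complex.normSq z)

lemma normSq_smooth : ContDiff ℝ ∞ (Complex.normSq : ℂ → ℝ) := by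
  have e : (Complex.normSq : ℂ → ℝ) = fun z => z.re * z.re + z.im * z.im := by
    funext z
    exact Complex.normSq_apply z
  rw [e]
  exact (Complex.reCLM.contDiff.mul Complex.reCLM.contDiff).add
    (Complex.imCLM.contDiff.mul Complex.imCLM.contDiff)

lemma van_compact {R : ℝ} {φ : ℝ → ℂ} (h0 : ∀ x, R ≤ x → φ x = 0) (g : ℂ → ℂ) :
    HasCompactSupport (fun z : ℂ => g z * φ (Complex.normSq z)) := by
  refine HasCompactSupport.intro (isCompact_closedBall (0 : ℂ) (|R| + 1)) fun w hw => ?_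
  rw [Metric.mem_closedBall, dist_zero_right, not_le] at hw
  have h1 : R ≤ Complex.normSq w := by
    rw [Complex.normSq_eq_norm_sq]
    nlinarith [le_abs_self R, abs_nonneg R]
  rw [h0 _ h1, mul_zero]

/-- as a Schwartz function -/
noncomputable def rkS (k : ℕ) {R : ℝ} {φ : ℝ → ℂ} (h : Sm R φ) : 𝓢(ℂ, ℂ) :=
  (van_compact h.2 (fun z => z ^ k)).toSchwartzMap
    ((contDiff_id.pow k).mul (h.1.comp normSq_smooth))

lemma rkS_apply (k : ℕ) {R : ℝ} {φ : ℝ → ℂ} (h : Sm R φ) (z : ℂ) : rkS k h z = rk k φ z := rfl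

noncomputable def rcS (k : ℕ) {R : ℝ} {φ : ℝ → ℂ} (h : Sm R φ) : 𝓢(ℂ, ℂ) :=
  (van_compact h.2 (fun z => (starRingEnd ℂ z) ^ k)).toSchwartzMap
    ((Complex.conjCLE.contDiff.pow k).mul (h.1.comp normSq_smooth))

lemma rcS_apply (k : ℕ) {R : ℝ} {φ : ℝ → ℂ} (h : Sm R φ) (z : ℂ) : rcS k h z = rc k φ z := rfl

/-- one step -/
lemma Rel_step (k : ℕ) {R : ℝ} {φ : ℝ → ℂ} (h : Sm R φ) :
    Rel 1 (rkS (k + 2) h) (rkS k (S_sm (k + 2) h)) := by
  have hJ := J_sm h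
  have hψ : Sm R (fun x => -J φ x) := ⟨hJ.1.neg, fun x hx => by
    show -J φ x = 0
    rw [hJ.2 x hx, neg_zero]⟩
  have hd : ∀ x, HasDerivAt (fun x => -J φ x) (φ x) x := fun x => by
    have := (J_deriv h.1.continuous h.2 x).neg
    rw [neg_neg] at this
    exact this
  have hdiff : Differentiable ℝ (fun x => -J φ x) := fun x => (hd x).differentiableAt
  have h1 : rkS (k + 2) h = db^[1] (rkS (k + 1) hψ) := by
    ext z
    rw [Function.iterate_one, db_rad hdiff (fun z => rfl) z, (hd _).deriv]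
    rfl
  have h2 : rkS k (S_sm (k + 2) h) = dd^[1] (rkS (k + 1) hψ) := by
    ext z
    rw [Function.iterate_one, dd_rad hdiff (fun z => rfl) z, (hd _).deriv]
    show z ^ k * S (k + 2) φ (Complex.normSq z) = _
    unfold S
    push_cast
    ring
  rw [h1, h2]
  exact Rel_db 1 _

/-- the chain -/
lemma Rel_chain (κ m : ℕ) {R : ℝ} {φ : ℝ → ℂ} (h : Sm R φ) :
    Rel m (rkS (2 * m + κ) h) (rkS κ (SS_sm κ m h)) := by
  induction m generalizing φ with
  | zero =>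
    have e : rkS (2 * 0 + κ) h = rkS κ (SS_sm κ 0 h) := by
      ext z
      show z ^ (2 * 0 + κ) * φ (Complex.normSq z) = z ^ κ * φ (Complex.normSq z)
      rw [mul_zero, zero_add]
    rw [e]
    exact Rel.refl _
  | succ m ih =>
    have h1 := Rel_step (2 * m + κ) h
    have h2 := ih (S_sm (2 * m + κ + 2) h)
    have h3 := h1.trans h2
    have e1 : rkS (2 * m + κ + 2) h = rkS (2 * (m + 1) + κ) h := by
      ext z
      show z ^ (2 * m + κ + 2) * φ (Complex.normSq z) = z ^ (2 * (m + 1) + κ) * φ (Complex.normSq z)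
      congr 2
      ring
    have e2 : rkS κ (SS_sm κ m (S_sm (2 * m + κ + 2) h)) = rkS κ (SS_sm κ (m + 1) h) := by
      ext z
      show z ^ κ * SS κ m (S (2 * m + κ + 2) φ) (Complex.normSq z) =
        z ^ κ * SS κ m (S (2 * m + 2 + κ) φ) (Complex.normSq z)
      have : 2 * m + κ + 2 = 2 * m + 2 + κ := by ring
      rw [this]
    rw [e1, e2, add_comm 1 m] at h3
    exact h3

/-! ### from `z ^ κ φ` to `conj z ^ κ φ` -/

lemma fd_rc (m : ℕ) (F : ℝ → ℂ) (z : ℂ) (hF : DifferentiableAt ℝ F (Complex.normSq z)) (v : ℂ) :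
    fderiv ℝ (fun z : ℂ => (starRingEnd ℂ z) ^ m * F (Complex.normSq z)) z v =
      m * (starRingEnd ℂ z) ^ (m - 1) * (starRingEnd ℂ v) * F (Complex.normSq z) +
      (starRingEnd ℂ z) ^ m * (((2 * z.re * v.re + 2 * z.im * v.im : ℝ) : ℂ) *
        deriv F (Complex.normSq z)) := by
  have hc : HasFDerivAt (fun z : ℂ => starRingEnd ℂ z) (Complex.conjCLE : ℂ →L[ℝ] ℂ) z :=
    Complex.conjCLE.hasFDerivAt
  have h1 : HasFDerivAt (fun z : ℂ => (starRingEnd ℂ z) ^ m)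
      (((ContinuousLinearMap.toSpanSingleton ℂ
        (m * (starRingEnd ℂ z) ^ (m - 1) : ℂ)).restrictScalars ℝ).comp
        (Complex.conjCLE : ℂ →L[ℝ] ℂ)) z :=
    HasFDerivAt.comp z ((hasDerivAt_pow m (starRingEnd ℂ z)).hasFDerivAt.restrictScalars ℝ) hc
  have h2 : HasFDerivAt (fun z : ℂ => F (Complex.normSq z))
      ((ContinuousLinearMap.toSpanSingleton ℝ (deriv F (Complex.normSq z))).comp
        ((2 * z.re) • Complex.reCLM + (2 * z.im) • Complex.imCLM)) z :=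
    HasFDerivAt.comp z hF.hasDerivAt.hasFDerivAt (fd_normSq z)
  have h3 := h1.mul h2
  have h4 : HasFDerivAt (fun z : ℂ => (starRingEnd ℂ z) ^ m * F (Complex.normSq z)) _ z := h3
  rw [h4.fderiv]
  simp [Complex.real_smul]
  ring

theorem dd_rc {m : ℕ} {F : ℝ → ℂ} (hF : Differentiable ℝ F) {f : 𝓢(ℂ, ℂ)}
    (hf : ∀ z, f z = (starRingEnd ℂ z) ^ m * F (Complex.normSq z)) (z : ℂ) :
    dd f z = (starRingEnd ℂ z) ^ (m + 1) * deriv F (Complex.normSq z) := by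
  have h1 : (f : ℂ → ℂ) = fun z : ℂ => (starRingEnd ℂ z) ^ m * F (Complex.normSq z) := funext hf
  rw [dd_apply, h1, fd_rc m F z (hF _), fd_rc m F z (hF _)]
  have h2 : (starRingEnd ℂ) z = (z.re : ℂ) - z.im * Complex.I := by
    apply Complex.ext <;> simp
  simp only [Complex.one_re, Complex.one_im, Complex.I_re, Complex.I_im, mul_zero, mul_one,
    add_zero, zero_add, map_one, Complex.conj_I]
  push_cast
  rw [pow_succ]
  linear_combination (1 / 2 * m * (starRingEnd ℂ) z ^ (m - 1) * F (Complex.normSq z)) * Complex.I_sq -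
    (starRingEnd ℂ) z ^ m * deriv F (Complex.normSq z) * h2

theorem dd_rc_iter {F : ℝ → ℂ} (hF : ContDiff ℝ (⊤ : ℕ∞) F) {f : 𝓢(ℂ, ℂ)}
    (hf : ∀ z, f z = F (Complex.normSq z)) (j : ℕ) (z : ℂ) :
    dd^[j] f z = (starRingEnd ℂ z) ^ j * iteratedDeriv j F (Complex.normSq z) := by
  induction j generalizing z with
  | zero => simpa using hf z
  | succ j ih =>
    rw [Function.iterate_succ_apply', dd_rc (m := j) (F := iteratedDeriv j F) ?_ ih,
      iteratedDeriv_succ]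
    exact hF.differentiable_iteratedDeriv j (by exact_mod_cast ENat.natCast_lt_top j)

lemma Rel_conj (κ : ℕ) {R : ℝ} {φ : ℝ → ℂ} (h : Sm R φ) : Rel κ (rkS κ h) (rcS κ h) := by
  obtain ⟨F, hF1, hF2, hF3⟩ := Pool.Agent.Y282.RB.A1.key κ R φ h.1 h.2
  have hF : Sm R F := ⟨hF1, hF2⟩
  have h1 : rkS κ h = db^[κ] (rkS 0 hF) := by
    ext z
    rw [db_iter hF1 (m := 0) (fun z => rfl) κ z, hF3, zero_add]
    rfl
  have h2 : rcS κ h = dd^[κ] (rkS 0 hF) := by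
    ext z
    rw [dd_rc_iter hF1 (fun z => by
      show z ^ 0 * F (Complex.normSq z) = _
      rw [pow_zero, one_mul]) κ z, hF3]
    rfl
  rw [h1, h2]
  exact Rel_db κ _

/-- the value of the power of the Beurling transform -/
lemma Tn_rk (κ m : ℕ) {R : ℝ} {φ : ℝ → ℂ} (h : Sm R φ) (z : ℂ) :
    Tn m (rkS (2 * m + κ) h) z = z ^ κ * SS κ m φ (Complex.normSq z) :=
  (Rel_chain κ m h).Tn_eq z

lemma Tn_rk' (κ m : ℕ) {R : ℝ} {φ : ℝ → ℂ} (h : Sm R φ) (z : ℂ) :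
    Tn (m + κ) (rkS (2 * m + κ) h) z = (starRingEnd ℂ z) ^ κ * SS κ m φ (Complex.normSq z) :=
  ((Rel_chain κ m h).trans (Rel_conj κ (SS_sm κ m h))).Tn_eq z

end Pool.Agent.L5helper95.BA
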