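import Pool.Agent.L5helper95.BA.P1
import Pool.Agent.L5helper95.BA.I1
import Pool.Agent.Y338.BP.E

/-!
# From the plane to the half-line
-/

set_option autoImplicit false

namespace Pool.Agent.L5helper95.BA

open MeasureTheory Set Filter Topology
open scoped ENNReal SchwartzMap ContDiff
open Pool.Agent.Y282.RB (Tn)

/-- polar coordinates -/
lemma polar {f : ℝ → ℝ≥0∞} (hf : Measurable f) :
    ∫⁻ z : ℂ, f (Complex.normSq z) = ENNReal.ofReal Real.pi * ∫⁻ x in Ioi (0:ℝ), f x := by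
  rw [← Complex.lintegral_comp_polarCoord_symm]
  have h1 : ∀ q : ℝ × ℝ, Complex.normSq (Complex.polarCoord.symm q) = q.1 ^ 2 := by
    intro q
    rw [Complex.normSq_eq_norm_sq, Complex.norm_polarCoord_symm, sq_abs]
  simp_rw [h1]
  rw [polarCoord_target]
  have hm : Measurable fun r : ℝ => ENNReal.ofReal r * f (r ^ 2) := by
    have g1 : Measurable fun r : ℝ => ENNReal.ofReal r := ENNReal.measurable_ofReal
    have g2 : Measurable fun r : ℝ => f (r ^ 2) := hf.comp (by fun_prop)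
    exact g1.mul g2
  have h2 : ∫⁻ q in (Ioi (0:ℝ) ×ˢ Ioo (-Real.pi) Real.pi), ENNReal.ofReal q.1 • f (q.1 ^ 2) =
      ∫⁻ r in Ioi (0:ℝ), ∫⁻ _ in Ioo (-Real.pi) Real.pi, ENNReal.ofReal r * f (r ^ 2) := by
    rw [Measure.volume_eq_prod, ← Measure.prod_restrict, lintegral_prod]
    · rfl
    · exact (hm.comp measurable_fst).aemeasurable
  rw [h2]
  have h3 : ∀ r : ℝ, ∫⁻ _ in Ioo (-Real.pi) Real.pi, ENNReal.ofReal r * f (r ^ 2) =
      ENNReal.ofReal Real.pi * (ENNReal.ofReal |2 * r| * f (r ^ 2)) ∨ r ≤ 0 := by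
    intro r
    by_cases hr : r ≤ 0
    · exact Or.inr hr
    left
    push Not at hr
    rw [setLIntegral_const, Real.volume_Ioo, abs_of_pos (by positivity), ENNReal.ofReal_mul (by norm_num)]
    have e : Real.pi - -Real.pi = 2 * Real.pi := by ring
    rw [e, ENNReal.ofReal_mul (by norm_num)]
    ring
  have h4 : ∫⁻ r in Ioi (0:ℝ), ∫⁻ _ in Ioo (-Real.pi) Real.pi, ENNReal.ofReal r * f (r ^ 2) =
      ∫⁻ r in Ioi (0:ℝ), ENNReal.ofReal Real.pi * (ENNReal.ofReal |2 * r| * f (r ^ 2)) := by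
    refine setLIntegral_congr_fun measurableSet_Ioi fun r hr => ?_
    exact (h3 r).resolve_right (not_le.2 hr)
  rw [h4, lintegral_const_mul]
  · congr 1
    have h5 := lintegral_image_eq_lintegral_abs_deriv_mul (s := Ioi (0:ℝ)) (f := fun r => r ^ 2)
      (f' := fun r => 2 * r) measurableSet_Ioi
      (fun x _ => by
        have := (hasDerivAt_pow 2 x).hasDerivWithinAt (s := Ioi 0)
        simpa using this)
      (fun x hx y hy hxy => by
        have hx' : 0 < x := hx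
        have hy' : 0 < y := hy
        exact (pow_left_inj₀ hx'.le hy'.le two_ne_zero).1 hxy) f
    have h6 : (fun r : ℝ => r ^ 2) '' Ioi (0:ℝ) = Ioi 0 := by
      ext y
      constructor
      · rintro ⟨r, hr, rfl⟩
        have : 0 < r := hr
        show 0 < r ^ 2
        positivity
      · intro hy
        have hy' : 0 < y := hy
        exact ⟨Real.sqrt y, Real.sqrt_pos.2 hy', Real.sq_sqrt hy'.le⟩
    rw [h6] at h5
    exact h5.symm
  · have g1 : Measurable fun r : ℝ => ENNReal.ofReal |2 * r| :=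
      ENNReal.measurable_ofReal.comp (by fun_prop)
    have g2 : Measurable fun r : ℝ => f (r ^ 2) := hf.comp (by fun_prop)
    exact g1.mul g2

/-- the radial factor of the function with modulus `g(|z|²)` -/
noncomputable def prof (K : ℕ) (g : ℝ → ℂ) (x : ℝ) : ℂ := g x * (((Real.sqrt x : ℝ) : ℂ) ^ K)⁻¹

lemma prof_gc (K : ℕ) {g : ℝ → ℂ} (hg : GC g) : GC (prof K g) := by
  obtain ⟨h1, ⟨ε, h2, h3⟩, R, h4, h5⟩ := hg
  refine ⟨?_, ⟨ε, h2, fun x hx => by unfold prof; rw [h3 x hx, zero_mul]⟩, R, h4,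
    fun x hx => by unfold prof; rw [h5 x hx, zero_mul]⟩
  rw [contDiff_iff_contDiffAt]
  intro x
  rcases lt_or_ge x ε with hx | hx
  · refine (contDiffAt_const (c := (0 : ℂ))).congr_of_eventuallyEq ?_
    filter_upwards [Iio_mem_nhds hx] with y hy
    unfold prof
    rw [h3 y (le_of_lt hy), zero_mul]
  · have hx0 : 0 < x := by linarith
    unfold prof
    refine ContDiffAt.mul h1.contDiffAt (ContDiffAt.inv ?_ ?_)
    · have e1 : ContDiffAt ℝ ∞ (fun x : ℝ => ((√x : ℝ) : ℂ)) x :=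
        Complex.ofRealCLM.contDiff.contDiffAt.comp x (Real.contDiffAt_sqrt hx0.ne')
      exact e1.pow K
    · exact pow_ne_zero _ (Complex.ofReal_ne_zero.2 (Real.sqrt_pos.2 hx0).ne')

lemma GC.sm {g : ℝ → ℂ} (hg : GC g) : ∃ R, Sm R g := by
  obtain ⟨h1, _, R, _, h5⟩ := hg
  exact ⟨R, h1, h5⟩

lemma norm_rk (K : ℕ) {g : ℝ → ℂ} (z : ℂ) (hz : z ≠ 0) :
    ‖rk K (prof K g) z‖ = ‖g (Complex.normSq z)‖ := by
  unfold rk prof
  have h1 : Real.sqrt (Complex.normSq z) = ‖z‖ := rfl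
  have h2 : (‖z‖ : ℝ) ≠ 0 := norm_ne_zero_iff.2 hz
  rw [norm_mul, norm_mul, norm_inv, norm_pow, norm_pow, Complex.norm_real, h1, norm_norm]
  field_simp

lemma H_prof (K : ℕ) {g : ℝ → ℂ} (t : ℝ) : H K (prof K g) t = g (Real.exp t) := by
  unfold H prof
  have h1 : Real.sqrt (Real.exp t) = Real.exp (t / 2) := by
    rw [Real.sqrt_eq_iff_mul_self_eq (Real.exp_pos _).le (Real.exp_pos _).le, ← Real.exp_add]
    congr 1; ring
  have h2 : ((Real.sqrt (Real.exp t) : ℝ) : ℂ) ^ K = (Real.exp (K / 2 * t) : ℂ) := by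
    rw [h1, ← Complex.ofReal_pow, ← Real.exp_nat_mul]
    congr 2
    ring
  rw [h2]
  have h3 : (Real.exp (K / 2 * t) : ℂ) ≠ 0 := Complex.ofReal_ne_zero.2 (Real.exp_pos _).ne'
  field_simp

/-- the modulus of the image -/
lemma norm_im (κ m : ℕ) {g : ℝ → ℂ} (hg : GC g) (z : ℂ) (hz : z ≠ 0) :
    ‖z‖ ^ κ * ‖SS κ m (prof (2 * m + κ) g) (Complex.normSq z)‖ =
      ‖BB (ks (κ / 2) m) g (Complex.normSq z)‖ := by
  obtain ⟨R, hR⟩ := (prof_gc (2 * m + κ) hg).sm
  have hx : 0 < Complex.normSq z := Complex.normSq_pos.2 hz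
  set x := Complex.normSq z with hxd
  have h1 := rep κ m hR (Real.log x)
  have h2 : H κ (SS κ m (prof (2 * m + κ) g)) (Real.log x) =
      (Real.exp (κ / 2 * Real.log x) : ℂ) * SS κ m (prof (2 * m + κ) g) x := by
    unfold H
    rw [Real.exp_log hx]
  have h3 : BB (ks (κ / 2) m) g x = H κ (SS κ m (prof (2 * m + κ) g)) (Real.log x) := by
    rw [h1]
    unfold BB
    simp_rw [H_prof, Real.exp_add, Real.exp_log hx]
  rw [h3, h2, norm_mul, Complex.norm_real, Real.norm_of_nonneg (Real.exp_pos _).le]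
  congr 1
  have h4 : Real.exp (κ / 2 * Real.log x) = (Real.exp (1 / 2 * Real.log x)) ^ κ := by
    rw [← Real.exp_nat_mul]
    congr 1
    ring
  have h5 : Real.exp (1 / 2 * Real.log x) = ‖z‖ := by
    have h6 : Real.log x = 2 * Real.log ‖z‖ := by
      rw [hxd, Complex.normSq_eq_norm_sq, Real.log_pow]
      norm_num
    rw [h6]
    have : 1 / 2 * (2 * Real.log ‖z‖) = Real.log ‖z‖ := by ring
    rw [this, Real.exp_log (norm_pos_iff.2 hz)]
  rw [h4, h5]

/-- `n` is one of the two powers which the chain of `m` steps describes -/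
lemma norm_Tn (κ m n : ℕ) (hn : n = m ∨ n = m + κ) {R : ℝ} {φ : ℝ → ℂ} (h : Sm R φ) (z : ℂ) :
    ‖Tn n (rkS (2 * m + κ) h) z‖ = ‖z‖ ^ κ * ‖SS κ m φ (Complex.normSq z)‖ := by
  rcases hn with rfl | rfl
  · rw [Tn_rk, norm_mul, norm_pow]
  · rw [Tn_rk', norm_mul, norm_pow, RCLike.norm_conj]

lemma ae_ne' : ∀ᵐ z : ℂ, z ≠ 0 := by
  rw [ae_iff]
  simp

lemma BB_meas {k : ℝ → ℝ} (hk : Continuous k) {g : ℝ → ℂ} (hg : Continuous g) :
    Measurable (BB k g) := by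
  have h1 : StronglyMeasurable (Function.uncurry fun (x s : ℝ) => (k s : ℂ) * g (x * Real.exp s)) := by
    apply Continuous.stronglyMeasurable
    fun_prop
  exact hg.measurable.sub (h1.integral_prod_right' (ν := volume.restrict (Ioi 0))).measurable

/-- the `p`-th powers of the norms -/
lemma lint_im (κ m n : ℕ) (hn : n = m ∨ n = m + κ) {g : ℝ → ℂ} (hg : GC g) {R : ℝ}
    (h : Sm R (prof (2 * m + κ) g)) (p : ℝ) :
    ∫⁻ z : ℂ, ‖Tn n (rkS (2 * m + κ) h) z‖ₑ ^ p =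
      ENNReal.ofReal Real.pi * ∫⁻ x in Ioi (0:ℝ), ‖BB (ks (κ / 2) m) g x‖ₑ ^ p := by
  have hm : Measurable fun x => ‖BB (ks (κ / 2) m) g x‖ₑ ^ p :=
    ((BB_meas (ks_cont _ m) hg.cont).enorm).pow_const p
  rw [← polar hm]
  refine lintegral_congr_ae ?_
  filter_upwards [ae_ne'] with z hz
  rw [← ofReal_norm, ← ofReal_norm, norm_Tn κ m n hn h z, norm_im κ m hg z hz]

lemma lint_f (K : ℕ) {g : ℝ → ℂ} (hg : GC g) {R : ℝ} (h : Sm R (prof K g)) (p : ℝ) :
    ∫⁻ z : ℂ, ‖rkS K h z‖ₑ ^ p = ENNReal.ofReal Real.pi * ∫⁻ x in Ioi (0:ℝ), ‖g x‖ₑ ^ p := by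
  have hm : Measurable fun x => ‖g x‖ₑ ^ p := (hg.cont.measurable.enorm).pow_const p
  rw [← polar hm]
  refine lintegral_congr_ae ?_
  filter_upwards [ae_ne'] with z hz
  rw [← ofReal_norm, ← ofReal_norm, rkS_apply, norm_rk K z hz]

/-- the bound for the exponent `2` -/
lemma Bd_two (κ m : ℕ) : Bd (ks (κ / 2) m) 2 1 := by
  intro g hg
  obtain ⟨R, hR⟩ := (prof_gc (2 * m + κ) hg).sm
  have h1 := Pool.Agent.Y338.BP.T_two (rkS (2 * m + κ) hR) m
  have h2 : ∫⁻ z : ℂ, ‖Tn m (rkS (2 * m + κ) hR) z‖ₑ ^ (2:ℝ) =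
      ∫⁻ z : ℂ, ‖rkS (2 * m + κ) hR z‖ₑ ^ (2:ℝ) := by
    simp only [ENNReal.rpow_ofNat]
    exact h1
  rw [lint_im κ m m (Or.inl rfl) hg hR, lint_f _ hg hR] at h2
  rw [Real.one_rpow, ENNReal.ofReal_one, one_mul]
  have hpi : ENNReal.ofReal Real.pi ≠ 0 := by
    simp [Real.pi_pos]
  exact le_of_eq ((ENNReal.mul_right_inj hpi ENNReal.ofReal_ne_top).1 h2)

end Pool.Agent.L5helper95.BA
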