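import Pool.Agent.L5helper95.BA.P2

/-!
# The bounds on the half-line for all exponents
-/

set_option autoImplicit false

namespace Pool.Agent.L5helper95.BA

open MeasureTheory Set Filter Topology
open scoped ENNReal SchwartzMap ContDiff

lemma lint_of_real {f : ℝ → ℝ} (hf : IntegrableOn f (Ioi 0)) :
    ∫⁻ s in Ioi (0:ℝ), ‖f s‖ₑ = ENNReal.ofReal (∫ s in Ioi (0:ℝ), |f s|) := by
  rw [ofReal_integral_eq_lintegral_ofReal hf.abs (Eventually.of_forall fun x => abs_nonneg _)]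
  refine lintegral_congr fun s => ?_
  rw [← ofReal_norm, Real.norm_eq_abs]

lemma ks_cond (a : ℝ) (ha : 0 < a) (m : ℕ) {p : ℝ} (hp : 0 < p) :
    ∫⁻ s in Ioi (0:ℝ), ENNReal.ofReal (Real.exp (-(s / p))) * ‖ks a m s‖ₑ ≤
      ENNReal.ofReal (∫ s in Ioi (0:ℝ), |ks a m s|) := by
  rw [← lint_of_real (ks_dc a ha m).int]
  refine setLIntegral_mono' measurableSet_Ioi fun s hs => ?_
  have hs' : 0 < s := hs
  have h1 : ENNReal.ofReal (Real.exp (-(s / p))) ≤ 1 := by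
    rw [ENNReal.ofReal_le_one]
    apply Real.exp_le_one_iff.2
    have : 0 < s / p := by positivity
    linarith
  calc ENNReal.ofReal (Real.exp (-(s / p))) * ‖ks a m s‖ₑ ≤ 1 * ‖ks a m s‖ₑ := by gcongr
    _ = _ := one_mul _

lemma ks_cond_half (a : ℝ) (ha : 0 ≤ a) (m : ℕ) {p : ℝ} (hp : 0 < p) (hp2 : p ≤ 2) :
    ∫⁻ s in Ioi (0:ℝ), ENNReal.ofReal (Real.exp (-(s / p))) * ‖ks a m s‖ₑ ≤
      ENNReal.ofReal (∫ s in Ioi (0:ℝ), Real.exp (-(1 / 2 * s)) * |ks a m s|) := by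
  have hpos : ∀ j : ℕ, 0 < (fun j : ℕ => a + 1 / 2 + (j : ℝ)) j := fun j => by
    have : (0 : ℝ) ≤ j := Nat.cast_nonneg j
    simp only; linarith
  have e : ∀ s, Real.exp (-(1 / 2 * s)) * |ks a m s| = |un (fun j => a + 1 / 2 + j) m s| := by
    intro s
    rw [ks_eq, abs_mul, abs_of_pos (Real.exp_pos _), ← mul_assoc, ← Real.exp_add]
    simp
  simp_rw [e]
  rw [← lint_of_real (un_dc hpos m).int]
  refine setLIntegral_mono' measurableSet_Ioi fun s hs => ?_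
  have hs' : 0 < s := hs
  have e2 : ‖un (fun j => a + 1 / 2 + j) m s‖ₑ = ENNReal.ofReal (Real.exp (-(1 / 2 * s))) * ‖ks a m s‖ₑ := by
    rw [← ofReal_norm, ← ofReal_norm, ← ENNReal.ofReal_mul (Real.exp_pos _).le, Real.norm_eq_abs,
      Real.norm_eq_abs, e]
  rw [e2]
  gcongr
  rw [le_div_iff₀ hp]
  nlinarith

/-- the bound at all end points above `2` -/
lemma Bd_top (a : ℝ) (ha : 0 < a) (m : ℕ) {p : ℝ} (hp : 1 < p) :
    Bd (ks a m) p (1 + ∫ s in Ioi (0:ℝ), |ks a m s|) := fun _ hg =>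
  BB_bound hp (integral_nonneg fun _ => abs_nonneg _) (ks_cont a m) (ks_cond a ha m (by linarith))
    hg.cont

lemma Bd_bot (a : ℝ) (ha : 0 ≤ a) (m : ℕ) {p : ℝ} (hp : 1 < p) (hp2 : p ≤ 2) :
    Bd (ks a m) p (1 + ∫ s in Ioi (0:ℝ), Real.exp (-(1 / 2 * s)) * |ks a m s|) := fun _ hg =>
  BB_bound hp (integral_nonneg fun _ => by positivity) (ks_cont a m)
    (ks_cond_half a ha m (by linarith) hp2) hg.cont

/-- the limit of bounds -/
lemma Bd_lim {k : ℝ → ℝ} {p M θ : ℝ} (hM : 1 ≤ M) {f : ℝ → ℝ} (hf : Tendsto f (𝓝[>] 0) (𝓝 θ))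
    (h : ∀ᶠ u in 𝓝[>] (0:ℝ), Bd k p (M ^ f u)) : Bd k p (M ^ θ) := by
  intro g hg
  have hM0 : 0 < M := by linarith
  have h1 : Tendsto (fun u => (M ^ f u) ^ p) (𝓝[>] 0) (𝓝 ((M ^ θ) ^ p)) := by
    refine Tendsto.rpow_const ?_ (Or.inl (by positivity))
    exact ((Real.continuous_const_rpow hM0.ne').tendsto θ).comp hf
  have h2 : Tendsto (fun u => ENNReal.ofReal ((M ^ f u) ^ p) * ∫⁻ x in Ioi 0, ‖g x‖ₑ ^ p) (𝓝[>] 0)
      (𝓝 (ENNReal.ofReal ((M ^ θ) ^ p) * ∫⁻ x in Ioi 0, ‖g x‖ₑ ^ p)) := by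
    refine ENNReal.Tendsto.mul_const ((ENNReal.continuous_ofReal.tendsto _).comp h1) (Or.inl ?_)
    have : 0 < (M ^ θ) ^ p := by positivity
    simpa using this
  exact ge_of_tendsto h2 (h.mono fun u hu => hu g hg)

/-- exponents above `2` -/
lemma Bd_above (κ : ℕ) (hκ : 1 ≤ κ) (m : ℕ) {p : ℝ} (hp : 2 < p) :
    Bd (ks (κ / 2) m) p ((1 + ∫ s in Ioi (0:ℝ), |ks (κ / 2) m s|) ^ (1 - 2 / p)) := by
  have hκ' : (1:ℝ) ≤ κ := by exact_mod_cast hκ
  have ha : (0:ℝ) < κ / 2 := by positivity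
  set M : ℝ := 1 + ∫ s in Ioi (0:ℝ), |ks (κ / 2) m s| with hM
  have hM1 : 1 ≤ M := by
    have : 0 ≤ ∫ s in Ioi (0:ℝ), |ks (κ / 2) m s| := integral_nonneg fun _ => abs_nonneg _
    linarith
  have hp0 : 0 < p := by linarith
  refine Bd_lim hM1 (f := fun u => 1 - (1 / p - u) / (1 / 2 - u)) ?_ ?_
  · have h1 : ContinuousAt (fun u : ℝ => 1 - (1 / p - u) / (1 / 2 - u)) 0 := by
      refine ContinuousAt.sub continuousAt_const (ContinuousAt.div (by fun_prop) (by fun_prop) ?_)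
      norm_num
    have h2 := h1.tendsto.mono_left (nhdsWithin_le_nhds (s := Ioi (0:ℝ)))
    convert h2 using 2
    simp
    ring
  · have h3 : Ioo (0:ℝ) (1 / p) ∈ 𝓝[>] (0:ℝ) := Ioo_mem_nhdsGT (by positivity)
    filter_upwards [h3] with u hu
    have hu0 : 0 < u := hu.1
    have hup : p < 1 / u := by
      rw [lt_div_iff₀ hu0]
      have := hu.2
      rw [lt_div_iff₀ hp0] at this
      linarith
    have h4 := interpB (ks_cont (κ / 2) m) (p₀ := 2) (p := p) (p₁ := 1 / u) (C₀ := 1) (C₁ := M)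
      (by norm_num) hp hup (by norm_num) (by linarith) (Bd_two κ m)
      (Bd_top (κ / 2) ha m (by linarith)) (s := (1 / p - u) / (1 / 2 - u)) (by
        rw [one_div_one_div])
    rw [Real.one_rpow, mul_one] at h4
    exact h4

/-- exponents below `2` -/
lemma Bd_below (κ m : ℕ) {q : ℝ} (hq1 : 1 < q) (hq2 : q < 2) :
    Bd (ks (κ / 2) m) q
      ((1 + ∫ s in Ioi (0:ℝ), Real.exp (-(1 / 2 * s)) * |ks (κ / 2) m s|) ^ (2 / q - 1)) := by
  have ha : (0:ℝ) ≤ κ / 2 := by positivity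
  set M : ℝ := 1 + ∫ s in Ioi (0:ℝ), Real.exp (-(1 / 2 * s)) * |ks (κ / 2) m s| with hM
  have hM1 : 1 ≤ M := by
    have : 0 ≤ ∫ s in Ioi (0:ℝ), Real.exp (-(1 / 2 * s)) * |ks (κ / 2) m s| :=
      integral_nonneg fun _ => by positivity
    linarith
  have hq0 : 0 < q := by linarith
  refine Bd_lim hM1 (f := fun u => (1 / q - 1 / 2) / (1 / (1 + u) - 1 / 2)) ?_ ?_
  · have h1 : ContinuousAt (fun u : ℝ => (1 / q - 1 / 2) / (1 / (1 + u) - 1 / 2)) 0 := by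
      refine ContinuousAt.div continuousAt_const ?_ ?_
      · refine ContinuousAt.sub (ContinuousAt.div continuousAt_const (by fun_prop) (by norm_num))
          continuousAt_const
      · norm_num
    have h2 := h1.tendsto.mono_left (nhdsWithin_le_nhds (s := Ioi (0:ℝ)))
    convert h2 using 2
    norm_num
    ring
  · have h3 : Ioo (0:ℝ) (q - 1) ∈ 𝓝[>] (0:ℝ) := Ioo_mem_nhdsGT (by linarith)
    filter_upwards [h3] with u hu
    have hu0 : 0 < u := hu.1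
    have huq : u < q - 1 := hu.2
    have h4 := interpB (ks_cont (κ / 2) m) (p₀ := 1 + u) (p := q) (p₁ := 2) (C₀ := M) (C₁ := 1)
      (by linarith) (by linarith) hq2 (by linarith) (by norm_num)
      (Bd_bot (κ / 2) ha m (by linarith) (by linarith)) (Bd_two κ m)
      (s := (1 / q - 1 / 2) / (1 / (1 + u) - 1 / 2)) rfl
    rw [Real.one_rpow, one_mul] at h4
    exact h4

lemma Bd.mono {k : ℝ → ℝ} {p C D : ℝ} (hp : 0 ≤ p) (hC : 0 ≤ C) (hCD : C ≤ D) (h : Bd k p C) : Bd k p D := by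
  intro g hg
  refine (h g hg).trans ?_
  gcongr

end Pool.Agent.L5helper95.BA
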