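import Pool.Agent.L5helper95.BA.P3
import Pool.Agent.Y282.RB.K

/-!
# From functions supported in annuli to all Schwartz functions of an angular class
-/

set_option autoImplicit false

namespace Pool.Agent.L5helper95.BA

open MeasureTheory Set Filter Topology
open scoped ENNReal SchwartzMap ContDiff
open Pool.Agent.Y282.RB (Tn)

lemma eL {p : ℝ} (hp : 0 < p) (F : ℂ → ℂ) :
    eLpNorm F (ENNReal.ofReal p) (volume : Measure ℂ) = (∫⁻ z : ℂ, ‖F z‖ₑ ^ p) ^ (1 / p) := by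
  have hP0 : ENNReal.ofReal p ≠ 0 := by
    rw [ne_eq, ENNReal.ofReal_eq_zero, not_le]
    exact hp
  rw [eLpNorm_eq_lintegral_rpow_enorm_toReal hP0 ENNReal.ofReal_ne_top, ENNReal.toReal_ofReal hp.le]

/-- the radial factor -/
noncomputable def unprof (K : ℕ) (φ : ℝ → ℂ) (x : ℝ) : ℂ := ((Real.sqrt x : ℝ) : ℂ) ^ K * φ x

lemma unprof_gc (K : ℕ) {φ : ℝ → ℂ} (h : GC φ) : GC (unprof K φ) := by
  obtain ⟨h1, ⟨ε, h2, h3⟩, R, h4, h5⟩ := h
  refine ⟨?_, ⟨ε, h2, fun x hx => by unfold unprof; rw [h3 x hx, mul_zero]⟩, R, h4,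
    fun x hx => by unfold unprof; rw [h5 x hx, mul_zero]⟩
  rw [contDiff_iff_contDiffAt]
  intro x
  rcases lt_or_ge x ε with hx | hx
  · refine (contDiffAt_const (c := (0 : ℂ))).congr_of_eventuallyEq ?_
    filter_upwards [Iio_mem_nhds hx] with y hy
    unfold unprof
    rw [h3 y (le_of_lt hy), mul_zero]
  · have hx0 : 0 < x := by linarith
    unfold unprof
    have e1 : ContDiffAt ℝ ∞ (fun x : ℝ => ((√x : ℝ) : ℂ)) x :=
      Complex.ofRealCLM.contDiff.contDiffAt.comp x (Real.contDiffAt_sqrt hx0.ne')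
    exact (e1.pow K).mul h1.contDiffAt

lemma prof_unprof (K : ℕ) {φ : ℝ → ℂ} (h : GC φ) : prof K (unprof K φ) = φ := by
  obtain ⟨_, ⟨ε, h2, h3⟩, _⟩ := h
  funext x
  unfold prof unprof
  rcases le_or_gt x 0 with hx | hx
  · rw [h3 x (by linarith)]; simp
  · have : ((Real.sqrt x : ℝ) : ℂ) ≠ 0 := Complex.ofReal_ne_zero.2 (Real.sqrt_pos.2 hx).ne'
    field_simp

lemma plane_GC (κ m n : ℕ) (hn : n = m ∨ n = m + κ) {p C : ℝ} (hp : 0 < p) (hC : 0 ≤ C)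
    (hB : Bd (ks (κ / 2) m) p C) {φ : ℝ → ℂ} (hφ : GC φ) {R : ℝ} (h : Sm R φ) :
    eLpNorm (Tn n (rkS (2 * m + κ) h)) (ENNReal.ofReal p) (volume : Measure ℂ) ≤
      ENNReal.ofReal C * eLpNorm (rkS (2 * m + κ) h) (ENNReal.ofReal p) (volume : Measure ℂ) := by
  set K := 2 * m + κ with hK
  have hg := unprof_gc K hφ
  have e := prof_unprof K hφ
  have h' : Sm R (prof K (unprof K φ)) := by rw [e]; exact h
  have e2 : rkS K h = rkS K h' := by
    ext z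
    rw [rkS_apply, rkS_apply, e]
  rw [e2, eL hp, eL hp, lint_im κ m n hn hg h', lint_f K hg h']
  have h1 := hB _ hg
  calc (ENNReal.ofReal Real.pi * ∫⁻ x in Ioi (0:ℝ), ‖BB (ks (κ / 2) m) (unprof K φ) x‖ₑ ^ p) ^ (1 / p)
      ≤ (ENNReal.ofReal Real.pi * (ENNReal.ofReal (C ^ p) *
          ∫⁻ x in Ioi (0:ℝ), ‖unprof K φ x‖ₑ ^ p)) ^ (1 / p) := by gcongr
    _ = (ENNReal.ofReal (C ^ p) * (ENNReal.ofReal Real.pi *
          ∫⁻ x in Ioi (0:ℝ), ‖unprof K φ x‖ₑ ^ p)) ^ (1 / p) := by ring_nf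
    _ = _ := by
        rw [ENNReal.mul_rpow_of_nonneg _ _ (by positivity), ENNReal.ofReal_rpow_of_nonneg
          (by positivity) (by positivity), ← Real.rpow_mul hC, mul_one_div_cancel hp.ne',
          Real.rpow_one]

/-- the radial factor of a truncation -/
noncomputable def tr (K : ℕ) (χ : ℝ → ℝ) (F : ℂ → ℂ) (x : ℝ) : ℂ :=
  (χ x : ℂ) * (F ((√x : ℝ) : ℂ) * (((√x : ℝ) : ℂ) ^ K)⁻¹)

lemma tr_gc (K : ℕ) {χ : ℝ → ℝ} (hχ : ContDiff ℝ ∞ χ) {ε R : ℝ} (hε : 0 < ε) (hR : 0 < R)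
    (h1 : ∀ x, x ≤ ε → χ x = 0) (h2 : ∀ x, R ≤ x → χ x = 0) {F : ℂ → ℂ} (hF : ContDiff ℝ ∞ F) :
    GC (tr K χ F) := by
  refine ⟨?_, ⟨ε, hε, fun x hx => by unfold tr; rw [h1 x hx]; simp⟩, R, hR,
    fun x hx => by unfold tr; rw [h2 x hx]; simp⟩
  rw [contDiff_iff_contDiffAt]
  intro x
  rcases lt_or_ge x ε with hx | hx
  · refine (contDiffAt_const (c := (0 : ℂ))).congr_of_eventuallyEq ?_
    filter_upwards [Iio_mem_nhds hx] with y hy
    unfold tr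
    rw [h1 y (le_of_lt hy)]
    simp
  · have hx0 : 0 < x := by linarith
    unfold tr
    have e1 : ContDiffAt ℝ ∞ (fun x : ℝ => ((√x : ℝ) : ℂ)) x :=
      Complex.ofRealCLM.contDiff.contDiffAt.comp x (Real.contDiffAt_sqrt hx0.ne')
    refine ContDiffAt.mul ?_ (ContDiffAt.mul ?_ ?_)
    · exact (Complex.ofRealCLM.contDiff.comp hχ).contDiffAt
    · exact hF.contDiffAt.comp x e1
    · refine ContDiffAt.inv (e1.pow K) ?_
      exact pow_ne_zero _ (Complex.ofReal_ne_zero.2 (Real.sqrt_pos.2 hx0).ne')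

lemma rk_tr (K : ℕ) {χ : ℝ → ℝ} (h0 : χ 0 = 0) {F : ℂ → ℂ}
    (hF : ∀ a z : ℂ, ‖a‖ = 1 → F (a * z) = a ^ K * F z) (z : ℂ) :
    rk K (tr K χ F) z = (χ (Complex.normSq z) : ℂ) * F z := by
  unfold rk tr
  by_cases hz : z = 0
  · subst hz
    rw [map_zero, h0]
    simp
  · have hn : (‖z‖ : ℂ) ≠ 0 := Complex.ofReal_ne_zero.2 (norm_ne_zero_iff.2 hz)
    have h2 : √(Complex.normSq z) = ‖z‖ := rfl
    have ha : ‖z / (‖z‖ : ℂ)‖ = 1 := by
      rw [norm_div, Complex.norm_real, norm_norm]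
      exact div_self (norm_ne_zero_iff.2 hz)
    have h3 := hF (z / (‖z‖ : ℂ)) (‖z‖ : ℂ) ha
    rw [div_mul_cancel₀ _ hn] at h3
    rw [h2, h3, div_pow]
    field_simp

/-- the bound for functions supported in annuli -/
def AnnBd (K n : ℕ) (p C : ℝ) : Prop := ∀ φ : ℝ → ℂ, GC φ → ∀ (R : ℝ) (h : Sm R φ),
  eLpNorm (Tn n (rkS K h)) (ENNReal.ofReal p) (volume : Measure ℂ) ≤
    ENNReal.ofReal C * eLpNorm (rkS K h) (ENNReal.ofReal p) (volume : Measure ℂ)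

open Pool.Agent.TH55.PowA (T Ft bs sm Adm T_cont) in
theorem to_schwartz {K n : ℕ} (hn : 1 ≤ n) {p C : ℝ} (hp : 2 ≤ p) (hH : AnnBd K n p C)
    (f : 𝓢(ℂ, ℂ)) (hf : ∀ a z : ℂ, ‖a‖ = 1 → f (a * z) = a ^ K * f z) :
    eLpNorm (Tn n f) (ENNReal.ofReal p) (volume : Measure ℂ) ≤
      ENNReal.ofReal C * eLpNorm (⇑f) (ENNReal.ofReal p) (volume : Measure ℂ) := by
  have hk : ∀ k : ℕ, (0 : ℝ) < 1 / ((k : ℝ) + 2) ∧ 1 / ((k : ℝ) + 2) < 1 := by
    intro k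
    have : (0 : ℝ) ≤ k := Nat.cast_nonneg k
    refine ⟨by positivity, ?_⟩
    rw [div_lt_one (by linarith)]
    linarith
  choose χ R hχ1 hχ2 hχ3 hχ4 hχ5 hχ6 using fun k : ℕ =>
    Pool.Agent.Y282.RB.K.exists_cut (1 / ((k : ℝ) + 2)) (hk k).1 (hk k).2
  have hεk : ∀ k : ℕ, (0:ℝ) < 1 / ((k : ℝ) + 2) / 2 := fun k => by
    have := (hk k).1
    positivity
  have hgc : ∀ k, GC (tr K (χ k) f) := fun k =>
    tr_gc K (hχ1 k) (hεk k) (by positivity : (0:ℝ) < |R k| + 1) (hχ5 k)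
      (fun x hx => hχ6 k x (by have := le_abs_self (R k); linarith)) (f.smooth ⊤)
  have h00 : ∀ k, χ k 0 = 0 := fun k => hχ5 k 0 (hεk k).le
  choose S hS using fun k => (hgc k).sm
  set h : ℕ → 𝓢(ℂ, ℂ) := fun k => rkS K (hS k) with hh
  have hap : ∀ k z, h k z = (χ k (Complex.normSq z) : ℂ) * f z := fun k z =>
    rk_tr K (h00 k) hf z
  have hle1 : ∀ k z, ‖h k z‖ ≤ ‖f z‖ := by
    intro k z
    rw [hap, norm_mul, Complex.norm_real, Real.norm_of_nonneg (hχ3 k _).1]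
    exact mul_le_of_le_one_left (norm_nonneg _) (hχ3 k _).2
  have hle2 : ∀ k z, ‖(f - h k) z‖ ≤ ‖f z‖ := by
    intro k z
    have e : (f - h k) z = ((1 - χ k (Complex.normSq z) : ℝ) : ℂ) * f z := by
      show f z - h k z = _
      rw [hap]
      push_cast
      ring
    rw [e, norm_mul, Complex.norm_real,
      Real.norm_of_nonneg (by linarith [(hχ3 k (Complex.normSq z)).2])]
    exact mul_le_of_le_one_left (norm_nonneg _) (by linarith [(hχ3 k (Complex.normSq z)).1])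
  have hz : ∀ (k : ℕ) z, 1 / ((k : ℝ) + 2) ≤ Complex.normSq z →
      Complex.normSq z ≤ 1 / (1 / ((k : ℝ) + 2)) → (f - h k) z = 0 := by
    intro k z hz1 hz2
    show f z - h k z = 0
    rw [hap, hχ4 k _ hz1 hz2]
    simp
  set K' : ℝ≥0∞ := ENNReal.ofReal (Pool.Agent.TH55.PowA.Cn n * (p - 1)) with hK
  have hKt : K' ≠ ⊤ := ENNReal.ofReal_ne_top
  have hP1 : (1 : ℝ≥0∞) ≤ ENNReal.ofReal p := by
    rw [← ENNReal.ofReal_one]
    exact ENNReal.ofReal_le_ofReal (by linarith)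
  have hbound : ∀ k, eLpNorm (Tn n f) (ENNReal.ofReal p) (volume : Measure ℂ) ≤
      K' * eLpNorm (f - h k : 𝓢(ℂ, ℂ)) (ENNReal.ofReal p) (volume : Measure ℂ) +
        ENNReal.ofReal C * eLpNorm (⇑f) (ENNReal.ofReal p) (volume : Measure ℂ) := by
    intro k
    have e1 : Tn n f = fun z => Tn n (f - h k : 𝓢(ℂ, ℂ)) z + Tn n (h k) z := by
      rw [← Pool.Agent.Y282.RB.K.Tn_add]
      congr 2
      rw [sub_add_cancel]
    have m1 : AEStronglyMeasurable (Tn n (f - h k : 𝓢(ℂ, ℂ))) (volume : Measure ℂ) := by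
      rw [Pool.Agent.Y282.RB.K.Tn_eq]
      exact (T_cont (Pool.Agent.Y282.RB.K.adm_sy n) _).aestronglyMeasurable
    have m2 : AEStronglyMeasurable (Tn n (h k)) (volume : Measure ℂ) := by
      rw [Pool.Agent.Y282.RB.K.Tn_eq]
      exact (T_cont (Pool.Agent.Y282.RB.K.adm_sy n) _).aestronglyMeasurable
    rw [e1]
    refine (eLpNorm_add_le m1 m2 hP1).trans (add_le_add ?_ ?_)
    · rw [Pool.Agent.Y282.RB.K.Tn_eq]
      exact Pool.Agent.TH55.PowA.main p hp n hn (f - h k)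
    · refine (hH _ (hgc k) _ (hS k)).trans ?_
      gcongr
      exact eLpNorm_mono (hle1 k)
  have hlim : Tendsto (fun k => K' * eLpNorm (f - h k : 𝓢(ℂ, ℂ)) (ENNReal.ofReal p)
      (volume : Measure ℂ) + ENNReal.ofReal C * eLpNorm (⇑f) (ENNReal.ofReal p)
        (volume : Measure ℂ)) atTop (𝓝 (K' * 0 + ENNReal.ofReal C * eLpNorm (⇑f) (ENNReal.ofReal p)
          (volume : Measure ℂ))) := by
    refine Tendsto.add ?_ tendsto_const_nhds
    refine ENNReal.Tendsto.const_mul ?_ (Or.inr hKt)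
    refine Pool.Agent.Y282.RB.K.tendsto_trunc f (fun k => f - h k) p hp (fun k z => hle2 k z)
      fun k z hz1 hz2 => ?_
    refine hz k z hz1 ?_
    rw [one_div_one_div]
    exact hz2
  rw [mul_zero, zero_add] at hlim
  exact ge_of_tendsto' hlim hbound

end Pool.Agent.L5helper95.BA
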